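import Mathlib

/-!
# Stanley's denominators for domino tilings, and Pell numbers: definitions
-/

namespace Pool.Agent.Helper310_Dom

open Polynomial

/-- `c_j = cos (j π / (k + 1)) + √(1 + cos² (j π / (k + 1)))` -/
noncomputable def cc (k j : ℕ) : ℝ :=
  Real.cos (j * Real.pi / (k + 1)) + √(1 + Real.cos (j * Real.pi / (k + 1)) ^ 2)

/-- `c̄_j = cos (j π / (k + 1)) - √(1 + cos² (j π / (k + 1)))` -/
noncomputable def cb (k j : ℕ) : ℝ :=
  Real.cos (j * Real.pi / (k + 1)) - √(1 + Real.cos (j * Real.pi / (k + 1)) ^ 2)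

/-- `a_S`, the product of the `c_j` with `j ∈ S` and the `c̄_j` with `j ∈ {1, …, ⌊k/2⌋} \ S` -/
noncomputable def aS (k : ℕ) (S : Finset ℕ) : ℝ :=
  (∏ j ∈ S, cc k j) * ∏ j ∈ Finset.Icc 1 (k / 2) \ S, cb k j

/-- Stanley's denominator `Q_k`: the product over all subsets `S` of `{1, …, ⌊k/2⌋}` of
`1 - a_S x` if `k` is even, and of `1 - a_S² x²` if `k` is odd. -/
noncomputable def Q (k : ℕ) : ℂ[X] :=
  if Even k then ∏ S ∈ (Finset.Icc 1 (k / 2)).powerset, (1 - C ((aS k S : ℝ) : ℂ) * X)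
  else ∏ S ∈ (Finset.Icc 1 (k / 2)).powerset, (1 - C ((aS k S ^ 2 : ℝ) : ℂ) * X ^ 2)

/-- `Q_k` has a complex root of multiplicity at least `2` -/
def HasRepeatedRoot (k : ℕ) : Prop := ∃ z : ℂ, 2 ≤ (Q k).rootMultiplicity z

/-- The Pell numbers `0, 1, 2, 5, 12, 29, 70, 169, …` -/
def pell : ℕ → ℕ
  | 0 => 0
  | 1 => 1
  | (n + 2) => 2 * pell (n + 1) + pell n

/-- The half-companion Pell numbers `1, 1, 3, 7, 17, 41, 99, …` -/
def halfPell : ℕ → ℕ
  | 0 => 1
  | 1 => 1
  | (n + 2) => 2 * halfPell (n + 1) + halfPell n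

/-- The exponent of the prime `p` in the primitive part
`∏_{d ∣ m} (pell (m / d)) ^ (μ d)` of the `m`-th Pell number, where `μ` is the Möbius function. -/
def primVal (p m : ℕ) : ℤ :=
  ∑ x ∈ m.divisorsAntidiagonal, ArithmeticFunction.moebius x.1 * (padicValNat p (pell x.2) : ℤ)

/-- The primitive part of the `m`-th Pell number is a perfect square up to factors dividing
`N`: every prime that does not divide `N` has even exponent in it. -/
def PrimSquareAway (N m : ℕ) : Prop := ∀ p : ℕ, p.Prime → ¬ p ∣ N → Even (primVal p m)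

end Pool.Agent.Helper310_Dom
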