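import Mathlib

/-!
# Multiplicative relations between units of quadratic extensions
-/

namespace Pool.Agent.Helper310_Dom

open Polynomial

/-- the polynomial with roots `d` and `d⁻¹` -/
noncomputable def qp {F : Type*} [Field F] (t : F) : F[X] := X ^ 2 - C t * X + 1

/-- Let `d j > 1` be real numbers with `d j + (d j)⁻¹` in the field `F`, and let
`∏ j, d j ^ e j = 1`. If for all `j ≠ i` the number `(d i - (d i)⁻¹) (d j - (d j)⁻¹)` is not in
`F`, then `e i = 0`. -/
theorem exponent_eq_zero {F : Type*} [Field F] [Algebra F ℝ] {ι : Type*} [Fintype ι]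
    [DecidableEq ι] (d : ι → ℝ) (hd : ∀ i, 1 < d i) (t : ι → F)
    (ht : ∀ i, d i + (d i)⁻¹ = algebraMap F ℝ (t i)) (e : ι → ℤ) (he : ∏ i, d i ^ e i = 1)
    (i : ι) (hi : ∀ j, j ≠ i →
      (d i - (d i)⁻¹) * (d j - (d j)⁻¹) ∉ Set.range (algebraMap F ℝ)) : e i = 0 := by
  classical
  have hinj : Function.Injective (algebraMap F ℝ) := (algebraMap F ℝ).injective
  have : CharZero F := (RingHom.charZero_iff hinj).2 inferInstance
  have hd0 : ∀ i, d i ≠ 0 := fun i => ne_of_gt (by linarith [hd i])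
  set p : F[X] := ∏ i, qp (t i) with hp
  have hmap : ∀ i, (qp (t i)).map (algebraMap F ℝ) = (X - C (d i)) * (X - C ((d i)⁻¹)) := by
    intro i
    unfold qp
    simp only [Polynomial.map_add, Polynomial.map_sub, Polynomial.map_pow, Polynomial.map_X,
      Polynomial.map_mul, Polynomial.map_C, Polynomial.map_one, ← ht i]
    have h1 : (C (d i) : ℝ[X]) * C ((d i)⁻¹) = 1 := by
      rw [← C_mul, mul_inv_cancel₀ (hd0 i), C_1]
    rw [C_add]
    linear_combination (-1 : ℝ[X]) * h1
  have hsplit : (p.map (algebraMap F ℝ)).Splits := by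
    rw [hp, Polynomial.map_prod]
    apply Polynomial.Splits.prod
    intro i _
    rw [hmap]
    exact (Polynomial.Splits.X_sub_C _).mul (Polynomial.Splits.X_sub_C _)
  have hpne : p ≠ 0 := by
    rw [hp, Finset.prod_ne_zero_iff]
    intro i _ h0
    have := hmap i
    rw [h0, Polynomial.map_zero] at this
    exact (mul_ne_zero (X_sub_C_ne_zero _) (X_sub_C_ne_zero _)) this.symm
  let L := IntermediateField.adjoin F (p.rootSet ℝ)
  have hsf : p.IsSplittingField F L := IntermediateField.adjoin_rootSet_isSplittingField hsplit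
  have : FiniteDimensional F L := Polynomial.IsSplittingField.finiteDimensional L p
  have : Normal F L := Normal.of_isSplittingField p
  have : IsGalois F L := by
    rw [isGalois_iff]
    exact ⟨inferInstance, inferInstance⟩
  have hmem : ∀ i, d i ∈ L := by
    intro i
    apply IntermediateField.subset_adjoin
    rw [Polynomial.mem_rootSet]
    refine ⟨hpne, ?_⟩
    rw [hp, map_prod, Finset.prod_eq_zero (Finset.mem_univ i)]
    rw [← Polynomial.eval_map_algebraMap, hmap]
    simp
  let D : ι → L := fun i => ⟨d i, hmem i⟩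
  have hDd : ∀ i, ((D i : L) : ℝ) = d i := fun i => rfl
  have hD0 : ∀ i, D i ≠ 0 := by
    intro i h
    apply hd0 i
    rw [← hDd, h]; rfl
  have htL : ∀ i, D i + (D i)⁻¹ = algebraMap F L (t i) := by
    intro i
    apply Subtype.ext
    push_cast
    rw [hDd, ht i]
  let δ : ι → L := fun i => D i - (D i)⁻¹
  have hδr : ∀ i, ((δ i : L) : ℝ) = d i - (d i)⁻¹ := by
    intro i
    simp only [δ]
    push_cast
    rw [hDd]
  have hδ0 : ∀ i, δ i ≠ 0 := by
    intro i h
    have h1 := hδr i
    rw [h] at h1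
    have h2 : (d i)⁻¹ < 1 := inv_lt_one_of_one_lt₀ (hd i)
    have h3 := hd i
    have : ((0 : L) : ℝ) = 0 := rfl
    rw [this] at h1
    linarith
  have hcase : ∀ (σ : L ≃ₐ[F] L) i, σ (D i) = D i ∨ σ (D i) = (D i)⁻¹ := by
    intro σ i
    have h1 : σ (D i) + (σ (D i))⁻¹ = D i + (D i)⁻¹ := by
      have := congrArg σ (htL i)
      rw [map_add, map_inv₀, AlgEquiv.commutes] at this
      rw [this, htL]
    have h2 : σ (D i) ≠ 0 := by simpa using hD0 i
    have h3 : (σ (D i) - D i) * (σ (D i) - (D i)⁻¹) = 0 := by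
      have h4 : σ (D i) * (σ (D i))⁻¹ = 1 := mul_inv_cancel₀ h2
      have h5 : D i * (D i)⁻¹ = 1 := mul_inv_cancel₀ (hD0 i)
      linear_combination σ (D i) * h1 - h4 + h5
    rcases mul_eq_zero.1 h3 with h | h
    · exact Or.inl (sub_eq_zero.1 h)
    · exact Or.inr (sub_eq_zero.1 h)
  have hcase2 : ∀ (σ : L ≃ₐ[F] L) i,
      (σ (D i) = D i ∧ σ (δ i) = δ i) ∨ (σ (D i) = (D i)⁻¹ ∧ σ (δ i) = - δ i) := by
    intro σ i
    rcases hcase σ i with h | h
    · left
      refine ⟨h, ?_⟩
      simp only [δ]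
      rw [map_sub, map_inv₀, h]
    · right
      refine ⟨h, ?_⟩
      simp only [δ]
      rw [map_sub, map_inv₀, h, inv_inv]
      ring
  let χ : ι → ((L ≃ₐ[F] L) →* L) := fun i =>
    { toFun := fun σ => σ (δ i) / δ i
      map_one' := by simp [hδ0 i]
      map_mul' := by
        intro σ τ
        rw [AlgEquiv.mul_apply]
        rcases hcase2 τ i with ⟨_, h⟩ | ⟨_, h⟩
        · rw [h, div_self (hδ0 i), mul_one]
        · rw [h, map_neg]
          field_simp [hδ0 i] }
  have hχ : ∀ i σ, χ i σ = σ (δ i) / δ i := fun i σ => rfl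
  have hlog : ∀ (σ : L ≃ₐ[F] L) j, Real.log ((σ (D j) : L) : ℝ) =
      ((χ j σ : L) : ℝ) * Real.log (d j) := by
    intro σ j
    rw [hχ]
    rcases hcase2 σ j with ⟨h1, h2⟩ | ⟨h1, h2⟩
    · rw [h1, h2, div_self (hδ0 j), hDd]
      simp
    · rw [h1, h2, neg_div, div_self (hδ0 j)]
      push_cast
      rw [hDd, Real.log_inv]
      ring
  have hrelL : ∏ j, D j ^ e j = 1 := by
    apply Subtype.ext
    push_cast
    exact he
  have hz : ∀ (x : L) (n : ℤ), ((x ^ n : L) : ℝ) = (x : ℝ) ^ n := fun x n => map_zpow₀ L.val x n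
  have hrel : ∀ σ : L ≃ₐ[F] L, ∑ j, (e j : ℝ) * (((χ j σ : L) : ℝ) * Real.log (d j)) = 0 := by
    intro σ
    have h1 := congrArg σ hrelL
    rw [map_prod, map_one] at h1
    have h2 := congrArg (fun x : L => (x : ℝ)) h1
    push_cast at h2
    have h3 := congrArg Real.log h2
    rw [Real.log_one, Real.log_prod] at h3
    · rw [← h3]
      apply Finset.sum_congr rfl
      intro j _
      rw [← hlog, map_zpow₀, hz, Real.log_zpow]
    · intro j _
      rw [map_zpow₀, hz]
      apply zpow_ne_zero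
      have : σ (D j) ≠ 0 := by simpa using hD0 j
      intro h
      exact this (Subtype.ext h)
  have : Fintype (L ≃ₐ[F] L) := Fintype.ofFinite _
  have horth : ∀ j, j ≠ i → ∑ σ : L ≃ₐ[F] L, ((χ i σ : L) : ℝ) * ((χ j σ : L) : ℝ) = 0 := by
    intro j hj
    have hne : χ i * χ j ≠ 1 := by
      intro h
      apply hi j hj
      have hfix : ∀ σ : L ≃ₐ[F] L, σ (δ i * δ j) = δ i * δ j := by
        intro σ
        have h1 := DFunLike.congr_fun h σ
        rw [MonoidHom.mul_apply, hχ, hχ, MonoidHom.one_apply] at h1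
        rw [map_mul]
        have := hδ0 i
        have := hδ0 j
        field_simp at h1
        exact h1
      have h2 : δ i * δ j ∈ (⊥ : IntermediateField F L) := by
        rw [IsGalois.mem_bot_iff_fixed]
        exact hfix
      rw [IntermediateField.mem_bot] at h2
      obtain ⟨g, hg⟩ := h2
      refine ⟨g, ?_⟩
      have h3 := congrArg (fun x : L => (x : ℝ)) hg
      push_cast at h3
      rw [hδr, hδr] at h3
      rw [← h3]
    have h1 := sum_hom_units_eq_zero (χ i * χ j) hne
    have h2 := congrArg (fun x : L => (x : ℝ)) h1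
    simp only [MonoidHom.mul_apply] at h2
    push_cast at h2
    exact h2
  have hsq : ∀ σ : L ≃ₐ[F] L, ((χ i σ : L) : ℝ) * ((χ i σ : L) : ℝ) = 1 := by
    intro σ
    rw [hχ]
    rcases hcase2 σ i with ⟨_, h2⟩ | ⟨_, h2⟩
    · rw [h2, div_self (hδ0 i)]
      simp
    · rw [h2, neg_div, div_self (hδ0 i)]
      push_cast
      ring
  have key : ∑ σ : L ≃ₐ[F] L, ((χ i σ : L) : ℝ) *
      ∑ j, (e j : ℝ) * (((χ j σ : L) : ℝ) * Real.log (d j)) = 0 := by
    apply Finset.sum_eq_zero
    intro σ _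
    rw [hrel σ, mul_zero]
  have key2 : ∑ σ : L ≃ₐ[F] L, ((χ i σ : L) : ℝ) *
      ∑ j, (e j : ℝ) * (((χ j σ : L) : ℝ) * Real.log (d j)) =
      (Fintype.card (L ≃ₐ[F] L) : ℝ) * ((e i : ℝ) * Real.log (d i)) := by
    have h1 : ∀ σ : L ≃ₐ[F] L, ((χ i σ : L) : ℝ) *
        ∑ j, (e j : ℝ) * (((χ j σ : L) : ℝ) * Real.log (d j)) =
        ∑ j, ((e j : ℝ) * Real.log (d j)) * (((χ i σ : L) : ℝ) * ((χ j σ : L) : ℝ)) := by
      intro σ
      rw [Finset.mul_sum]
      apply Finset.sum_congr rfl
      intro j _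
      ring
    rw [Finset.sum_congr rfl (fun σ _ => h1 σ), Finset.sum_comm]
    rw [Finset.sum_eq_single i]
    · rw [← Finset.mul_sum, Finset.sum_congr rfl (fun σ _ => hsq σ)]
      simp
      ring
    · intro j _ hj
      rw [← Finset.mul_sum, horth j hj, mul_zero]
    · intro h
      exact absurd (Finset.mem_univ i) h
  rw [key2] at key
  have hc : (Fintype.card (L ≃ₐ[F] L) : ℝ) ≠ 0 := by
    have : 0 < Fintype.card (L ≃ₐ[F] L) := Fintype.card_pos
    positivity
  have hl : Real.log (d i) ≠ 0 := (Real.log_pos (hd i)).ne'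
  rcases mul_eq_zero.1 key with h | h
  · exact absurd h hc
  · rcases mul_eq_zero.1 h with h | h
    · exact_mod_cast h
    · exact absurd h hl

end Pool.Agent.Helper310_Dom
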