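import Mathlib
import Pool.Agent.Helper310_Dom.Defs
import Pool.Agent.Helper310_Dom.Galois

/-!
# Repeated roots give square classes that coincide
-/

namespace Pool.Agent.Helper310_Dom

open Polynomial

/-- the angle -/
noncomputable def th (k j : ℕ) : ℝ := j * Real.pi / (k + 1)

theorem cos_pos_of {k j : ℕ} (hj : j ≤ k / 2) : 0 < Real.cos (th k j) := by
  apply Real.cos_pos_of_mem_Ioo
  have hk : (0 : ℝ) < k + 1 := by positivity
  have h2 : (2 * j : ℝ) < k + 1 := by
    have : 2 * j < k + 1 := by omega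
    exact_mod_cast this
  constructor
  · have : 0 ≤ th k j := by unfold th; positivity
    linarith [Real.pi_pos]
  · unfold th
    rw [div_lt_div_iff₀ hk two_pos]
    nlinarith [Real.pi_pos]

theorem cc_mul_cb (k j : ℕ) : cc k j * cb k j = -1 := by
  unfold cc cb
  have h : √(1 + Real.cos (j * Real.pi / (k + 1)) ^ 2) ^ 2 =
      1 + Real.cos (j * Real.pi / (k + 1)) ^ 2 := Real.sq_sqrt (by positivity)
  linear_combination (-1 : ℝ) * h

theorem one_lt_cc {k j : ℕ} (hj : j ≤ k / 2) : 1 < cc k j := by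
  unfold cc
  have h1 := cos_pos_of hj
  unfold th at h1
  have h2 : 1 ≤ √(1 + Real.cos (j * Real.pi / (k + 1)) ^ 2) := by
    rw [Real.one_le_sqrt]
    nlinarith
  linarith

theorem cb_eq {k j : ℕ} (hj : j ≤ k / 2) : cb k j = - (cc k j)⁻¹ := by
  have h0 : cc k j ≠ 0 := ne_of_gt (by linarith [one_lt_cc hj])
  field_simp
  linear_combination cc_mul_cb k j

theorem cc_sub_inv {k j : ℕ} (hj : j ≤ k / 2) : cc k j - (cc k j)⁻¹ = 2 * Real.cos (th k j) := by
  have := cb_eq hj
  have h2 : cc k j + cb k j = 2 * Real.cos (th k j) := by unfold cc cb th; ring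
  rw [this] at h2
  linarith

theorem cc_add_inv {k j : ℕ} (hj : j ≤ k / 2) :
    cc k j + (cc k j)⁻¹ = 2 * √(1 + Real.cos (th k j) ^ 2) := by
  have := cb_eq hj
  have h2 : cc k j - cb k j = 2 * √(1 + Real.cos (th k j) ^ 2) := by unfold cc cb th; ring
  rw [this] at h2
  linarith

theorem aS_sq {k : ℕ} {S : Finset ℕ} (hS : S ⊆ Finset.Icc 1 (k / 2)) :
    aS k S ^ 2 = ∏ j ∈ Finset.Icc 1 (k / 2), (cc k j ^ 2) ^ (if j ∈ S then (1 : ℤ) else -1) := by
  unfold aS
  rw [mul_pow, ← Finset.prod_pow, ← Finset.prod_pow, ← Finset.prod_sdiff hS, mul_comm]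
  congr 1
  · apply Finset.prod_congr rfl
    intro j hj
    rw [Finset.mem_sdiff, Finset.mem_Icc] at hj
    rw [if_neg hj.2, cb_eq hj.1.2]
    simp
  · apply Finset.prod_congr rfl
    intro j hj
    rw [if_pos hj]
    simp

theorem aS_ne_zero {k : ℕ} {S : Finset ℕ} (hS : S ⊆ Finset.Icc 1 (k / 2)) : aS k S ≠ 0 := by
  unfold aS
  apply mul_ne_zero
  · rw [Finset.prod_ne_zero_iff]
    intro j hj
    have := Finset.mem_Icc.1 (hS hj)
    exact ne_of_gt (by linarith [one_lt_cc this.2])
  · rw [Finset.prod_ne_zero_iff]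
    intro j hj h0
    have := cc_mul_cb k j
    rw [h0, mul_zero] at this
    norm_num at this

theorem coprime_aux {a b : ℂ} (h : a ≠ b) (Y : ℂ[X]) : IsCoprime (1 - C a * Y) (1 - C b * Y) := by
  have h' : b - a ≠ 0 := sub_ne_zero.2 (Ne.symm h)
  refine ⟨C (b / (b - a)), C (-a / (b - a)), ?_⟩
  have h1 : (C (b / (b - a)) : ℂ[X]) + C (-a / (b - a)) = 1 := by
    rw [← C_add, ← add_div, ← sub_eq_add_neg, div_self h', C_1]
  have h2 : (C (b / (b - a)) : ℂ[X]) * C a + C (-a / (b - a)) * C b = 0 := by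
    rw [← C_mul, ← C_mul, ← C_add]
    have : b / (b - a) * a + -a / (b - a) * b = 0 := by ring
    rw [this, C_0]
  linear_combination h1 - Y * h2

/-- Two different subsets have the same `a_S²` if there is a repeated root. -/
theorem exists_sq_eq {k : ℕ} (h : HasRepeatedRoot k) :
    ∃ S ⊆ Finset.Icc 1 (k / 2), ∃ T ⊆ Finset.Icc 1 (k / 2), S ≠ T ∧ aS k S ^ 2 = aS k T ^ 2 := by
  by_contra hc
  push Not at hc
  obtain ⟨z, hz⟩ := h
  have hsep : (Q k).Separable := by
    unfold Q
    split_ifs with hk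
    · apply Polynomial.separable_prod'
      · intro S hS T hT hST
        apply coprime_aux
        intro he
        apply hc S (Finset.mem_powerset.1 hS) T (Finset.mem_powerset.1 hT) hST
        have : aS k S = aS k T := by exact_mod_cast he
        rw [this]
      · intro S hS
        have h0 : ((aS k S : ℝ) : ℂ) ≠ 0 := by
          exact_mod_cast aS_ne_zero (Finset.mem_powerset.1 hS)
        refine ⟨1, C (-(((aS k S : ℝ) : ℂ)⁻¹) ) * (C ((aS k S : ℝ) : ℂ) * X) * C 0 +
          C (-(((aS k S : ℝ) : ℂ)⁻¹)) * (C ((aS k S : ℝ) : ℂ) * X), ?_⟩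
        simp only [derivative_sub, derivative_one, derivative_C_mul, derivative_X]
        have h1 : (C (-(((aS k S : ℝ) : ℂ)⁻¹)) : ℂ[X]) * C ((aS k S : ℝ) : ℂ) = -1 := by
          rw [← C_mul, neg_mul, inv_mul_cancel₀ h0, C_neg, C_1]
        rw [C_0]
        linear_combination (-(C ((aS k S : ℝ) : ℂ)) * X) * h1
    · apply Polynomial.separable_prod'
      · intro S hS T hT hST
        apply coprime_aux
        intro he
        apply hc S (Finset.mem_powerset.1 hS) T (Finset.mem_powerset.1 hT) hST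
        exact_mod_cast he
      · intro S hS
        refine ⟨1, C (-(1 / 2)) * X, ?_⟩
        simp only [derivative_sub, derivative_one, derivative_C_mul, derivative_X_pow]
        have h1 : (C (-(1 / 2)) : ℂ[X]) * C ((2 : ℕ) : ℂ) = -1 := by
          rw [← C_mul]
          norm_num
        linear_combination (-(C ((aS k S ^ 2 : ℝ) : ℂ)) * X ^ 2) * h1
  have := Polynomial.rootMultiplicity_le_one_of_separable hsep z
  omega

theorem cos_mem (k j : ℕ) :
    Real.cos (th k j) ∈ IntermediateField.adjoin ℚ {Real.cos (Real.pi / (k + 1))} := by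
  induction j using Nat.strong_induction_on with
  | _ j ih =>
    match j, ih with
    | 0, _ =>
      have : Real.cos (th k 0) = 1 := by unfold th; simp
      rw [this]
      exact one_mem _
    | 1, _ =>
      have : th k 1 = Real.pi / (k + 1) := by unfold th; simp
      rw [this]
      exact IntermediateField.mem_adjoin_simple_self ℚ _
    | (j + 2), ih =>
      have h1 := ih (j + 1) (by omega)
      have h2 := ih j (by omega)
      have h3 : Real.cos (th k (j + 2)) =
          2 * Real.cos (Real.pi / (k + 1)) * Real.cos (th k (j + 1)) - Real.cos (th k j) := by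
        have e1 : th k (j + 2) = th k (j + 1) + Real.pi / (k + 1) := by
          unfold th; push_cast; ring
        have e2 : th k j = th k (j + 1) - Real.pi / (k + 1) := by
          unfold th; push_cast; ring
        rw [e1, e2, Real.cos_add, Real.cos_sub]
        ring
      rw [h3]
      refine sub_mem (mul_mem (mul_mem ?_ ?_) h1) h2
      · exact ofNat_mem _ 2
      · exact IntermediateField.mem_adjoin_simple_self ℚ _

/-- If `Q_k` has a repeated root, then `(1 + cos² (i π / (k + 1))) (1 + cos² (j π / (k + 1)))` is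
a square in the field generated by `cos (π / (k + 1))` for some `1 ≤ i < j ≤ k / 2`. -/
theorem criterion {k : ℕ} (h : HasRepeatedRoot k) :
    ∃ i j : ℕ, 1 ≤ i ∧ i < j ∧ j ≤ k / 2 ∧
      ∃ g ∈ IntermediateField.adjoin ℚ {Real.cos (Real.pi / (k + 1))},
        g ^ 2 = (1 + Real.cos (i * Real.pi / (k + 1)) ^ 2) *
          (1 + Real.cos (j * Real.pi / (k + 1)) ^ 2) := by
  classical
  obtain ⟨S, hS, T, hT, hST, heq⟩ := exists_sq_eq h
  set F := IntermediateField.adjoin ℚ {Real.cos (Real.pi / (k + 1))} with hF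
  let ι := {j : ℕ // j ∈ Finset.Icc 1 (k / 2)}
  letI : Fintype ι := inferInstanceAs (Fintype {j : ℕ // j ∈ Finset.Icc 1 (k / 2)})
  have hle : ∀ j : ι, (j : ℕ) ≤ k / 2 := fun j => (Finset.mem_Icc.1 j.2).2
  let d : ι → ℝ := fun j => cc k j ^ 2
  have hd : ∀ j, 1 < d j := fun j => by
    have := one_lt_cc (hle j)
    simp only [d]
    nlinarith
  let t : ι → F := fun j => ⟨2 + 4 * Real.cos (th k j) ^ 2,
    add_mem (ofNat_mem _ 2) (mul_mem (ofNat_mem _ 4) (pow_mem (cos_mem k j) 2))⟩
  have ht : ∀ j, d j + (d j)⁻¹ = algebraMap F ℝ (t j) := by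
    intro j
    have h1 := cc_sub_inv (hle j)
    have h0 : cc k j ≠ 0 := ne_of_gt (by linarith [one_lt_cc (hle j)])
    have h2 : algebraMap F ℝ (t j) = 2 + 4 * Real.cos (th k j) ^ 2 := rfl
    rw [h2]
    have h3 : cc k j * (cc k j)⁻¹ = 1 := mul_inv_cancel₀ h0
    simp only [d, inv_pow]
    linear_combination (cc k j - (cc k j)⁻¹ + 2 * Real.cos (th k j)) * h1 + 2 * h3
  let e : ι → ℤ := fun j => (if (j : ℕ) ∈ S then (1 : ℤ) else -1) - (if (j : ℕ) ∈ T then (1 : ℤ) else -1)
  have he : ∏ j, d j ^ e j = 1 := by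
    have h1 : ∀ j, d j ^ e j = d j ^ (if (j : ℕ) ∈ S then (1 : ℤ) else -1) /
        d j ^ (if (j : ℕ) ∈ T then (1 : ℤ) else -1) := fun j =>
      zpow_sub₀ (ne_of_gt (by linarith [hd j])) _ _
    rw [Finset.prod_congr rfl (fun j _ => h1 j), Finset.prod_div_distrib]
    have h2 : ∀ U : Finset ℕ, U ⊆ Finset.Icc 1 (k / 2) →
        ∏ j : ι, d j ^ (if (j : ℕ) ∈ U then (1 : ℤ) else -1) = aS k U ^ 2 := by
      intro U hU
      rw [aS_sq hU]
      exact Finset.prod_coe_sort (Finset.Icc 1 (k / 2))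
        (fun j => (cc k j ^ 2) ^ (if j ∈ U then (1 : ℤ) else -1))
    rw [h2 S hS, h2 T hT, heq, div_self]
    exact pow_ne_zero _ (aS_ne_zero hT)
  obtain ⟨i, hi⟩ : ∃ i : ι, e i ≠ 0 := by
    by_contra hc
    push Not at hc
    apply hST
    ext j
    constructor
    · intro hj
      by_contra hj'
      have := hc ⟨j, hS hj⟩
      simp [e, hj, hj'] at this
    · intro hj
      by_contra hj'
      have := hc ⟨j, hT hj⟩
      simp [e, hj, hj'] at this
  have hkey : ∃ j, j ≠ i ∧ (d i - (d i)⁻¹) * (d j - (d j)⁻¹) ∈ Set.range (algebraMap F ℝ) := by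
    by_contra hc
    push Not at hc
    exact hi (exponent_eq_zero d hd t ht e he i hc)
  obtain ⟨j, hji, g, hg⟩ := hkey
  have hδ : ∀ j : ι, d j - (d j)⁻¹ =
      4 * Real.cos (th k j) * √(1 + Real.cos (th k j) ^ 2) := by
    intro j
    have h1 := cc_sub_inv (hle j)
    have h2 := cc_add_inv (hle j)
    have h0 : cc k j ≠ 0 := ne_of_gt (by linarith [one_lt_cc (hle j)])
    simp only [d, inv_pow]
    linear_combination (cc k j + (cc k j)⁻¹) * h1 + 2 * Real.cos (th k j) * h2
  have hci := cos_pos_of (hle i)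
  have hcj := cos_pos_of (hle j)
  have hres : ∃ g' ∈ F, g' ^ 2 = (1 + Real.cos (th k i) ^ 2) * (1 + Real.cos (th k j) ^ 2) := by
    refine ⟨(g : ℝ) / (16 * Real.cos (th k i) * Real.cos (th k j)), ?_, ?_⟩
    · exact div_mem g.2 (mul_mem (mul_mem (ofNat_mem _ 16) (cos_mem k i)) (cos_mem k j))
    · have h1 : (g : ℝ) = (4 * Real.cos (th k i) * √(1 + Real.cos (th k i) ^ 2)) *
          (4 * Real.cos (th k j) * √(1 + Real.cos (th k j) ^ 2)) := by
        rw [← hδ, ← hδ]
        exact hg
      have h2 : (g : ℝ) / (16 * Real.cos (th k i) * Real.cos (th k j)) =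
          √(1 + Real.cos (th k i) ^ 2) * √(1 + Real.cos (th k j) ^ 2) := by
        rw [h1]
        field_simp
        ring
      rw [h2, mul_pow, Real.sq_sqrt (by positivity), Real.sq_sqrt (by positivity)]
  obtain ⟨g', hg', hgg⟩ := hres
  have hne : (i : ℕ) ≠ j := fun h => hji (Subtype.ext h.symm)
  have hi1 := (Finset.mem_Icc.1 i.2).1
  have hj1 := (Finset.mem_Icc.1 j.2).1
  rcases lt_or_gt_of_ne hne with hlt | hlt
  · exact ⟨i, j, hi1, hlt, hle j, g', hg', hgg⟩
  · exact ⟨j, i, hj1, hlt, hle i, g', hg', by rw [hgg, mul_comm]; rfl⟩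

end Pool.Agent.Helper310_Dom
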