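import Mathlib
import Pool.Agent.Helper310_Dom.Defs

/-!
# The Witt vectors of an algebraic closure of `𝔽_p` as an unramified extension of `ℤ_p`
-/

namespace Pool.Agent.Helper310_Dom

open Polynomial

variable (p : ℕ) [hp : Fact p.Prime]

/-- the residue field -/
abbrev KK : Type := AlgebraicClosure (ZMod p)

/-- the ring of Witt vectors -/
abbrev RR : Type := WittVector p (KK p)

/-- reduction modulo `p` -/
noncomputable abbrev red : RR p →+* KK p := WittVector.constantCoeff

theorem irr : Irreducible (p : RR p) := WittVector.irreducible p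

theorem pprime : Prime (p : RR p) := (irr p).prime

theorem dvd_iff (x : RR p) : (p : RR p) ∣ x ↔ red p x = 0 := by
  rw [← Ideal.mem_span_singleton, ← WittVector.ker_constantCoeff, RingHom.mem_ker]

theorem isUnit_of_red {x : RR p} (h : red p x ≠ 0) : IsUnit x :=
  WittVector.isUnit_of_coeff_zero_ne_zero x h

theorem red_ne_zero_of_isUnit {x : RR p} (h : IsUnit x) : red p x ≠ 0 :=
  (h.map (red p)).ne_zero

theorem natCast_red (n : ℕ) : red p (n : RR p) = (n : KK p) := map_natCast _ _

theorem natCast_isUnit {n : ℕ} (h : ¬ p ∣ n) : IsUnit (n : RR p) := by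
  apply isUnit_of_red
  rw [natCast_red]
  intro h0
  exact h ((CharP.cast_eq_zero_iff (KK p) p n).1 h0)

theorem p_ne_zero : (p : RR p) ≠ 0 := (irr p).ne_zero

instance charZeroRR : CharZero (RR p) := by
  apply charZero_of_inj_zero
  intro n hn
  by_contra h
  obtain ⟨a, b, hb, hab⟩ := Nat.exists_eq_pow_mul_and_not_dvd h p hp.out.ne_one
  rw [hab] at hn
  push_cast at hn
  rcases mul_eq_zero.1 hn with h1 | h1
  · exact pow_ne_zero _ (p_ne_zero p) h1
  · exact (natCast_isUnit p hb).ne_zero h1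

/-- the valuation -/
noncomputable def v (x : RR p) : ℕ := multiplicity (p : RR p) x

theorem v_mul {x y : RR p} (hx : x ≠ 0) (hy : y ≠ 0) : v p (x * y) = v p x + v p y :=
  multiplicity_mul (pprime p) (FiniteMultiplicity.of_not_isUnit (irr p).not_isUnit
    (mul_ne_zero hx hy))

theorem v_eq_zero_iff {x : RR p} : v p x = 0 ↔ red p x ≠ 0 := by
  unfold v
  rw [multiplicity_eq_zero, dvd_iff]

theorem v_unit {x : RR p} (h : IsUnit x) : v p x = 0 :=
  (v_eq_zero_iff p).2 (red_ne_zero_of_isUnit p h)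

theorem v_p : v p (p : RR p) = 1 := multiplicity_self

theorem v_pow {x : RR p} (hx : x ≠ 0) (n : ℕ) : v p (x ^ n) = n * v p x := by
  induction n with
  | zero => simp [v_unit p isUnit_one]
  | succ n ih => rw [pow_succ, v_mul p (pow_ne_zero _ hx) hx, ih]; ring

theorem v_prod {ι : Type*} (s : Finset ι) (f : ι → RR p) (h : ∀ i ∈ s, f i ≠ 0) :
    v p (∏ i ∈ s, f i) = ∑ i ∈ s, v p (f i) := by
  classical
  induction s using Finset.induction_on with
  | empty => simp [v_unit p isUnit_one]
  | insert a s ha ih =>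
    rw [Finset.prod_insert ha, Finset.sum_insert ha, v_mul p (h a (Finset.mem_insert_self _ _))
      (Finset.prod_ne_zero_iff.2 fun i hi => h i (Finset.mem_insert_of_mem hi)),
      ih (fun i hi => h i (Finset.mem_insert_of_mem hi))]

theorem v_natCast {n : ℕ} (h : n ≠ 0) : v p (n : RR p) = padicValNat p n := by
  obtain ⟨a, b, hb, hab⟩ := Nat.exists_eq_pow_mul_and_not_dvd h p hp.out.ne_one
  have hb0 : b ≠ 0 := by rintro rfl; exact hb (dvd_zero _)
  rw [hab]
  push_cast
  rw [v_mul p (pow_ne_zero _ (p_ne_zero p)) (Nat.cast_ne_zero.2 hb0), v_pow p (p_ne_zero p), v_p,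
    v_unit p (natCast_isUnit p hb), padicValNat.mul (pow_ne_zero _ hp.out.ne_zero) hb0,
    padicValNat.prime_pow, padicValNat.eq_zero_of_not_dvd hb]
  simp

/-- a square root of `2` -/
theorem exists_sqrt_two (h2 : p ≠ 2) : ∃ s : RR p, s ^ 2 = 2 := by
  have hpn : ¬ p ∣ 2 := fun h => h2 ((Nat.prime_dvd_prime_iff_eq hp.out Nat.prime_two).1 h)
  have h2K : (2 : KK p) ≠ 0 := by
    intro h0
    exact hpn ((CharP.cast_eq_zero_iff (KK p) p 2).1 (by exact_mod_cast h0))
  obtain ⟨b, hb⟩ := IsAlgClosed.exists_pow_nat_eq (2 : KK p) (n := 2) (by norm_num)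
  obtain ⟨a₀, ha₀⟩ := WittVector.constantCoeff_surjective p b
  have hb0 : b ≠ 0 := by
    rintro rfl
    apply h2K
    rw [← hb]; simp
  obtain ⟨s, hs, _⟩ := HenselianRing.is_henselian (R := RR p) (I := Ideal.span {(p : RR p)})
    (X ^ 2 - C 2) (monic_X_pow_sub_C _ two_ne_zero) a₀ (by
      rw [Ideal.mem_span_singleton, dvd_iff]
      have h1 : red p a₀ = b := ha₀
      have h2 : (X ^ 2 - C (2 : RR p)).eval a₀ = a₀ ^ 2 - 2 := by
        rw [eval_sub, eval_pow, eval_X, eval_C]
      rw [h2, map_sub, map_pow, h1, hb, map_ofNat, sub_self]) (by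
      apply IsUnit.map
      apply isUnit_of_red
      simp only [derivative_sub, derivative_X_pow, derivative_C, sub_zero, eval_mul, eval_C,
        eval_pow, eval_X, map_mul, map_pow]
      have : red p a₀ = b := ha₀
      rw [this]
      simp only [Nat.cast_ofNat, map_ofNat]
      simp [h2K, hb0])
  refine ⟨s, ?_⟩
  have h3 : (X ^ 2 - C (2 : RR p)).eval s = 0 := hs
  simp only [eval_sub, eval_pow, eval_X, eval_C] at h3
  linear_combination h3

/-- primitive roots of unity -/
theorem exists_prim {N : ℕ} (hN : ¬ p ∣ N) : ∃ y : RR p, IsPrimitiveRoot y N := by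
  have hN0 : N ≠ 0 := by rintro rfl; exact hN (dvd_zero _)
  have : NeZero (N : KK p) := ⟨fun h0 => hN ((CharP.cast_eq_zero_iff (KK p) p N).1 h0)⟩
  have : NeZero N := ⟨hN0⟩
  obtain ⟨ζ, hζ⟩ := HasEnoughRootsOfUnity.exists_primitiveRoot (KK p) N
  refine ⟨WittVector.teichmuller p ζ, ?_⟩
  refine hζ.map_of_injective (f := WittVector.teichmuller p) ?_
  intro a b h
  have := congrArg (fun x => WittVector.coeff x 0) h
  simpa [WittVector.teichmuller_coeff_zero] using this

/-- reduction is injective on roots of unity of order prime to `p` -/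
theorem red_inj {N : ℕ} (hN : ¬ p ∣ N) {x y : RR p} (hx : x ^ N = 1) (hy : y ^ N = 1)
    (h : red p x = red p y) : x = y := by
  have hN0 : N ≠ 0 := by rintro rfl; exact hN (dvd_zero _)
  have hxu : IsUnit x := IsUnit.of_pow_eq_one hx hN0
  have hyu : IsUnit y := IsUnit.of_pow_eq_one hy hN0
  -- `x ^ N - y ^ N = (x - y) * ∑ x ^ i y ^ (N - 1 - i)`
  have h1 : (∑ i ∈ Finset.range N, x ^ i * y ^ (N - 1 - i)) * (x - y) = 0 := by
    rw [(Commute.all x y).geom_sum₂_mul, hx, hy, sub_self]
  have h2 : IsUnit (∑ i ∈ Finset.range N, x ^ i * y ^ (N - 1 - i)) := by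
    apply isUnit_of_red
    rw [map_sum]
    have h3 : ∀ i ∈ Finset.range N, red p (x ^ i * y ^ (N - 1 - i)) = red p y ^ (N - 1) := by
      intro i hi
      rw [Finset.mem_range] at hi
      rw [map_mul, map_pow, map_pow, h, ← pow_add]
      congr 1
      omega
    rw [Finset.sum_congr rfl h3, Finset.sum_const, Finset.card_range, nsmul_eq_mul]
    apply mul_ne_zero
    · intro h0
      exact hN ((CharP.cast_eq_zero_iff (KK p) p N).1 h0)
    · exact pow_ne_zero _ (red_ne_zero_of_isUnit p hyu)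
  rcases mul_eq_zero.1 h1 with h3 | h3
  · exact absurd h3 h2.ne_zero
  · exact sub_eq_zero.1 h3

end Pool.Agent.Helper310_Dom
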