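import Mathlib
import Pool.Agent.Helper310_Dom.Witt

/-!
# Primitive parts of Pell numbers as values of cyclotomic polynomials
-/

namespace Pool.Agent.Helper310_Dom

open Polynomial

theorem pell_pos {n : ℕ} (h : 0 < n) : 0 < pell n := by
  induction n using Nat.strong_induction_on with
  | _ n ih =>
    match n, ih with
    | 1, _ => simp [pell]
    | 2, _ => simp [pell]
    | (n + 3), ih =>
      rw [pell]
      have := ih (n + 1) (by omega) (by omega)
      omega

/-- the Binet formula, in any commutative ring with a square root of two -/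
theorem binet {A : Type*} [CommRing A] {s : A} (hs : s ^ 2 = 2) (n : ℕ) :
    2 * s * (pell n : A) = (1 + s) ^ n - (1 - s) ^ n := by
  induction n using Nat.strong_induction_on with
  | _ n ih =>
    match n, ih with
    | 0, _ => simp [pell]
    | 1, _ => simp [pell]; ring
    | (n + 2), ih =>
      have h1 := ih (n + 1) (by omega)
      have h2 := ih n (by omega)
      rw [pell]
      push_cast
      have e1 : (1 + s) ^ (n + 2) = 2 * (1 + s) ^ (n + 1) + (1 + s) ^ n := by
        linear_combination (1 + s) ^ n * hs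
      have e2 : (1 - s) ^ (n + 2) = 2 * (1 - s) ^ (n + 1) + (1 - s) ^ n := by
        linear_combination (1 - s) ^ n * hs
      rw [e1, e2]
      linear_combination 2 * h1 + h2

variable (p : ℕ) [hp : Fact p.Prime]

theorem two_isUnit (h2 : p ≠ 2) : IsUnit (2 : RR p) := by
  have hpn : ¬ p ∣ 2 := fun h => h2 ((Nat.prime_dvd_prime_iff_eq hp.out Nat.prime_two).1 h)
  exact_mod_cast natCast_isUnit p hpn

theorem s_isUnit (h2 : p ≠ 2) {s : RR p} (hs : s ^ 2 = 2) : IsUnit s := by
  have h : IsUnit (s ^ 2) := hs ▸ two_isUnit p h2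
  exact (isUnit_pow_iff two_ne_zero).1 h

theorem eps_isUnit {s : RR p} (hs : s ^ 2 = 2) : IsUnit (1 + s) :=
  IsUnit.of_mul_eq_one (s - 1) (by linear_combination hs)

theorem pow_sub_one_eq {s : RR p} (hs : s ^ 2 = 2) (m : ℕ) :
    (-(3 + 2 * s)) ^ m - 1 = ((-1) ^ m * (1 + s) ^ m * (2 * s)) * (pell m : RR p) := by
  have h1 := binet hs m
  have h2 : (1 + s) ^ m * (1 - s) ^ m = (-1) ^ m := by
    have e : (1 + s) * (1 - s) = -1 := by linear_combination -hs
    rw [← mul_pow, e]
  have h3 : (-(3 + 2 * s)) ^ m = (-1) ^ m * ((1 + s) ^ m * (1 + s) ^ m) := by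
    have e : -(3 + 2 * s) = (-1) * ((1 + s) * (1 + s)) := by linear_combination hs
    rw [e, mul_pow, mul_pow]
  have h4 : ((-1 : RR p) ^ m) * (-1) ^ m = 1 := by
    rw [← mul_pow]; simp
  rw [h3]
  linear_combination (-(-1 : RR p) ^ m * (1 + s) ^ m) * h1 + (-1 : RR p) ^ m * h2 + h4

theorem v_pow_sub_one (h2 : p ≠ 2) {s : RR p} (hs : s ^ 2 = 2) {m : ℕ} (hm : 0 < m) :
    v p ((-(3 + 2 * s)) ^ m - 1) = padicValNat p (pell m) := by
  have hu : IsUnit ((-1 : RR p) ^ m * (1 + s) ^ m * (2 * s)) :=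
    ((isUnit_one.neg.pow m).mul ((eps_isUnit p hs).pow m)).mul
      ((two_isUnit p h2).mul (s_isUnit p h2 hs))
  rw [pow_sub_one_eq p hs, v_mul p hu.ne_zero (Nat.cast_ne_zero.2 (pell_pos hm).ne'),
    v_unit p hu, v_natCast p (pell_pos hm).ne', zero_add]

/-- `Φ_m (-(3 + 2√2))` -/
noncomputable def phi (s : RR p) (m : ℕ) : RR p := (cyclotomic m (RR p)).eval (-(3 + 2 * s))

theorem prod_phi {s : RR p} {m : ℕ} (hm : 0 < m) :
    ∏ d ∈ m.divisors, phi p s d = (-(3 + 2 * s)) ^ m - 1 := by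
  unfold phi
  rw [← eval_prod, prod_cyclotomic_eq_X_pow_sub_one hm]
  simp

theorem phi_ne_zero (h2 : p ≠ 2) {s : RR p} (hs : s ^ 2 = 2) {m : ℕ} (hm : 0 < m) :
    phi p s m ≠ 0 := by
  intro h0
  have h1 := prod_phi p (s := s) hm
  rw [Finset.prod_eq_zero (Nat.mem_divisors_self m hm.ne') h0] at h1
  rw [pow_sub_one_eq p hs] at h1
  have hu : IsUnit ((-1 : RR p) ^ m * (1 + s) ^ m * (2 * s)) :=
    ((isUnit_one.neg.pow m).mul ((eps_isUnit p hs).pow m)).mul
      ((two_isUnit p h2).mul (s_isUnit p h2 hs))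
  rcases mul_eq_zero.1 h1.symm with h | h
  · exact hu.ne_zero h
  · exact Nat.cast_ne_zero.2 (pell_pos hm).ne' h

theorem sum_v_phi (h2 : p ≠ 2) {s : RR p} (hs : s ^ 2 = 2) {m : ℕ} (hm : 0 < m) :
    ∑ d ∈ m.divisors, v p (phi p s d) = padicValNat p (pell m) := by
  rw [← v_pow_sub_one p h2 hs hm, ← prod_phi p hm, v_prod]
  intro i hi
  exact phi_ne_zero p h2 hs (Nat.pos_of_mem_divisors hi)

/-- The exponent of `p` in the primitive part is the valuation of `Φ_m (-(3 + 2√2))`. -/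
theorem primVal_eq (h2 : p ≠ 2) {s : RR p} (hs : s ^ 2 = 2) {m : ℕ} (hm : 0 < m) :
    primVal p m = (v p (phi p s m) : ℤ) := by
  have h := (ArithmeticFunction.sum_eq_iff_sum_mul_moebius_eq
    (f := fun d => (v p (phi p s d) : ℤ)) (g := fun d => (padicValNat p (pell d) : ℤ))).1
    (fun n hn => by
      rw [← sum_v_phi p h2 hs hn]
      push_cast
      rfl) m hm
  unfold primVal
  simpa using h

/-- If the valuation of `Φ_m (-(3 + 2√2))` is positive, then it is the valuation of `z² + 6 z + 1`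
for some primitive `m`-th root of unity `z`. -/
theorem exists_root (h2 : p ≠ 2) {s : RR p} (hs : s ^ 2 = 2) {m : ℕ} (hm : ¬ p ∣ m)
    (hv : v p (phi p s m) ≠ 0) : ∃ z : RR p, IsPrimitiveRoot z m ∧
      v p (z ^ 2 + 6 * z + 1) = v p (phi p s m) ∧ red p (z ^ 2 + 6 * z + 1) = 0 ∧
      z ^ 2 + 6 * z + 1 ≠ 0 := by
  classical
  have hm0 : 0 < m := Nat.pos_of_ne_zero (by rintro rfl; exact hm (dvd_zero _))
  obtain ⟨y, hy⟩ := exists_prim p hm
  have h1 : phi p s m = ∏ μ ∈ primitiveRoots m (RR p), (-(3 + 2 * s) - μ) := by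
    unfold phi
    rw [cyclotomic_eq_prod_X_sub_primitiveRoots hy, eval_prod]
    simp
  have hne : ∀ μ ∈ primitiveRoots m (RR p), (-(3 + 2 * s) - μ) ≠ 0 := by
    have := phi_ne_zero p h2 hs hm0
    rw [h1, Finset.prod_ne_zero_iff] at this
    exact this
  have h3 : v p (phi p s m) = ∑ μ ∈ primitiveRoots m (RR p), v p (-(3 + 2 * s) - μ) := by
    rw [h1, v_prod p _ _ hne]
  obtain ⟨z, hz, hvz⟩ : ∃ z ∈ primitiveRoots m (RR p), v p (-(3 + 2 * s) - z) ≠ 0 := by
    by_contra hc
    push Not at hc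
    apply hv
    rw [h3]
    exact Finset.sum_eq_zero hc
  have hzp : IsPrimitiveRoot z m := (mem_primitiveRoots hm0).1 hz
  have hred : red p z = red p (-(3 + 2 * s)) := by
    by_contra hc
    apply hvz
    rw [v_eq_zero_iff, map_sub]
    exact sub_ne_zero.2 (Ne.symm hc)
  have h4 : v p (phi p s m) = v p (-(3 + 2 * s) - z) := by
    rw [h3]
    apply Finset.sum_eq_single_of_mem z hz
    intro μ hμ hμz
    rw [v_eq_zero_iff, map_sub]
    intro h0
    apply hμz
    apply red_inj p hm ((mem_primitiveRoots hm0).1 hμ).pow_eq_one hzp.pow_eq_one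
    rw [hred]
    exact (sub_eq_zero.1 h0).symm
  have hfac : z ^ 2 + 6 * z + 1 = (-1) * (-(3 + 2 * s) - z) * (z + (3 - 2 * s)) := by
    linear_combination (4 : RR p) * hs
  have hother : red p (z + (3 - 2 * s)) ≠ 0 := by
    rw [map_add, hred, ← map_add]
    have : -(3 + 2 * s) + (3 - 2 * s) = -(2 * 2 * s) := by ring
    rw [this]
    apply red_ne_zero_of_isUnit
    exact (((two_isUnit p h2).mul (two_isUnit p h2)).mul (s_isUnit p h2 hs)).neg
  have hother0 : z + (3 - 2 * s) ≠ 0 := fun h => hother (by rw [h, map_zero])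
  refine ⟨z, hzp, ?_, ?_, ?_⟩
  · rw [hfac, v_mul p (mul_ne_zero (neg_ne_zero.2 one_ne_zero) (hne z hz)) hother0,
      v_mul p (neg_ne_zero.2 one_ne_zero) (hne z hz), v_unit p isUnit_one.neg,
      (v_eq_zero_iff p).2 hother, h4]
    ring
  · rw [hfac, map_mul, map_mul, map_sub, hred, sub_self, mul_zero, zero_mul]
  · rw [hfac]
    exact mul_ne_zero (mul_ne_zero (neg_ne_zero.2 one_ne_zero) (hne z hz)) hother0

/-- Two roots of unity with `z² + 6 z + 1` divisible by `p` are equal or inverse. -/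
theorem eq_or_inv {N : ℕ} (hN : ¬ p ∣ N) {z w : RR p} (hz : z ^ N = 1)
    (hw : w ^ N = 1) (h1 : red p (z ^ 2 + 6 * z + 1) = 0) (h3 : red p (w ^ 2 + 6 * w + 1) = 0) :
    z = w ∨ z * w = 1 := by
  have h4 : (red p z - red p w) * (red p z * red p w - 1) = 0 := by
    simp only [map_add, map_mul, map_pow, map_one, map_ofNat] at h1 h3
    linear_combination red p w * h1 - red p z * h3
  rcases mul_eq_zero.1 h4 with h | h
  · left
    exact red_inj p hN hz hw (sub_eq_zero.1 h)
  · right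
    apply red_inj p hN (by rw [mul_pow, hz, hw, one_mul]) (one_pow N)
    rw [map_mul, map_one]
    exact sub_eq_zero.1 h

end Pool.Agent.Helper310_Dom
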