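import Mathlib
import Pool.Agent.Helper310_Dom.Criterion
import Pool.Agent.Helper310_Dom.Pell

/-!
# From a square in the cyclotomic field to the parity of valuations
-/

namespace Pool.Agent.Helper310_Dom

open Polynomial

theorem lift_exp {M : Type*} [CommMonoid M] {w : M} {m N : ℕ} (hw : IsPrimitiveRoot w m)
    (hN : 0 < N) (hdvd : m ∣ N) {t : ℕ} (ht : t.Coprime m) :
    ∃ t' : ℕ, t'.Coprime N ∧ w ^ t' = w ^ t := by
  have hm0 : 0 < m := Nat.pos_of_dvd_of_pos hdvd hN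
  have i1 : NeZero m := ⟨hm0.ne'⟩
  have i2 : NeZero N := ⟨hN.ne'⟩
  obtain ⟨U, hU⟩ := ZMod.unitsMap_surjective hdvd (ZMod.unitOfCoprime t ht)
  refine ⟨(U : ZMod N).val, ZMod.val_coe_unit_coprime U, ?_⟩
  have h3 : (((U : ZMod N).val : ℕ) : ZMod m) = (t : ℕ) := by
    have h4 := congrArg (fun u : (ZMod m)ˣ => (u : ZMod m)) hU
    simp only [ZMod.unitsMap_val, ZMod.coe_unitOfCoprime] at h4
    rw [← h4, ZMod.natCast_val]
  rw [ZMod.natCast_eq_natCast_iff] at h3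
  have h5 : (U : ZMod N).val % orderOf w = t % orderOf w := by
    rw [← hw.eq_orderOf]
    exact h3
  rw [← pow_mod_orderOf, h5, pow_mod_orderOf]

theorem prim_pow {M : Type*} [CommMonoid M] {y0 : M} {n i : ℕ} (hi : 0 < i)
    (hy0 : IsPrimitiveRoot y0 (2 * n)) : IsPrimitiveRoot (y0 ^ (2 * i)) (n / Nat.gcd i n) := by
  have h2 : orderOf (y0 ^ (2 * i)) = n / Nat.gcd i n := by
    rw [orderOf_pow' y0 (by omega), ← hy0.eq_orderOf, Nat.gcd_mul_left, Nat.gcd_comm n i,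
      Nat.mul_div_mul_left _ _ two_pos]
  rw [← h2]
  exact IsPrimitiveRoot.orderOf _

theorem lift_root (p : ℕ) [hp : Fact p.Prime] {n i : ℕ} (hn : 0 < n) (hi : 0 < i)
    (hpn : ¬ p ∣ 2 * n) {z : RR p} (hz : IsPrimitiveRoot z (n / Nat.gcd i n)) :
    ∃ y : RR p, IsPrimitiveRoot y (2 * n) ∧ y ^ (2 * i) = z := by
  obtain ⟨y0, hy0⟩ := exists_prim p hpn
  have h1 : IsPrimitiveRoot (y0 ^ (2 * i)) (n / Nat.gcd i n) := prim_pow hi hy0
  have hm0 : 0 < n / Nat.gcd i n := Nat.div_pos (Nat.le_of_dvd hn (Nat.gcd_dvd_right i n))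
    (Nat.gcd_pos_of_pos_right i hn)
  have i1 : NeZero (n / Nat.gcd i n) := ⟨hm0.ne'⟩
  obtain ⟨t, _, htc, ht⟩ := h1.isPrimitiveRoot_iff.1 hz
  obtain ⟨t', ht'c, ht'⟩ := lift_exp h1 (N := 2 * n) (Nat.mul_pos two_pos hn)
    ((Nat.div_dvd_of_dvd (Nat.gcd_dvd_right i n)).trans (dvd_mul_left n 2)) htc
  refine ⟨y0 ^ t', hy0.pow_of_coprime _ ht'c, ?_⟩
  rw [← ht, ← ht', ← pow_mul, ← pow_mul, Nat.mul_comm]

theorem descend (p : ℕ) [hp : Fact p.Prime] {n i j : ℕ} (hn : 0 < n) {y : RR p}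
    (hy : IsPrimitiveRoot y (2 * n)) {g : ℝ}
    (hg : g ∈ IntermediateField.adjoin ℚ {Real.cos (Real.pi / n)})
    (hgg : g ^ 2 = (1 + Real.cos (i * Real.pi / n) ^ 2) * (1 + Real.cos (j * Real.pi / n) ^ 2)) :
    ∃ r : RR p, r ^ 2 = ((y ^ (2 * i)) ^ 2 + 6 * y ^ (2 * i) + 1) *
      ((y ^ (2 * j)) ^ 2 + 6 * y ^ (2 * j) + 1) := by
  have hnC : (n : ℂ) ≠ 0 := Nat.cast_ne_zero.2 hn.ne'
  set ξ : ℂ := Complex.exp (2 * Real.pi * Complex.I / (2 * n : ℕ)) with hξ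
  have hprim : IsPrimitiveRoot ξ (2 * n) := Complex.isPrimitiveRoot_exp (2 * n) (by omega)
  have hξ0 : ξ ≠ 0 := Complex.exp_ne_zero _
  have hcos : ∀ l : ℕ, 2 * ((Real.cos (l * Real.pi / n) : ℝ) : ℂ) * ξ ^ l = ξ ^ (2 * l) + 1 := by
    intro l
    have h1 : ξ ^ l = Complex.exp ((l * Real.pi / n : ℂ) * Complex.I) := by
      rw [hξ, ← Complex.exp_nat_mul]
      congr 1
      push_cast
      field_simp
    have h2 : ξ ^ (2 * l) = ξ ^ l * ξ ^ l := by rw [two_mul, pow_add]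
    rw [h2, h1]
    push_cast
    rw [Complex.cos, neg_mul, Complex.exp_neg]
    have := Complex.exp_ne_zero ((l * Real.pi / n : ℂ) * Complex.I)
    field_simp
  let E := IntermediateField.adjoin ℚ {ξ}
  have hξE : ξ ∈ E := IntermediateField.mem_adjoin_simple_self ℚ ξ
  have hc1 : ((Real.cos (Real.pi / n) : ℝ) : ℂ) ∈ E := by
    have h1 := hcos 1
    have h2 : ((Real.cos (Real.pi / n) : ℝ) : ℂ) = (ξ ^ 2 + 1) / (2 * ξ) := by
      rw [Nat.cast_one, one_mul, pow_one, mul_one] at h1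
      rw [← h1]
      field_simp
    rw [h2]
    exact div_mem (add_mem (pow_mem hξE 2) (one_mem _)) (mul_mem (ofNat_mem _ 2) hξE)
  have hgE : ((g : ℝ) : ℂ) ∈ E := by
    let φ : ℝ →ₐ[ℚ] ℂ := Complex.ofRealHom.toRatAlgHom
    have hle : IntermediateField.adjoin ℚ {Real.cos (Real.pi / n)} ≤ E.comap φ := by
      rw [IntermediateField.adjoin_simple_le_iff]
      exact hc1
    exact hle hg
  have : CharZero (FractionRing (RR p)) := charZero_of_injective_algebraMap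
    (IsFractionRing.injective (RR p) (FractionRing (RR p)))
  have hint : IsIntegral ℚ ξ := hprim.isIntegral (by omega) |>.tower_top
  have hroot : algebraMap (RR p) (FractionRing (RR p)) y ∈
      (minpoly ℚ ξ).aroots (FractionRing (RR p)) := by
    rw [← cyclotomic_eq_minpoly_rat hprim (by omega), mem_aroots]
    refine ⟨cyclotomic_ne_zero _ _, ?_⟩
    have hy' : IsPrimitiveRoot (algebraMap (RR p) (FractionRing (RR p)) y) (2 * n) :=
      hy.map_of_injective (IsFractionRing.injective (RR p) (FractionRing (RR p)))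
    have : NeZero ((2 * n : ℕ) : FractionRing (RR p)) := ⟨Nat.cast_ne_zero.2 (by omega)⟩
    rw [aeval_def, eval₂_eq_eval_map, map_cyclotomic]
    exact isRoot_cyclotomic_iff.2 hy'
  let ψ := (IntermediateField.algHomAdjoinIntegralEquiv ℚ hint).symm ⟨_, hroot⟩
  have hψ : ψ (IntermediateField.AdjoinSimple.gen ℚ ξ) =
      algebraMap (RR p) (FractionRing (RR p)) y :=
    IntermediateField.algHomAdjoinIntegralEquiv_symm_apply_gen ℚ hint ⟨_, hroot⟩
  let G : E := ⟨(g : ℂ), hgE⟩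
  let X1 : E := IntermediateField.AdjoinSimple.gen ℚ ξ
  have hX1 : ((X1 : E) : ℂ) = ξ := rfl
  have hG : ((G : E) : ℂ) = g := rfl
  have hE : (4 * G * X1 ^ (i + j)) ^ 2 = ((X1 ^ (2 * i)) ^ 2 + 6 * X1 ^ (2 * i) + 1) *
      ((X1 ^ (2 * j)) ^ 2 + 6 * X1 ^ (2 * j) + 1) := by
    apply Subtype.ext
    have e4 : ((4 : E) : ℂ) = 4 := rfl
    have e6 : ((6 : E) : ℂ) = 6 := rfl
    push_cast
    rw [hX1, hG, e4, e6]
    have h1 := hcos i
    have h2 := hcos j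
    have h3 : ((g : ℝ) : ℂ) ^ 2 = (1 + ((Real.cos (i * Real.pi / n) : ℝ) : ℂ) ^ 2) *
        (1 + ((Real.cos (j * Real.pi / n) : ℝ) : ℂ) ^ 2) := by
      exact_mod_cast congrArg (fun x : ℝ => (x : ℂ)) hgg
    set c1 := ((Real.cos (i * Real.pi / n) : ℝ) : ℂ)
    set c2 := ((Real.cos (j * Real.pi / n) : ℝ) : ℂ)
    have h4 : 4 * (1 + c1 ^ 2) * (ξ ^ i * ξ ^ i) = (ξ ^ (2 * i)) ^ 2 + 6 * ξ ^ (2 * i) + 1 := by
      have e : ξ ^ (2 * i) = ξ ^ i * ξ ^ i := by rw [two_mul, pow_add]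
      rw [e] at h1 ⊢
      linear_combination (2 * c1 * ξ ^ i + (ξ ^ i * ξ ^ i + 1)) * h1
    have h5 : 4 * (1 + c2 ^ 2) * (ξ ^ j * ξ ^ j) = (ξ ^ (2 * j)) ^ 2 + 6 * ξ ^ (2 * j) + 1 := by
      have e : ξ ^ (2 * j) = ξ ^ j * ξ ^ j := by rw [two_mul, pow_add]
      rw [e] at h2 ⊢
      linear_combination (2 * c2 * ξ ^ j + (ξ ^ j * ξ ^ j + 1)) * h2
    rw [← h4, ← h5, pow_add]
    linear_combination (16 * (ξ ^ i * ξ ^ i) * (ξ ^ j * ξ ^ j)) * h3
  have hK := congrArg ψ hE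
  simp only [map_pow, map_mul, map_add, map_one, map_ofNat] at hK
  rw [show ψ X1 = algebraMap (RR p) (FractionRing (RR p)) y from hψ] at hK
  have hK2 : (4 * ψ G * algebraMap (RR p) (FractionRing (RR p)) y ^ (i + j)) ^ 2 =
      algebraMap (RR p) (FractionRing (RR p)) (((y ^ (2 * i)) ^ 2 + 6 * y ^ (2 * i) + 1) *
      ((y ^ (2 * j)) ^ 2 + 6 * y ^ (2 * j) + 1)) := by
    rw [hK]
    simp only [map_pow, map_mul, map_add, map_one, map_ofNat]
  obtain ⟨r, hr⟩ := IsIntegrallyClosed.exists_algebraMap_eq_of_isIntegral_pow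
    (R := RR p) (K := FractionRing (RR p)) two_pos (x := 4 * ψ G *
      algebraMap (RR p) (FractionRing (RR p)) y ^ (i + j)) (by
      rw [hK2]
      exact isIntegral_algebraMap)
  refine ⟨r, ?_⟩
  apply IsFractionRing.injective (RR p) (FractionRing (RR p))
  rw [map_pow, hr, hK2]

/-- the main step -/
theorem primSquareAway_of_square {k i j : ℕ} (hi : 1 ≤ i) (hj : 1 ≤ j) (hij : i ≠ j)
    (hi2 : i ≤ k / 2) (hj2 : j ≤ k / 2) {g : ℝ}
    (hg : g ∈ IntermediateField.adjoin ℚ {Real.cos (Real.pi / (k + 1))})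
    (hgg : g ^ 2 = (1 + Real.cos (i * Real.pi / (k + 1)) ^ 2) *
      (1 + Real.cos (j * Real.pi / (k + 1)) ^ 2)) :
    PrimSquareAway (2 * (k + 1)) ((k + 1) / Nat.gcd i (k + 1)) := by
  intro p hp hpn
  have : Fact p.Prime := ⟨hp⟩
  by_contra hodd
  have hn : 0 < k + 1 := Nat.succ_pos k
  have h2 : p ≠ 2 := by
    rintro rfl
    exact hpn (dvd_mul_right 2 _)
  obtain ⟨s, hs⟩ := exists_sqrt_two p h2
  have hm0 : 0 < (k + 1) / Nat.gcd i (k + 1) :=
    Nat.div_pos (Nat.le_of_dvd hn (Nat.gcd_dvd_right i _)) (Nat.gcd_pos_of_pos_right i hn)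
  have hpm : ¬ p ∣ (k + 1) / Nat.gcd i (k + 1) := fun h =>
    hpn ((h.trans (Nat.div_dvd_of_dvd (Nat.gcd_dvd_right i _))).trans (dvd_mul_left _ 2))
  rw [primVal_eq p h2 hs hm0] at hodd
  have hodd' : ¬ Even (v p (phi p s ((k + 1) / Nat.gcd i (k + 1)))) := by
    intro h
    exact hodd (by exact_mod_cast h)
  have hv : v p (phi p s ((k + 1) / Nat.gcd i (k + 1))) ≠ 0 := by
    intro h
    exact hodd' (h ▸ Even.zero)
  obtain ⟨z, hz, hz1, hz2, hz3⟩ := exists_root p h2 hs hpm hv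
  obtain ⟨y, hy, hyz⟩ := lift_root p hn (by omega : 0 < i) hpn hz
  have hg' : g ∈ IntermediateField.adjoin ℚ {Real.cos (Real.pi / ((k + 1 : ℕ) : ℝ))} := by
    push_cast; exact hg
  have hgg' : g ^ 2 = (1 + Real.cos (i * Real.pi / ((k + 1 : ℕ) : ℝ)) ^ 2) *
      (1 + Real.cos (j * Real.pi / ((k + 1 : ℕ) : ℝ)) ^ 2) := by
    push_cast; exact hgg
  obtain ⟨r, hr⟩ := descend p hn hy hg' hgg'
  rw [hyz] at hr
  have hw : red p ((y ^ (2 * j)) ^ 2 + 6 * y ^ (2 * j) + 1) ≠ 0 := by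
    intro h0
    have hN : ¬ p ∣ 2 * (k + 1) := hpn
    have e1 : (y ^ (2 * i)) ^ (2 * (k + 1)) = 1 := by
      rw [← pow_mul, mul_comm, pow_mul, hy.pow_eq_one, one_pow]
    have e2 : (y ^ (2 * j)) ^ (2 * (k + 1)) = 1 := by
      rw [← pow_mul, mul_comm, pow_mul, hy.pow_eq_one, one_pow]
    have hz2' : red p ((y ^ (2 * i)) ^ 2 + 6 * y ^ (2 * i) + 1) = 0 := by rw [hyz]; exact hz2
    rcases eq_or_inv p hN e1 e2 hz2' h0 with h | h
    · have := hy.pow_inj (by omega) (by omega) h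
      omega
    · rw [← pow_add] at h
      have := (hy.pow_eq_one_iff_dvd _).1 h
      have h3 : 2 * (k + 1) ≤ 2 * i + 2 * j := Nat.le_of_dvd (by omega) this
      omega
  have hw0 : (y ^ (2 * j)) ^ 2 + 6 * y ^ (2 * j) + 1 ≠ 0 := fun h => hw (by rw [h, map_zero])
  have hr0 : r ≠ 0 := by
    rintro rfl
    rw [zero_pow two_ne_zero] at hr
    exact mul_ne_zero hz3 hw0 hr.symm
  have h6 := congrArg (v p) hr
  rw [v_pow p hr0, v_mul p hz3 hw0, (v_eq_zero_iff p).2 hw, hz1, add_zero] at h6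
  exact hodd' ⟨v p r, by rw [← h6]; ring⟩

/-- If `Q_k` has a repeated root, then there are `1 ≤ i < j ≤ k / 2` such that, with
`m = (k + 1) / gcd (i, k + 1)` and `m' = (k + 1) / gcd (j, k + 1)`, the primitive parts of the
`m`-th and of the `m'`-th Pell number are squares up to the primes dividing `2 (k + 1)`. -/
theorem pell_criterion {k : ℕ} (h : HasRepeatedRoot k) :
    ∃ i j : ℕ, 1 ≤ i ∧ i < j ∧ j ≤ k / 2 ∧
      PrimSquareAway (2 * (k + 1)) ((k + 1) / Nat.gcd i (k + 1)) ∧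
      PrimSquareAway (2 * (k + 1)) ((k + 1) / Nat.gcd j (k + 1)) := by
  obtain ⟨i, j, hi, hij, hj, g, hg, hgg⟩ := criterion h
  refine ⟨i, j, hi, hij, hj, ?_, ?_⟩
  · exact primSquareAway_of_square hi (by omega) (by omega) (by omega) hj hg hgg
  · exact primSquareAway_of_square (by omega) hi (by omega) hj (by omega) hg
      (by rw [hgg, mul_comm])

end Pool.Agent.Helper310_Dom
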