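import Mathlib
import Pool.Agent.Helper310_Dom.Embed

/-!
# Families without repeated roots
-/

namespace Pool.Agent.Helper310_Dom

theorem no_repeated_of {k : ℕ}
    (h : ∀ m, m ∣ k + 1 → 3 ≤ m → ¬ PrimSquareAway (2 * (k + 1)) m) : ¬ HasRepeatedRoot k := by
  intro hr
  obtain ⟨i, j, hi, hij, hj, h1, _⟩ := pell_criterion hr
  refine h _ (Nat.div_dvd_of_dvd (Nat.gcd_dvd_right i _)) ?_ h1
  have hg : Nat.gcd i (k + 1) ≤ i := Nat.gcd_le_left _ (by omega)
  have hg0 : 0 < Nat.gcd i (k + 1) := Nat.gcd_pos_of_pos_right i (Nat.succ_pos k)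
  obtain ⟨m, hm⟩ := Nat.gcd_dvd_right i (k + 1)
  have h2 : (k + 1) / Nat.gcd i (k + 1) = m := Nat.div_eq_of_eq_mul_right hg0 hm
  rw [h2]
  by_contra hc
  have h3 : m ≤ 2 := by omega
  have h4 : k + 1 ≤ Nat.gcd i (k + 1) * 2 := by
    calc k + 1 = Nat.gcd i (k + 1) * m := hm
      _ ≤ _ := Nat.mul_le_mul_left _ h3
  omega

theorem three_le_of {k i : ℕ} (hi : 1 ≤ i) (hik : i ≤ k / 2) :
    3 ≤ (k + 1) / Nat.gcd i (k + 1) := by
  have hg : Nat.gcd i (k + 1) ≤ i := Nat.gcd_le_left _ (by omega)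
  have hg0 : 0 < Nat.gcd i (k + 1) := Nat.gcd_pos_of_pos_right i (Nat.succ_pos k)
  obtain ⟨m, hm⟩ := Nat.gcd_dvd_right i (k + 1)
  have h2 : (k + 1) / Nat.gcd i (k + 1) = m := Nat.div_eq_of_eq_mul_right hg0 hm
  rw [h2]
  by_contra hc
  have h3 : m ≤ 2 := by omega
  have h4 : k + 1 ≤ Nat.gcd i (k + 1) * 2 := by
    calc k + 1 = Nat.gcd i (k + 1) * m := hm
      _ ≤ _ := Nat.mul_le_mul_left _ h3
  omega

/-- The criterion, complete form. -/
theorem pell_criterion_full {k : ℕ} (h : HasRepeatedRoot k) :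
    ∃ i j : ℕ, 1 ≤ i ∧ i < j ∧ j ≤ k / 2 ∧
      (∃ g ∈ IntermediateField.adjoin ℚ {Real.cos (Real.pi / (k + 1))},
        g ^ 2 = (1 + Real.cos (i * Real.pi / (k + 1)) ^ 2) *
          (1 + Real.cos (j * Real.pi / (k + 1)) ^ 2)) ∧
      3 ≤ (k + 1) / Nat.gcd i (k + 1) ∧
      PrimSquareAway (2 * (k + 1)) ((k + 1) / Nat.gcd i (k + 1)) ∧
      3 ≤ (k + 1) / Nat.gcd j (k + 1) ∧
      PrimSquareAway (2 * (k + 1)) ((k + 1) / Nat.gcd j (k + 1)) := by
  obtain ⟨i, j, hi, hij, hj, g, hg, hgg⟩ := criterion h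
  refine ⟨i, j, hi, hij, hj, ⟨g, hg, hgg⟩, three_le_of hi (by omega), ?_,
    three_le_of (by omega) hj, ?_⟩
  · exact primSquareAway_of_square hi (by omega) (by omega) (by omega) hj hg hgg
  · exact primSquareAway_of_square (by omega) hi (by omega) hj (by omega) hg
      (by rw [hgg, mul_comm])

/-! ### Möbius inversion -/

theorem sum_primVal (p : ℕ) {n : ℕ} (hn : 0 < n) :
    ∑ d ∈ n.divisors, primVal p d = (padicValNat p (pell n) : ℤ) :=
  (ArithmeticFunction.sum_eq_iff_sum_mul_moebius_eq (f := primVal p)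
    (g := fun n => (padicValNat p (pell n) : ℤ))).2 (fun n _ => by simp [primVal]) n hn

theorem primVal_prime_pow (p : ℕ) {q : ℕ} (hq : q.Prime) (b : ℕ) :
    primVal p (q ^ (b + 1)) =
      (padicValNat p (pell (q ^ (b + 1))) : ℤ) - padicValNat p (pell (q ^ b)) := by
  have h1 := sum_primVal p (n := q ^ (b + 1)) (pow_pos hq.pos _)
  have h2 := sum_primVal p (n := q ^ b) (pow_pos hq.pos _)
  rw [Nat.sum_divisors_prime_pow hq] at h1 h2
  rw [Finset.sum_range_succ] at h1
  linarith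

/-- A number all of whose prime exponents are even is a square. -/
theorem isSquare_of_even {N : ℕ} (hN : N ≠ 0)
    (h : ∀ p : ℕ, p.Prime → Even (padicValNat p N)) : IsSquare N := by
  obtain ⟨a, b, hab, ha⟩ := Nat.sq_mul_squarefree N
  have ha1 : a = 1 := by
    by_contra hne
    obtain ⟨p, hp, hpa⟩ := Nat.exists_prime_and_dvd hne
    have : Fact p.Prime := ⟨hp⟩
    have hb0 : b ≠ 0 := by rintro rfl; apply hN; rw [← hab]; simp
    have ha0 : a ≠ 0 := by rintro rfl; apply hN; rw [← hab]; simp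
    have h1 := h p hp
    rw [← hab, padicValNat.mul (pow_ne_zero _ hb0) ha0, padicValNat.pow] at h1
    have h2 : padicValNat p a = 1 := by
      apply le_antisymm
      · by_contra hc
        have h3 : 2 ≤ padicValNat p a := by omega
        have h4 : p ^ 2 ∣ a := (padicValNat_dvd_iff_le ha0).2 h3
        have h5 := ha p (by rw [← pow_two]; exact h4)
        exact hp.one_lt.ne' (Nat.isUnit_iff.1 h5)
      · exact one_le_padicValNat_of_dvd ha0 hpa
    rw [h2] at h1
    rcases h1 with ⟨c, hc⟩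
    omega
  rw [ha1, mul_one] at hab
  exact ⟨b, by rw [← hab]; ring⟩

/-! ### Congruences -/

theorem pell_add_eight (n : ℕ) : pell (n + 8) = 408 * pell (n + 1) + 169 * pell n := by
  simp only [pell]
  ring

theorem hp_add_eight (n : ℕ) : halfPell (n + 8) = 408 * halfPell (n + 1) + 169 * halfPell n := by
  simp only [halfPell]
  ring

theorem pell_mod (n : ℕ) : pell (n + 8) % 8 = pell n % 8 := by
  rw [pell_add_eight]; omega

theorem pell_mod_mul (n t : ℕ) : pell (n + 8 * t) % 8 = pell n % 8 := by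
  induction t with
  | zero => simp
  | succ t ih =>
    rw [show n + 8 * (t + 1) = (n + 8 * t) + 8 by ring, pell_mod, ih]

theorem hp_mod_mul (n t : ℕ) : halfPell (n + 8 * t) % 24 = halfPell n % 24 := by
  induction t with
  | zero => simp
  | succ t ih =>
    rw [show n + 8 * (t + 1) = (n + 8 * t) + 8 by ring, hp_add_eight]
    omega

theorem pell_of_mod {n r : ℕ} (h : n % 8 = r) : pell n % 8 = pell r % 8 := by
  conv_lhs => rw [← Nat.mod_add_div n 8, h]
  exact pell_mod_mul r (n / 8)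

theorem hp_of_mod {n r : ℕ} (h : n % 8 = r) : halfPell n % 24 = halfPell r % 24 := by
  conv_lhs => rw [← Nat.mod_add_div n 8, h]
  exact hp_mod_mul r (n / 8)

theorem hp_binet {s : ℝ} (hs : s ^ 2 = 2) (n : ℕ) :
    2 * (halfPell n : ℝ) = (1 + s) ^ n + (1 - s) ^ n := by
  induction n using Nat.strong_induction_on with
  | _ n ih =>
    match n, ih with
    | 0, _ => simp [halfPell]; norm_num
    | 1, _ => simp [halfPell]; ring
    | (n + 2), ih =>
      have h1 := ih (n + 1) (by omega)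
      have h2 := ih n (by omega)
      rw [halfPell]
      push_cast
      have e1 : (1 + s) ^ (n + 2) = 2 * (1 + s) ^ (n + 1) + (1 + s) ^ n := by
        linear_combination (1 + s) ^ n * hs
      have e2 : (1 - s) ^ (n + 2) = 2 * (1 - s) ^ (n + 1) + (1 - s) ^ n := by
        linear_combination (1 - s) ^ n * hs
      rw [e1, e2]
      linear_combination 2 * h1 + h2

theorem pell_two_mul (n : ℕ) : pell (2 * n) = 2 * pell n * halfPell n := by
  have hs : (√2 : ℝ) ^ 2 = 2 := Real.sq_sqrt (by norm_num)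
  have h0 : (√2 : ℝ) ≠ 0 := by
    intro h; rw [h] at hs; norm_num at hs
  have h1 := binet hs n
  have h2 := hp_binet hs n
  have h3 := binet hs (2 * n)
  have e1 : (1 + √2 : ℝ) ^ (2 * n) = (1 + √2) ^ n * (1 + √2) ^ n := by rw [two_mul, pow_add]
  have e2 : (1 - √2 : ℝ) ^ (2 * n) = (1 - √2) ^ n * (1 - √2) ^ n := by rw [two_mul, pow_add]
  rw [e1, e2] at h3
  have h4 : (pell (2 * n) : ℝ) = 2 * pell n * halfPell n := by
    have h5 : 2 * √2 * (pell (2 * n) : ℝ) = 2 * √2 * (2 * pell n * halfPell n) := by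
      linear_combination h3 - (2 * (halfPell n : ℝ)) * h1 - ((1 + √2) ^ n - (1 - √2) ^ n) * h2
    exact mul_left_cancel₀ (mul_ne_zero two_ne_zero h0) h5
  exact_mod_cast h4

theorem hp_two_mul {n : ℕ} (hn : Even n) : halfPell (2 * n) + 1 = 2 * halfPell n ^ 2 := by
  have hs : (√2 : ℝ) ^ 2 = 2 := Real.sq_sqrt (by norm_num)
  have h2 := hp_binet hs n
  have h3 := hp_binet hs (2 * n)
  have e1 : (1 + √2 : ℝ) ^ (2 * n) = (1 + √2) ^ n * (1 + √2) ^ n := by rw [two_mul, pow_add]
  have e2 : (1 - √2 : ℝ) ^ (2 * n) = (1 - √2) ^ n * (1 - √2) ^ n := by rw [two_mul, pow_add]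
  have e3 : (1 + √2 : ℝ) ^ n * (1 - √2) ^ n = 1 := by
    rw [← mul_pow]
    have : (1 + √2 : ℝ) * (1 - √2) = -1 := by linear_combination -hs
    rw [this, hn.neg_one_pow]
  rw [e1, e2] at h3
  have h4 : ((halfPell (2 * n) : ℝ) + 1) = 2 * (halfPell n : ℝ) ^ 2 := by
    have h5 : (2 : ℝ) * ((halfPell (2 * n) : ℝ) + 1) = 2 * (2 * (halfPell n : ℝ) ^ 2) := by
      linear_combination h3 - (2 * (halfPell n : ℝ) + ((1 + √2) ^ n + (1 - √2) ^ n)) * h2 - 2 * e3
    exact mul_left_cancel₀ two_ne_zero h5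
  exact_mod_cast h4

theorem hp_pos (n : ℕ) : 0 < halfPell n := by
  induction n using Nat.strong_induction_on with
  | _ n ih =>
    match n, ih with
    | 0, _ => simp [halfPell]
    | 1, _ => simp [halfPell]
    | (n + 2), ih =>
      rw [halfPell]
      have := ih n (by omega)
      omega

/-! ### Powers of two -/

theorem hp_two_pow_mod (b : ℕ) : halfPell (2 ^ (b + 1)) % 5 = 2 ∨ halfPell (2 ^ (b + 1)) % 5 = 3 := by
  induction b with
  | zero => right; decide
  | succ b ih =>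
    left
    have h1 := hp_two_mul (n := 2 ^ (b + 1)) ⟨2 ^ b, by rw [pow_succ]; ring⟩
    rw [← pow_succ'] at h1
    have h2 : (halfPell (2 ^ (b + 1 + 1)) + 1) % 5 = 3 := by
      rw [h1, Nat.mul_mod, Nat.pow_mod]
      rcases ih with h | h <;> rw [h]
    omega

theorem pell_two_pow_val (b : ℕ) : padicValNat 2 (pell (2 ^ b)) = b := by
  induction b with
  | zero => simp [pell]
  | succ b ih =>
    have h0 := (pell_pos (n := 2 ^ b) (by positivity)).ne'
    rw [pow_succ', pell_two_mul, padicValNat.mul (by positivity) (hp_pos _).ne',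
      padicValNat.mul two_ne_zero h0, ih]
    have h1 : padicValNat 2 (halfPell (2 ^ b)) = 0 := by
      apply padicValNat.eq_zero_of_not_dvd
      rcases b with _ | b
      · decide
      · intro hd
        -- parity
        have h3 : halfPell (2 ^ (b + 1)) % 2 = 1 := by
          rcases b with _ | b
          · decide
          · have h1 := hp_two_mul (n := 2 ^ (b + 1)) ⟨2 ^ b, by rw [pow_succ]; ring⟩
            rw [← pow_succ'] at h1
            omega
        omega
    rw [h1]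
    simp
    ring

theorem two_pow_not (a b : ℕ) : ¬ PrimSquareAway (2 * 2 ^ a) (2 ^ (b + 2)) := by
  intro h
  have hpos : 0 < pell (2 ^ (b + 1)) := pell_pos (by positivity)
  have hpos2 : 0 < pell (2 ^ (b + 2)) := pell_pos (by positivity)
  have hsq : IsSquare (2 * (pell (2 ^ (b + 2)) * pell (2 ^ (b + 1)))) := by
    apply isSquare_of_even (by positivity)
    intro p hp
    have : Fact p.Prime := ⟨hp⟩
    rw [padicValNat.mul two_ne_zero (by positivity), padicValNat.mul hpos2.ne' hpos.ne']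
    by_cases h2 : p = 2
    · subst h2
      rw [pell_two_pow_val, pell_two_pow_val, padicValNat.self (by norm_num)]
      exact ⟨b + 2, by ring⟩
    · have hnd : ¬ p ∣ 2 := fun hd => h2 ((Nat.prime_dvd_prime_iff_eq hp Nat.prime_two).1 hd)
      have hnd2 : ¬ p ∣ 2 * 2 ^ a := by
        rw [← pow_succ']
        exact fun hd => hnd (hp.dvd_of_dvd_pow hd)
      have h3 := h p hp hnd2
      rw [show b + 2 = (b + 1) + 1 by ring, primVal_prime_pow p Nat.prime_two] at h3
      rw [padicValNat.eq_zero_of_not_dvd hnd, zero_add]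
      have h4 : Even (((padicValNat p (pell (2 ^ (b + 2))) : ℤ) +
          (padicValNat p (pell (2 ^ (b + 1))) : ℤ))) := by
        obtain ⟨c, hc⟩ := h3
        exact ⟨c + padicValNat p (pell (2 ^ (b + 1))), by
          rw [show b + 2 = b + 1 + 1 by ring]; linarith⟩
      exact_mod_cast h4
  rw [show b + 2 = (b + 1) + 1 by ring, pow_succ' 2 (b + 1), pell_two_mul] at hsq
  have hsq2 : IsSquare (halfPell (2 ^ (b + 1))) := by
    obtain ⟨c, hc⟩ := hsq
    have h5 : (2 * pell (2 ^ (b + 1))) ^ 2 * halfPell (2 ^ (b + 1)) = c ^ 2 := by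
      rw [pow_two c, ← hc]; ring
    have h6 : 2 * pell (2 ^ (b + 1)) ∣ c := by
      rw [← Nat.pow_dvd_pow_iff two_ne_zero, ← h5]
      exact dvd_mul_right _ _
    obtain ⟨d, hd⟩ := h6
    refine ⟨d, ?_⟩
    have h7 : (2 * pell (2 ^ (b + 1))) ^ 2 * halfPell (2 ^ (b + 1)) =
        (2 * pell (2 ^ (b + 1))) ^ 2 * d ^ 2 := by
      rw [h5, hd, mul_pow (2 * pell (2 ^ (b + 1))) d]
    rw [← pow_two]
    exact Nat.eq_of_mul_eq_mul_left (by positivity) h7
  obtain ⟨d, hd⟩ := hsq2
  have h7 : d * d % 5 = 0 ∨ d * d % 5 = 1 ∨ d * d % 5 = 4 := by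
    rw [Nat.mul_mod]
    have : d % 5 = 0 ∨ d % 5 = 1 ∨ d % 5 = 2 ∨ d % 5 = 3 ∨ d % 5 = 4 := by omega
    rcases this with h | h | h | h | h <;> rw [h] <;> norm_num
  rcases hp_two_pow_mod b with h | h <;> rw [hd] at h <;> omega

theorem no_repeated_two_pow {k a : ℕ} (hk : k + 1 = 2 ^ a) : ¬ HasRepeatedRoot k := by
  apply no_repeated_of
  intro m hm hm3
  rw [hk] at hm ⊢
  obtain ⟨b, _, rfl⟩ := (Nat.dvd_prime_pow Nat.prime_two).1 hm
  match b, hm3 with
  | 0, h => norm_num at h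
  | 1, h => norm_num at h
  | (b + 2), _ => exact two_pow_not a b

end Pool.Agent.Helper310_Dom
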