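import Mathlib
import Pool.Agent.Helper310_Dom.Families

/-!
# Powers of a prime `q ≡ ± 3 (mod 8)` and their doubles
-/

namespace Pool.Agent.Helper310_Dom

/-- `q` does not divide `pell (q ^ b)` and `pell (2 q ^ b)` -/
theorem not_dvd_pell {q : ℕ} (hq : q.Prime) (h2 : q ≠ 2) (b : ℕ) :
    ¬ q ∣ pell (q ^ b) ∧ ¬ q ∣ pell (2 * q ^ b) := by
  have : Fact q.Prime := ⟨hq⟩
  have h2K : (2 : KK q) ≠ 0 := by
    intro h0
    have h1 : q ∣ 2 := (CharP.cast_eq_zero_iff (KK q) q 2).1 (by exact_mod_cast h0)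
    exact h2 ((Nat.prime_dvd_prime_iff_eq hq Nat.prime_two).1 h1)
  obtain ⟨s, hs⟩ := IsAlgClosed.exists_pow_nat_eq (2 : KK q) (n := 2) (by norm_num)
  have hs0 : s ≠ 0 := by
    rintro rfl
    apply h2K
    rw [← hs]; simp
  constructor
  · intro hd
    have h1 := binet hs (q ^ b)
    rw [(CharP.cast_eq_zero_iff (KK q) q _).2 hd, mul_zero, ← sub_pow_char_pow] at h1
    have h3 : (1 + s - (1 - s)) ^ q ^ b ≠ 0 := by
      apply pow_ne_zero
      have : 1 + s - (1 - s) = 2 * s := by ring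
      rw [this]
      exact mul_ne_zero h2K hs0
    exact h3 h1.symm
  · intro hd
    have h1 := binet hs (2 * q ^ b)
    rw [(CharP.cast_eq_zero_iff (KK q) q _).2 hd, mul_zero, pow_mul, pow_mul,
      ← sub_pow_char_pow] at h1
    have h3 : ((1 + s) ^ 2 - (1 - s) ^ 2) ^ q ^ b ≠ 0 := by
      apply pow_ne_zero
      have : (1 + s) ^ 2 - (1 - s) ^ 2 = 2 * 2 * s := by ring
      rw [this]
      exact mul_ne_zero (mul_ne_zero h2K h2K) hs0
    exact h3 h1.symm

theorem pell_odd {n : ℕ} (hn : n % 2 = 1) : pell n % 2 = 1 := by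
  have h1 : n % 8 = 1 ∨ n % 8 = 3 ∨ n % 8 = 5 ∨ n % 8 = 7 := by omega
  rcases h1 with h | h | h | h
  · have := pell_of_mod h
    have e : pell 1 % 8 = 1 := by decide
    omega
  · have := pell_of_mod h
    have e : pell 3 % 8 = 5 := by decide
    omega
  · have := pell_of_mod h
    have e : pell 5 % 8 = 5 := by decide
    omega
  · have := pell_of_mod h
    have e : pell 7 % 8 = 1 := by decide
    omega

theorem hp_odd {n : ℕ} (hn : n % 2 = 1) : halfPell n % 2 = 1 := by
  have h1 : n % 8 = 1 ∨ n % 8 = 3 ∨ n % 8 = 5 ∨ n % 8 = 7 := by omega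
  rcases h1 with h | h | h | h
  · have := hp_of_mod h
    have e : halfPell 1 % 24 = 1 := by decide
    omega
  · have := hp_of_mod h
    have e : halfPell 3 % 24 = 7 := by decide
    omega
  · have := hp_of_mod h
    have e : halfPell 5 % 24 = 17 := by decide
    omega
  · have := hp_of_mod h
    have e : halfPell 7 % 24 = 23 := by decide
    omega

theorem pow_mod_eight {q : ℕ} (hq8 : q % 8 = 3 ∨ q % 8 = 5) (b : ℕ) :
    (q ^ b % 8 = 1 ∧ q ^ (b + 1) % 8 = q % 8) ∨ (q ^ b % 8 = q % 8 ∧ q ^ (b + 1) % 8 = 1) := by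
  induction b with
  | zero => left; simp
  | succ b ih =>
    rcases ih with ⟨_, h2⟩ | ⟨_, h2⟩
    · right
      refine ⟨h2, ?_⟩
      rw [pow_succ, Nat.mul_mod, h2]
      rcases hq8 with h | h <;> rw [h]
    · left
      refine ⟨h2, ?_⟩
      rw [pow_succ, Nat.mul_mod, h2]
      rcases hq8 with h | h <;> rw [h]

theorem sq_mod_eight {n : ℕ} (h : IsSquare n) : n % 8 = 0 ∨ n % 8 = 1 ∨ n % 8 = 4 := by
  obtain ⟨d, rfl⟩ := h
  rw [Nat.mul_mod]
  have : d % 8 = 0 ∨ d % 8 = 1 ∨ d % 8 = 2 ∨ d % 8 = 3 ∨ d % 8 = 4 ∨ d % 8 = 5 ∨ d % 8 = 6 ∨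
    d % 8 = 7 := by omega
  rcases this with h | h | h | h | h | h | h | h <;> rw [h] <;> norm_num

theorem sq_mod_three {n : ℕ} (h : IsSquare n) : n % 3 = 0 ∨ n % 3 = 1 := by
  obtain ⟨d, rfl⟩ := h
  rw [Nat.mul_mod]
  have : d % 3 = 0 ∨ d % 3 = 1 ∨ d % 3 = 2 := by omega
  rcases this with h | h | h <;> rw [h] <;> norm_num

/-- the primitive part of the `q ^ (b + 1)`-st Pell number -/
theorem odd_pow_not {q N : ℕ} (hq : q.Prime) (hq8 : q % 8 = 3 ∨ q % 8 = 5) (b : ℕ)
    (hN : ∀ p : ℕ, p.Prime → p ∣ N → p = 2 ∨ p = q) : ¬ PrimSquareAway N (q ^ (b + 1)) := by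
  intro h
  have hq2 : q ≠ 2 := by rintro rfl; omega
  have hqodd : q % 2 = 1 := by omega
  have hpo : ∀ b, (q ^ b) % 2 = 1 := fun b => by
    rw [Nat.pow_mod, hqodd, one_pow]
    norm_num
  have hpos : ∀ b, 0 < pell (q ^ b) := fun b => pell_pos (pow_pos hq.pos b)
  have hsq : IsSquare (pell (q ^ (b + 1)) * pell (q ^ b)) := by
    apply isSquare_of_even (mul_ne_zero (hpos _).ne' (hpos _).ne')
    intro p hp
    have : Fact p.Prime := ⟨hp⟩
    rw [padicValNat.mul (hpos _).ne' (hpos _).ne']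
    by_cases hpN : p ∣ N
    · rcases hN p hp hpN with rfl | rfl
      · rw [padicValNat.eq_zero_of_not_dvd, padicValNat.eq_zero_of_not_dvd]
        · exact ⟨0, rfl⟩
        · intro hd
          have := pell_odd (hpo b)
          omega
        · intro hd
          have := pell_odd (hpo (b + 1))
          omega
      · rw [padicValNat.eq_zero_of_not_dvd (not_dvd_pell hq hq2 b).1,
          padicValNat.eq_zero_of_not_dvd (not_dvd_pell hq hq2 (b + 1)).1]
        exact ⟨0, rfl⟩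
    · have h3 := h p hp hpN
      rw [primVal_prime_pow p hq] at h3
      have h4 : Even (((padicValNat p (pell (q ^ (b + 1))) : ℤ) +
          (padicValNat p (pell (q ^ b)) : ℤ))) := by
        obtain ⟨c, hc⟩ := h3
        exact ⟨c + padicValNat p (pell (q ^ b)), by linarith⟩
      exact_mod_cast h4
  have h8 := sq_mod_eight hsq
  rw [Nat.mul_mod] at h8
  have e1 : pell 1 % 8 = 1 := by decide
  have e3 : pell 3 % 8 = 5 := by decide
  have e5 : pell 5 % 8 = 5 := by decide
  rcases pow_mod_eight hq8 b with ⟨h1, h2⟩ | ⟨h1, h2⟩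
  · rw [pell_of_mod h1, e1] at h8
    rcases hq8 with hq3 | hq5
    · rw [hq3] at h2
      rw [pell_of_mod h2, e3] at h8
      omega
    · rw [hq5] at h2
      rw [pell_of_mod h2, e5] at h8
      omega
  · rw [pell_of_mod h2, e1] at h8
    rcases hq8 with hq3 | hq5
    · rw [hq3] at h1
      rw [pell_of_mod h1, e3] at h8
      omega
    · rw [hq5] at h1
      rw [pell_of_mod h1, e5] at h8
      omega

end Pool.Agent.Helper310_Dom
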