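import Mathlib
import Pool.Agent.Helper310_Dom.Odd

/-!
# The numbers `2 ^ a * q ^ b`
-/

namespace Pool.Agent.Helper310_Dom

open scoped NumberTheorySymbols

theorem sum_divisors_coprime {m n : ℕ} (h : m.Coprime n) (f : ℕ → ℤ) :
    ∑ d ∈ (m * n).divisors, f d = ∑ d ∈ m.divisors, ∑ e ∈ n.divisors, f (d * e) := by
  rw [Nat.Coprime.divisors_mul h, Finset.sum_map]
  rw [← Finset.sum_product']
  exact Finset.sum_attach (m.divisors ×ˢ n.divisors) (fun x => f (x.1 * x.2))

theorem sum_two_prime (p : ℕ) {q : ℕ} (hq : q.Prime) (hq2 : q ≠ 2) (c j : ℕ) :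
    ∑ x ∈ Finset.range (c + 1), ∑ y ∈ Finset.range (j + 1), primVal p (2 ^ x * q ^ y) =
      (padicValNat p (pell (2 ^ c * q ^ j)) : ℤ) := by
  have hc : Nat.Coprime (2 ^ c) (q ^ j) :=
    (((Nat.coprime_primes Nat.prime_two hq).2 hq2.symm).pow_right j).pow_left c
  rw [← sum_primVal p (n := 2 ^ c * q ^ j) (mul_pos (by positivity) (pow_pos hq.pos _)),
    sum_divisors_coprime hc, Nat.sum_divisors_prime_pow Nat.prime_two]
  apply Finset.sum_congr rfl
  intro x _
  rw [Nat.sum_divisors_prime_pow hq]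

theorem primVal_two_q (p : ℕ) {q : ℕ} (hq : q.Prime) (hq2 : q ≠ 2) (c j : ℕ) :
    primVal p (2 ^ (c + 1) * q ^ (j + 1)) =
      (padicValNat p (pell (2 ^ (c + 1) * q ^ (j + 1))) : ℤ)
        - padicValNat p (pell (2 ^ c * q ^ (j + 1)))
        - padicValNat p (pell (2 ^ (c + 1) * q ^ j)) + padicValNat p (pell (2 ^ c * q ^ j)) := by
  have h1 := sum_two_prime p hq hq2 (c + 1) (j + 1)
  have h2 := sum_two_prime p hq hq2 c (j + 1)
  have h3 := sum_two_prime p hq hq2 (c + 1) j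
  have h4 := sum_two_prime p hq hq2 c j
  rw [Finset.sum_range_succ] at h1 h3
  rw [Finset.sum_range_succ _ (j + 1)] at h1
  linarith

theorem val_pell_two_mul {p : ℕ} [hp : Fact p.Prime] (h2 : p ≠ 2) {t : ℕ} (ht : 0 < t) :
    padicValNat p (pell (2 * t)) = padicValNat p (pell t) + padicValNat p (halfPell t) := by
  have hnd : ¬ p ∣ 2 := fun hd => h2 ((Nat.prime_dvd_prime_iff_eq hp.out Nat.prime_two).1 hd)
  have h0 := (pell_pos ht).ne'
  rw [pell_two_mul, padicValNat.mul (by positivity) (hp_pos _).ne', padicValNat.mul two_ne_zero h0,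
    padicValNat.eq_zero_of_not_dvd hnd]
  ring

theorem primVal_two_q' {p : ℕ} (hp : p.Prime) (hp2 : p ≠ 2) {q : ℕ} (hq : q.Prime) (hq2 : q ≠ 2)
    (c j : ℕ) : primVal p (2 ^ (c + 1) * q ^ (j + 1)) =
      (padicValNat p (halfPell (2 ^ c * q ^ (j + 1))) : ℤ) - padicValNat p (halfPell (2 ^ c * q ^ j)) := by
  have : Fact p.Prime := ⟨hp⟩
  have h1 := val_pell_two_mul hp2 (t := 2 ^ c * q ^ (j + 1))
    (mul_pos (by positivity) (pow_pos hq.pos _))
  have h2 := val_pell_two_mul hp2 (t := 2 ^ c * q ^ j)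
    (mul_pos (by positivity) (pow_pos hq.pos _))
  rw [primVal_two_q p hq hq2, pow_succ' 2 c, mul_assoc, mul_assoc, h1, h2]
  push_cast
  ring

theorem primVal_two_pow {p : ℕ} (hp : p.Prime) (hp2 : p ≠ 2) (c : ℕ) :
    primVal p (2 ^ (c + 1)) = (padicValNat p (halfPell (2 ^ c)) : ℤ) := by
  have : Fact p.Prime := ⟨hp⟩
  have h1 := val_pell_two_mul hp2 (t := 2 ^ c) (by positivity)
  rw [primVal_prime_pow p Nat.prime_two, pow_succ' 2 c, h1]
  push_cast
  ring

/-- modulo `q`, multiplying the index by a power of `q` changes nothing -/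
theorem hp_mul_pow_mod {q : ℕ} (hq : q.Prime) (hq2 : q ≠ 2) (t b : ℕ) :
    halfPell (t * q ^ b) ≡ halfPell t [MOD q] := by
  have : Fact q.Prime := ⟨hq⟩
  have h2K : (2 : KK q) ≠ 0 := by
    intro h0
    have h1 : q ∣ 2 := (CharP.cast_eq_zero_iff (KK q) q 2).1 (by exact_mod_cast h0)
    exact hq2 ((Nat.prime_dvd_prime_iff_eq hq Nat.prime_two).1 h1)
  obtain ⟨s, hs⟩ := IsAlgClosed.exists_pow_nat_eq (2 : KK q) (n := 2) (by norm_num)
  have hb : ∀ n : ℕ, 2 * (halfPell n : KK q) = (1 + s) ^ n + (1 - s) ^ n := by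
    intro n
    induction n using Nat.strong_induction_on with
    | _ n ih =>
      match n, ih with
      | 0, _ => simp [halfPell]; norm_num
      | 1, _ => simp [halfPell]; ring
      | (n + 2), ih =>
        have h1 := ih (n + 1) (by omega)
        have h2 := ih n (by omega)
        rw [halfPell]
        push_cast
        have e1 : (1 + s) ^ (n + 2) = 2 * (1 + s) ^ (n + 1) + (1 + s) ^ n := by
          linear_combination (1 + s) ^ n * hs
        have e2 : (1 - s) ^ (n + 2) = 2 * (1 - s) ^ (n + 1) + (1 - s) ^ n := by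
          linear_combination (1 - s) ^ n * hs
        rw [e1, e2]
        linear_combination 2 * h1 + h2
  have h1 := hb (t * q ^ b)
  rw [pow_mul, pow_mul, ← add_pow_char_pow, ← hb t] at h1
  have h3 : (2 * (halfPell t : KK q)) ^ q ^ b = 2 * (halfPell t : KK q) := by
    have h4 := map_natCast (iterateFrobenius (KK q) q b) (2 * halfPell t)
    rw [iterateFrobenius_def] at h4
    push_cast at h4
    exact h4
  rw [h3] at h1
  have h5 : (halfPell (t * q ^ b) : KK q) = (halfPell t : KK q) := mul_left_cancel₀ h2K h1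
  exact (CharP.natCast_eq_natCast (KK q) q).1 h5

/-- the cofactor -/
theorem cofactor {T : ℕ} (hT : Even T) (l : ℕ) :
    ∃ W : ℤ, (halfPell (T * (2 * l + 1)) : ℤ) = halfPell T * W ∧ (halfPell T : ℤ) ∣ W - (-1) ^ l * (2 * l + 1) := by
  have hs : (√2 : ℝ) ^ 2 = 2 := Real.sq_sqrt (by norm_num)
  have hrec : ∀ l : ℕ, (halfPell (T * (2 * (l + 2) + 1)) : ℤ) =
      (4 * (halfPell T : ℤ) ^ 2 - 2) * halfPell (T * (2 * (l + 1) + 1)) - halfPell (T * (2 * l + 1)) := by
    intro l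
    have h0 := hp_binet hs T
    have h1 := hp_binet hs (T * (2 * (l + 2) + 1))
    have h2 := hp_binet hs (T * (2 * (l + 1) + 1))
    have h3 := hp_binet hs (T * (2 * l + 1))
    set x := (1 + √2 : ℝ) ^ T with hx
    set y := (1 - √2 : ℝ) ^ T with hy
    have hxy : x * y = 1 := by
      rw [hx, hy, ← mul_pow]
      have : (1 + √2 : ℝ) * (1 - √2) = -1 := by linear_combination -hs
      rw [this, hT.neg_one_pow]
    rw [pow_mul, pow_mul, ← hx, ← hy] at h1 h2 h3
    have e1 : x ^ (2 * (l + 2) + 1) = x ^ 4 * x ^ (2 * l + 1) := by rw [← pow_add]; congr 1; ring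
    have e2 : y ^ (2 * (l + 2) + 1) = y ^ 4 * y ^ (2 * l + 1) := by rw [← pow_add]; congr 1; ring
    have e3 : x ^ (2 * (l + 1) + 1) = x ^ 2 * x ^ (2 * l + 1) := by rw [← pow_add]; congr 1; ring
    have e4 : y ^ (2 * (l + 1) + 1) = y ^ 2 * y ^ (2 * l + 1) := by rw [← pow_add]; congr 1; ring
    rw [e1, e2] at h1
    rw [e3, e4] at h2
    have hu : 4 * (halfPell T : ℝ) ^ 2 = (x + y) ^ 2 := by rw [← h0]; ring
    have h5 : (2 : ℝ) * (halfPell (T * (2 * (l + 2) + 1)) : ℝ) = 2 * ((4 * (halfPell T : ℝ) ^ 2 - 2) *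
        halfPell (T * (2 * (l + 1) + 1)) - halfPell (T * (2 * l + 1))) := by
      rw [h1]
      have h6 : (2 : ℝ) * ((4 * (halfPell T : ℝ) ^ 2 - 2) *
        halfPell (T * (2 * (l + 1) + 1)) - halfPell (T * (2 * l + 1))) =
        ((x + y) ^ 2 - 2) * (2 * (halfPell (T * (2 * (l + 1) + 1)) : ℝ)) -
          2 * (halfPell (T * (2 * l + 1)) : ℝ) := by rw [hu]; ring
      rw [h6, h2, h3]
      have hA : x ^ 2 * y ^ 2 = 1 := by rw [← mul_pow, hxy, one_pow]
      linear_combination (-(x ^ (2 * l + 1) + y ^ (2 * l + 1))) * hA -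
        2 * (x ^ 2 * x ^ (2 * l + 1) + y ^ 2 * y ^ (2 * l + 1)) * hxy
    have h7 := mul_left_cancel₀ (two_ne_zero) h5
    exact_mod_cast h7
  have hthree : (halfPell (T * 3) : ℤ) = halfPell T * (4 * (halfPell T : ℤ) ^ 2 - 3) := by
    have h0 := hp_binet hs T
    have h1 := hp_binet hs (T * 3)
    set x := (1 + √2 : ℝ) ^ T with hx
    set y := (1 - √2 : ℝ) ^ T with hy
    have hxy : x * y = 1 := by
      rw [hx, hy, ← mul_pow]
      have : (1 + √2 : ℝ) * (1 - √2) = -1 := by linear_combination -hs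
      rw [this, hT.neg_one_pow]
    rw [pow_mul, pow_mul, ← hx, ← hy] at h1
    have hu : 4 * (halfPell T : ℝ) ^ 2 = (x + y) ^ 2 := by rw [← h0]; ring
    have h5 : (2 : ℝ) * (halfPell (T * 3) : ℝ) = 2 * (halfPell T * (4 * (halfPell T : ℝ) ^ 2 - 3)) := by
      rw [h1, hu, ← mul_assoc, h0]
      linear_combination (-3 * (x + y)) * hxy + 3 * (x + y) * hxy - 3 * (x + y) * hxy
    have h7 := mul_left_cancel₀ (two_ne_zero) h5
    exact_mod_cast h7
  induction l using Nat.strong_induction_on with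
  | _ l ih =>
    match l, ih with
    | 0, _ => exact ⟨1, by simp, by simp⟩
    | 1, _ =>
      refine ⟨4 * (halfPell T : ℤ) ^ 2 - 3, ?_, ?_⟩
      · exact hthree
      · refine ⟨4 * halfPell T, ?_⟩
        push_cast
        ring
    | (l + 2), ih =>
      obtain ⟨W1, h1, h1'⟩ := ih (l + 1) (by omega)
      obtain ⟨W0, h0, h0'⟩ := ih l (by omega)
      refine ⟨(4 * (halfPell T : ℤ) ^ 2 - 2) * W1 - W0, ?_, ?_⟩
      · rw [hrec l, h1, h0]; ring
      · obtain ⟨a, ha⟩ := h1'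
        obtain ⟨b, hb⟩ := h0'
        refine ⟨4 * halfPell T * W1 - 2 * a - b, ?_⟩
        have e1 : W1 = halfPell T * a + (-1) ^ (l + 1) * (2 * ((l + 1 : ℕ) : ℤ) + 1) := by linarith
        have e0 : W0 = halfPell T * b + (-1) ^ l * (2 * (l : ℤ) + 1) := by linarith
        have e2 : ((-1 : ℤ)) ^ (l + 1) = - (-1) ^ l := by rw [pow_succ]; ring
        have e3 : ((-1 : ℤ)) ^ (l + 2) = (-1) ^ l := by rw [pow_add]; norm_num
        rw [e2] at e1
        rw [e3]
        push_cast at e1 ⊢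
        linear_combination (-2 : ℤ) * e1 - e0

end Pool.Agent.Helper310_Dom
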