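import Mathlib
import Pool.Agent.Helper310_Dom.TwoQ

/-!
# No repeated roots for `k + 1 = 2 ^ a * q ^ b`
-/

namespace Pool.Agent.Helper310_Dom

open scoped NumberTheorySymbols

theorem hp_mod_two (n : ℕ) : halfPell n % 2 = 1 := by
  induction n using Nat.strong_induction_on with
  | _ n ih =>
    match n, ih with
    | 0, _ => simp [halfPell]
    | 1, _ => simp [halfPell]
    | (n + 2), ih =>
      rw [halfPell]
      have := ih n (by omega)
      omega

theorem sq_mod_five {n : ℕ} (h : IsSquare n) : n % 5 = 0 ∨ n % 5 = 1 ∨ n % 5 = 4 := by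
  obtain ⟨d, rfl⟩ := h
  rw [Nat.mul_mod]
  have : d % 5 = 0 ∨ d % 5 = 1 ∨ d % 5 = 2 ∨ d % 5 = 3 ∨ d % 5 = 4 := by omega
  rcases this with h | h | h | h | h <;> rw [h] <;> norm_num

theorem two_pow_not' {q N : ℕ} (hN : ∀ p : ℕ, p.Prime → p ∣ N → p = 2 ∨ p = q) (hq2 : q ≠ 2)
    (c : ℕ) (hqc : ¬ q ∣ halfPell (2 ^ (c + 1))) : ¬ PrimSquareAway N (2 ^ (c + 2)) := by
  intro h
  have hsq : IsSquare (halfPell (2 ^ (c + 1))) := by
    apply isSquare_of_even (hp_pos _).ne'
    intro p hp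
    by_cases hp2 : p = 2
    · subst hp2
      rw [padicValNat.eq_zero_of_not_dvd]
      · exact ⟨0, rfl⟩
      · intro hd
        have := hp_mod_two (2 ^ (c + 1))
        omega
    · by_cases hpN : p ∣ N
      · rcases hN p hp hpN with h1 | h1
        · exact absurd h1 hp2
        · rw [h1, padicValNat.eq_zero_of_not_dvd hqc]
          exact ⟨0, rfl⟩
      · have h3 := h p hp hpN
        rw [show c + 2 = (c + 1) + 1 by ring, primVal_two_pow hp hp2] at h3
        exact_mod_cast h3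
  have h5 := sq_mod_five hsq
  rcases hp_two_pow_mod c with h | h <;> omega

theorem two_mul_pow_not {q N : ℕ} (hq : q.Prime) (hq8 : q % 8 = 3 ∨ q % 8 = 5) (j : ℕ)
    (hN : ∀ p : ℕ, p.Prime → p ∣ N → p = 2 ∨ p = q) :
    ¬ PrimSquareAway N (2 * q ^ (j + 1)) := by
  intro h
  have hq2 : q ≠ 2 := by rintro rfl; omega
  have hnd : ∀ i, ¬ q ∣ halfPell (q ^ i) := by
    intro i hd
    have h1 := hp_mul_pow_mod hq hq2 1 i
    rw [one_mul] at h1
    have h2 : halfPell (q ^ i) ≡ 0 [MOD q] := (Nat.modEq_zero_iff_dvd).2 hd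
    have h3 : (1 : ℕ) ≡ 0 [MOD q] := h1.symm.trans h2
    have h4 : q ∣ 1 := (Nat.modEq_zero_iff_dvd).1 h3
    exact hq.one_lt.ne' (Nat.dvd_one.1 h4)
  have hsq : IsSquare (halfPell (q ^ (j + 1)) * halfPell (q ^ j)) := by
    apply isSquare_of_even (mul_ne_zero (hp_pos _).ne' (hp_pos _).ne')
    intro p hp
    have : Fact p.Prime := ⟨hp⟩
    rw [padicValNat.mul (hp_pos _).ne' (hp_pos _).ne']
    by_cases hp2 : p = 2
    · subst hp2
      rw [padicValNat.eq_zero_of_not_dvd, padicValNat.eq_zero_of_not_dvd]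
      · exact ⟨0, rfl⟩
      · intro hd
        have := hp_mod_two (q ^ j)
        omega
      · intro hd
        have := hp_mod_two (q ^ (j + 1))
        omega
    · by_cases hpN : p ∣ N
      · rcases hN p hp hpN with h1 | h1
        · exact absurd h1 hp2
        · rw [h1, padicValNat.eq_zero_of_not_dvd (hnd _), padicValNat.eq_zero_of_not_dvd (hnd _)]
          exact ⟨0, rfl⟩
      · have h3 := h p hp hpN
        have h4 := primVal_two_q' hp hp2 hq hq2 0 j
        simp only [zero_add, pow_one, pow_zero, one_mul] at h4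
        rw [h4] at h3
        have h5 : Even (((padicValNat p (halfPell (q ^ (j + 1))) : ℤ) +
            (padicValNat p (halfPell (q ^ j)) : ℤ))) := by
          obtain ⟨c, hc⟩ := h3
          exact ⟨c + padicValNat p (halfPell (q ^ j)), by linarith⟩
        exact_mod_cast h5
  have e1 : halfPell 1 % 24 = 1 := by decide
  have e3 : halfPell 3 % 24 = 7 := by decide
  have e5 : halfPell 5 % 24 = 17 := by decide
  have h8 := sq_mod_eight hsq
  have h9 := sq_mod_three hsq
  have hm : halfPell (q ^ (j + 1)) * halfPell (q ^ j) % 24 =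
      (halfPell (q ^ (j + 1)) % 24) * (halfPell (q ^ j) % 24) % 24 := Nat.mul_mod _ _ _
  rcases pow_mod_eight hq8 j with ⟨h1, h2⟩ | ⟨h1, h2⟩
  · rcases hq8 with hq3 | hq5
    · rw [hq3] at h2
      rw [hp_of_mod h1, hp_of_mod h2, e1, e3] at hm
      omega
    · rw [hq5] at h2
      rw [hp_of_mod h1, hp_of_mod h2, e1, e5] at hm
      omega
  · rcases hq8 with hq3 | hq5
    · rw [hq3] at h1
      rw [hp_of_mod h1, hp_of_mod h2, e1, e3] at hm
      omega
    · rw [hq5] at h1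
      rw [hp_of_mod h1, hp_of_mod h2, e1, e5] at hm
      omega

theorem not_dvd_of_J {q x : ℕ} (hq : 1 < q) (h : J((x : ℤ) | q) = -1) : ¬ q ∣ x := by
  intro hd
  have h1 : J((x : ℤ) | q) = J(0 | q) := by
    apply jacobiSym.mod_left'
    rw [Int.zero_emod]
    exact Int.emod_eq_zero_of_dvd (by exact_mod_cast hd)
  rw [h1, jacobiSym.zero_left hq] at h
  norm_num at h

theorem two_q_not {q N : ℕ} (hq : q.Prime) (hq2 : q ≠ 2) (c j : ℕ)
    (hN : ∀ p : ℕ, p.Prime → p ∣ N → p = 2 ∨ p = q)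
    (hJ : J((halfPell (2 ^ (c + 1)) : ℤ) | q) = -1) :
    ¬ PrimSquareAway N (2 ^ (c + 2) * q ^ (j + 1)) := by
  intro h
  have : Fact q.Prime := ⟨hq⟩
  have hqodd : q % 2 = 1 := hq.eq_two_or_odd.resolve_left hq2
  -- values modulo `q`
  have hmod : ∀ i, halfPell (2 ^ (c + 1) * q ^ i) ≡ halfPell (2 ^ (c + 1)) [MOD q] := fun i =>
    hp_mul_pow_mod hq hq2 _ i
  have hJi : ∀ i, J((halfPell (2 ^ (c + 1) * q ^ i) : ℤ) | q) = -1 := by
    intro i
    rw [← hJ]
    apply jacobiSym.mod_left'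
    exact_mod_cast (hmod i)
  have hnd : ∀ i, ¬ q ∣ halfPell (2 ^ (c + 1) * q ^ i) := fun i =>
    not_dvd_of_J hq.one_lt (hJi i)
  have hsq : IsSquare (halfPell (2 ^ (c + 1) * q ^ (j + 1)) * halfPell (2 ^ (c + 1) * q ^ j)) := by
    apply isSquare_of_even (mul_ne_zero (hp_pos _).ne' (hp_pos _).ne')
    intro p hp
    have : Fact p.Prime := ⟨hp⟩
    rw [padicValNat.mul (hp_pos _).ne' (hp_pos _).ne']
    by_cases hp2 : p = 2
    · subst hp2
      rw [padicValNat.eq_zero_of_not_dvd, padicValNat.eq_zero_of_not_dvd]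
      · exact ⟨0, rfl⟩
      · intro hd
        have := hp_mod_two (2 ^ (c + 1) * q ^ j)
        omega
      · intro hd
        have := hp_mod_two (2 ^ (c + 1) * q ^ (j + 1))
        omega
    · by_cases hpN : p ∣ N
      · rcases hN p hp hpN with h1 | h1
        · exact absurd h1 hp2
        · rw [h1, padicValNat.eq_zero_of_not_dvd (hnd _), padicValNat.eq_zero_of_not_dvd (hnd _)]
          exact ⟨0, rfl⟩
      · have h3 := h p hp hpN
        rw [show c + 2 = (c + 1) + 1 by ring, primVal_two_q' hp hp2 hq hq2] at h3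
        have h5 : Even (((padicValNat p (halfPell (2 ^ (c + 1) * q ^ (j + 1))) : ℤ) +
            (padicValNat p (halfPell (2 ^ (c + 1) * q ^ j)) : ℤ))) := by
          obtain ⟨d, hd⟩ := h3
          exact ⟨d + padicValNat p (halfPell (2 ^ (c + 1) * q ^ j)), by linarith⟩
        exact_mod_cast h5
  set T := 2 ^ (c + 1) * q ^ j with hT
  have hTe : Even T := ⟨2 ^ c * q ^ j, by rw [hT, pow_succ]; ring⟩
  obtain ⟨l, hl⟩ : ∃ l, q = 2 * l + 1 := ⟨q / 2, by omega⟩
  obtain ⟨W, hW, hWd⟩ := cofactor hTe l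
  have hTq : 2 ^ (c + 1) * q ^ (j + 1) = T * (2 * l + 1) := by
    rw [← hl, hT, pow_succ]; ring
  rw [hTq] at hsq
  obtain ⟨e, he⟩ := hsq
  have hu0 : (halfPell T : ℤ) ≠ 0 := by exact_mod_cast (hp_pos T).ne'
  have h6 : (e : ℤ) ^ 2 = (halfPell T : ℤ) ^ 2 * W := by
    have : ((halfPell (T * (2 * l + 1)) * halfPell T : ℕ) : ℤ) = ((e * e : ℕ) : ℤ) := by rw [he]
    push_cast at this
    rw [hW] at this
    linarith
  have h7 : (halfPell T : ℤ) ∣ e := by
    rw [← Int.pow_dvd_pow_iff two_ne_zero, h6]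
    exact dvd_mul_right _ _
  obtain ⟨w, hw⟩ := h7
  have h8 : W = w ^ 2 := by
    rw [hw, mul_pow] at h6
    exact (mul_left_cancel₀ (pow_ne_zero 2 hu0) h6).symm
  have hJu := hJi j
  rw [← hT] at hJu
  have huodd : Odd (halfPell T) := Nat.odd_iff.2 (hp_mod_two T)
  have h9 : J((-1) ^ l * (q : ℤ) | halfPell T) = -1 := by
    rw [jacobiSym.mul_left, jacobiSym.pow_left, jacobiSym.at_neg_one huodd]
    have h10 : halfPell T % 4 = 1 ∨ halfPell T % 4 = 3 := by
      have := hp_mod_two T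
      omega
    rcases h10 with h10 | h10
    · rw [ZMod.χ₄_nat_one_mod_four h10, one_pow, one_mul,
        jacobiSym.quadratic_reciprocity_one_mod_four' (Nat.odd_iff.2 hqodd) h10, hJu]
    · rw [ZMod.χ₄_nat_three_mod_four h10]
      rcases Nat.even_or_odd l with hl2 | hl2
      · have hq4 : q % 4 = 1 := by
          obtain ⟨r, hr⟩ := hl2
          omega
        rw [hl2.neg_one_pow, one_mul,
          jacobiSym.quadratic_reciprocity_one_mod_four hq4 huodd, hJu]
      · have hq4 : q % 4 = 3 := by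
          obtain ⟨r, hr⟩ := hl2
          omega
        rw [hl2.neg_one_pow, jacobiSym.quadratic_reciprocity_three_mod_four hq4 h10, hJu]
        norm_num
  have h11 : J(W | halfPell T) = -1 := by
    rw [← h9]
    apply jacobiSym.mod_left'
    have h12 : (q : ℤ) = 2 * (l : ℤ) + 1 := by exact_mod_cast hl
    rw [h12]
    exact (Int.modEq_iff_dvd.2 hWd).symm
  rw [h8, jacobiSym.pow_left] at h11
  have h13 := sq_nonneg (J(w | halfPell T))
  rw [h11] at h13
  norm_num at h13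

theorem no_repeated_two_q {k a b q : ℕ} (hq : q.Prime) (hq8 : q % 8 = 3 ∨ q % 8 = 5)
    (hJ : ∀ c, 1 ≤ c → c < a → J((halfPell (2 ^ c) : ℤ) | q) = -1) (hk : k + 1 = 2 ^ a * q ^ b) :
    ¬ HasRepeatedRoot k := by
  have hq2 : q ≠ 2 := by rintro rfl; omega
  have hN : ∀ p : ℕ, p.Prime → p ∣ 2 * (k + 1) → p = 2 ∨ p = q := by
    intro p hp hd
    rw [hk] at hd
    rcases (hp.dvd_mul).1 hd with h | h
    · exact Or.inl ((Nat.prime_dvd_prime_iff_eq hp Nat.prime_two).1 h)
    · rcases (hp.dvd_mul).1 h with h | h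
      · exact Or.inl ((Nat.prime_dvd_prime_iff_eq hp Nat.prime_two).1 (hp.dvd_of_dvd_pow h))
      · exact Or.inr ((Nat.prime_dvd_prime_iff_eq hp hq).1 (hp.dvd_of_dvd_pow h))
  apply no_repeated_of
  intro m hm hm3
  rw [hk] at hm
  obtain ⟨m1, m2, h1, h2, rfl⟩ := (Nat.dvd_mul).1 hm
  obtain ⟨c, hc, rfl⟩ := (Nat.dvd_prime_pow Nat.prime_two).1 h1
  obtain ⟨j, _, rfl⟩ := (Nat.dvd_prime_pow hq).1 h2
  match c, j, hc with
  | 0, 0, _ => norm_num at hm3
  | 0, (j + 1), _ =>
    rw [pow_zero, one_mul]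
    exact odd_pow_not hq hq8 j hN
  | 1, 0, _ => norm_num at hm3
  | 1, (j + 1), _ =>
    rw [pow_one]
    exact two_mul_pow_not hq hq8 j hN
  | (c + 2), 0, hc =>
    rw [pow_zero, mul_one]
    apply two_pow_not' hN hq2 c
    exact not_dvd_of_J hq.one_lt (hJ (c + 1) (by omega) (by omega))
  | (c + 2), (j + 1), hc =>
    exact two_q_not hq hq2 c j hN (hJ (c + 1) (by omega) (by omega))

/-! ### The primes `5` and `29` -/

theorem halfPell_two_pow_succ (c : ℕ) :
    halfPell (2 ^ (c + 2)) + 1 = 2 * halfPell (2 ^ (c + 1)) ^ 2 := by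
  have h1 := hp_two_mul (n := 2 ^ (c + 1)) ⟨2 ^ c, by rw [pow_succ]; ring⟩
  rw [← pow_succ'] at h1
  exact h1

theorem J_five (c : ℕ) : J((halfPell (2 ^ (c + 1)) : ℤ) | 5) = -1 := by
  rcases hp_two_pow_mod c with h | h
  · have h1 : J((halfPell (2 ^ (c + 1)) : ℤ) | 5) = J(2 | 5) := by
      apply jacobiSym.mod_left'
      omega
    rw [h1]
    norm_num
  · have h1 : J((halfPell (2 ^ (c + 1)) : ℤ) | 5) = J(3 | 5) := by
      apply jacobiSym.mod_left'
      omega
    rw [h1]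
    norm_num

theorem mod_29 (c : ℕ) : halfPell (2 ^ (c + 1)) % 29 = 3 ∨ halfPell (2 ^ (c + 1)) % 29 = 17 ∨
    halfPell (2 ^ (c + 1)) % 29 = 26 := by
  induction c with
  | zero => left; decide
  | succ c ih =>
    right
    have h1 := halfPell_two_pow_succ c
    have h2 : (halfPell (2 ^ (c + 2)) + 1) % 29 =
        2 * (halfPell (2 ^ (c + 1)) % 29) ^ 2 % 29 := by
      rw [h1, Nat.mul_mod, Nat.pow_mod]
      simp [Nat.mul_mod]
    rw [show c + 1 + 1 = c + 2 by ring]
    rcases ih with h | h | h <;> rw [h] at h2 <;> norm_num at h2 <;> omega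

theorem J_29 (c : ℕ) : J((halfPell (2 ^ (c + 1)) : ℤ) | 29) = -1 := by
  rcases mod_29 c with h | h | h
  · have h1 : J((halfPell (2 ^ (c + 1)) : ℤ) | 29) = J(3 | 29) := by
      apply jacobiSym.mod_left'
      omega
    rw [h1]
    norm_num
  · have h1 : J((halfPell (2 ^ (c + 1)) : ℤ) | 29) = J(17 | 29) := by
      apply jacobiSym.mod_left'
      omega
    rw [h1]
    norm_num
  · have h1 : J((halfPell (2 ^ (c + 1)) : ℤ) | 29) = J(26 | 29) := by
      apply jacobiSym.mod_left'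
      omega
    rw [h1]
    norm_num

theorem no_repeated_five {k a b : ℕ} (hk : k + 1 = 2 ^ a * 5 ^ b) : ¬ HasRepeatedRoot k := by
  refine no_repeated_two_q (q := 5) (by norm_num) (by norm_num) ?_ hk
  intro c hc _
  obtain ⟨c, rfl⟩ : ∃ d, c = d + 1 := ⟨c - 1, by omega⟩
  exact J_five c

theorem no_repeated_29 {k a b : ℕ} (hk : k + 1 = 2 ^ a * 29 ^ b) : ¬ HasRepeatedRoot k := by
  refine no_repeated_two_q (q := 29) (by norm_num) (by norm_num) ?_ hk
  intro c hc _
  obtain ⟨c, rfl⟩ : ∃ d, c = d + 1 := ⟨c - 1, by omega⟩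
  exact J_29 c

end Pool.Agent.Helper310_Dom
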