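import Mathlib
import Pool.Agent.Helper310_Dom.Final

/-!
# The numbers `3 ^ a * q ^ b`
-/

namespace Pool.Agent.Helper310_Dom

open scoped NumberTheorySymbols

theorem pell_mod24_mul (n t : ℕ) : pell (n + 8 * t) % 24 = pell n % 24 := by
  induction t with
  | zero => simp
  | succ t ih =>
    rw [show n + 8 * (t + 1) = (n + 8 * t) + 8 by ring, pell_add_eight]
    omega

theorem pell_of_mod24 {n r : ℕ} (h : n % 8 = r) : pell n % 24 = pell r % 24 := by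
  conv_lhs => rw [← Nat.mod_add_div n 8, h]
  exact pell_mod24_mul r (n / 8)

theorem pell24_one {n : ℕ} (h : n % 8 = 1 ∨ n % 8 = 7) : pell n % 24 = 1 := by
  rcases h with h | h <;> rw [pell_of_mod24 h] <;> decide

theorem pell24_five {n : ℕ} (h : n % 8 = 3 ∨ n % 8 = 5) : pell n % 24 = 5 := by
  rcases h with h | h <;> rw [pell_of_mod24 h] <;> decide

theorem pell24_odd {n : ℕ} (h : n % 2 = 1) : pell n % 24 = 1 ∨ pell n % 24 = 5 := by
  have h1 : (n % 8 = 1 ∨ n % 8 = 7) ∨ (n % 8 = 3 ∨ n % 8 = 5) := by omega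
  rcases h1 with h1 | h1
  · exact Or.inl (pell24_one h1)
  · exact Or.inr (pell24_five h1)

/-- the recursion along multiples of an odd number -/
theorem pell_rec {T : ℕ} (hT : Odd T) (l : ℕ) : (pell (T * (2 * (l + 2) + 1)) : ℤ) =
    (8 * (pell T : ℤ) ^ 2 - 2) * pell (T * (2 * (l + 1) + 1)) - pell (T * (2 * l + 1)) := by
  have hs : (√2 : ℝ) ^ 2 = 2 := Real.sq_sqrt (by norm_num)
  have hs0 : (√2 : ℝ) ≠ 0 := by
    intro h; rw [h] at hs; norm_num at hs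
  have h0 := binet hs T
  have h1 := binet hs (T * (2 * (l + 2) + 1))
  have h2 := binet hs (T * (2 * (l + 1) + 1))
  have h3 := binet hs (T * (2 * l + 1))
  set x := (1 + √2 : ℝ) ^ T with hx
  set y := (1 - √2 : ℝ) ^ T with hy
  have hxy : x * y = -1 := by
    rw [hx, hy, ← mul_pow]
    have : (1 + √2 : ℝ) * (1 - √2) = -1 := by linear_combination -hs
    rw [this, hT.neg_one_pow]
  rw [pow_mul, pow_mul, ← hx, ← hy] at h1 h2 h3
  have e1 : x ^ (2 * (l + 2) + 1) = x ^ 4 * x ^ (2 * l + 1) := by rw [← pow_add]; congr 1; ring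
  have e2 : y ^ (2 * (l + 2) + 1) = y ^ 4 * y ^ (2 * l + 1) := by rw [← pow_add]; congr 1; ring
  have e3 : x ^ (2 * (l + 1) + 1) = x ^ 2 * x ^ (2 * l + 1) := by rw [← pow_add]; congr 1; ring
  have e4 : y ^ (2 * (l + 1) + 1) = y ^ 2 * y ^ (2 * l + 1) := by rw [← pow_add]; congr 1; ring
  rw [e1, e2] at h1
  rw [e3, e4] at h2
  have hu : 8 * (pell T : ℝ) ^ 2 = (x - y) ^ 2 := by
    rw [← h0]
    linear_combination (-4 * (pell T : ℝ) ^ 2) * hs
  have h5 : (2 * √2) * (pell (T * (2 * (l + 2) + 1)) : ℝ) = (2 * √2) *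
      ((8 * (pell T : ℝ) ^ 2 - 2) * pell (T * (2 * (l + 1) + 1)) - pell (T * (2 * l + 1))) := by
    rw [h1]
    have h6 : (2 * √2) * ((8 * (pell T : ℝ) ^ 2 - 2) * pell (T * (2 * (l + 1) + 1)) -
        pell (T * (2 * l + 1))) = ((x - y) ^ 2 - 2) * (2 * √2 * (pell (T * (2 * (l + 1) + 1)) : ℝ)) -
          2 * √2 * (pell (T * (2 * l + 1)) : ℝ) := by rw [hu]; ring
    rw [h6, h2, h3]
    have hA : x ^ 2 * y ^ 2 = 1 := by rw [← mul_pow, hxy]; norm_num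
    linear_combination (x ^ (2 * l + 1) - y ^ (2 * l + 1)) * (-1) * hA +
      2 * (x ^ 2 * x ^ (2 * l + 1) - y ^ 2 * y ^ (2 * l + 1)) * hxy
  have h7 := mul_left_cancel₀ (mul_ne_zero two_ne_zero hs0) h5
  exact_mod_cast h7

theorem pell_three {T : ℕ} (hT : Odd T) :
    (pell (T * 3) : ℤ) = pell T * (8 * (pell T : ℤ) ^ 2 - 3) := by
  have hs : (√2 : ℝ) ^ 2 = 2 := Real.sq_sqrt (by norm_num)
  have hs0 : (√2 : ℝ) ≠ 0 := by
    intro h; rw [h] at hs; norm_num at hs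
  have h0 := binet hs T
  have h1 := binet hs (T * 3)
  set x := (1 + √2 : ℝ) ^ T with hx
  set y := (1 - √2 : ℝ) ^ T with hy
  have hxy : x * y = -1 := by
    rw [hx, hy, ← mul_pow]
    have : (1 + √2 : ℝ) * (1 - √2) = -1 := by linear_combination -hs
    rw [this, hT.neg_one_pow]
  rw [pow_mul, pow_mul, ← hx, ← hy] at h1
  have hu : 8 * (pell T : ℝ) ^ 2 = (x - y) ^ 2 := by
    rw [← h0]
    linear_combination (-4 * (pell T : ℝ) ^ 2) * hs
  have h5 : (2 * √2) * (pell (T * 3) : ℝ) = (2 * √2) * (pell T * (8 * (pell T : ℝ) ^ 2 - 3)) := by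
    rw [h1, hu, ← mul_assoc, h0]
    linear_combination 3 * (x - y) * hxy
  have h7 := mul_left_cancel₀ (mul_ne_zero two_ne_zero hs0) h5
  exact_mod_cast h7

/-- The cofactor `pell (T q) / pell T` is `± 1` modulo `8 (pell T)² - 3` if `3 ∤ q`. -/
theorem cofactor3 {T : ℕ} (hT : Odd T) : ∀ l : ℕ,
    ∃ W W' : ℤ, (pell (T * (2 * l + 1)) : ℤ) = pell T * W ∧
      (pell (T * (2 * (l + 1) + 1)) : ℤ) = pell T * W' ∧
      ((l % 6 = 0 ∧ (8 * (pell T : ℤ) ^ 2 - 3) ∣ W - 1 ∧ (8 * (pell T : ℤ) ^ 2 - 3) ∣ W') ∨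
       (l % 6 = 1 ∧ (8 * (pell T : ℤ) ^ 2 - 3) ∣ W ∧ (8 * (pell T : ℤ) ^ 2 - 3) ∣ W' + 1) ∨
       (l % 6 = 2 ∧ (8 * (pell T : ℤ) ^ 2 - 3) ∣ W + 1 ∧ (8 * (pell T : ℤ) ^ 2 - 3) ∣ W' + 1) ∨
       (l % 6 = 3 ∧ (8 * (pell T : ℤ) ^ 2 - 3) ∣ W + 1 ∧ (8 * (pell T : ℤ) ^ 2 - 3) ∣ W') ∨
       (l % 6 = 4 ∧ (8 * (pell T : ℤ) ^ 2 - 3) ∣ W ∧ (8 * (pell T : ℤ) ^ 2 - 3) ∣ W' - 1) ∨
       (l % 6 = 5 ∧ (8 * (pell T : ℤ) ^ 2 - 3) ∣ W - 1 ∧ (8 * (pell T : ℤ) ^ 2 - 3) ∣ W' - 1)) := by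
  intro l
  induction l with
  | zero =>
    refine ⟨1, 8 * (pell T : ℤ) ^ 2 - 3, by simp, pell_three hT, Or.inl ⟨rfl, ?_, dvd_refl _⟩⟩
    simp
  | succ l ih =>
    obtain ⟨W, W', h1, h2, h⟩ := ih
    set D := (8 * (pell T : ℤ) ^ 2 - 3) with hD
    refine ⟨W', (8 * (pell T : ℤ) ^ 2 - 2) * W' - W, h2, ?_, ?_⟩
    · have := pell_rec hT l
      rw [show l + 1 + 1 = l + 2 by ring, this, h1, h2]
      ring
    · have hV : (8 * (pell T : ℤ) ^ 2 - 2) * W' - W = D * W' + (W' - W) := by rw [hD]; ring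
      rw [hV]
      rcases h with ⟨h6, ⟨a, ha⟩, ⟨b, hb⟩⟩ | ⟨h6, ⟨a, ha⟩, ⟨b, hb⟩⟩ | ⟨h6, ⟨a, ha⟩, ⟨b, hb⟩⟩ |
        ⟨h6, ⟨a, ha⟩, ⟨b, hb⟩⟩ | ⟨h6, ⟨a, ha⟩, ⟨b, hb⟩⟩ | ⟨h6, ⟨a, ha⟩, ⟨b, hb⟩⟩
      · right; left
        exact ⟨by omega, ⟨b, hb⟩, ⟨W' + b - a, by linear_combination hb - ha⟩⟩
      · right; right; left
        exact ⟨by omega, ⟨b, hb⟩, ⟨W' + b - a, by linear_combination hb - ha⟩⟩
      · right; right; right; left
        exact ⟨by omega, ⟨b, hb⟩, ⟨W' + b - a, by linear_combination hb - ha⟩⟩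
      · right; right; right; right; left
        exact ⟨by omega, ⟨b, hb⟩, ⟨W' + b - a, by linear_combination hb - ha⟩⟩
      · right; right; right; right; right
        exact ⟨by omega, ⟨b, hb⟩, ⟨W' + b - a, by linear_combination hb - ha⟩⟩
      · left
        exact ⟨by omega, ⟨b, hb⟩, ⟨W' + b - a, by linear_combination hb - ha⟩⟩

theorem pell_pos_odd {T : ℕ} (hT : Odd T) : 0 < pell T := pell_pos hT.pos

theorem J_three {n : ℕ} (hn : n % 2 = 1) :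
    (J((pell n : ℤ) | 3) = 1 ∧ (n % 8 = 1 ∨ n % 8 = 7)) ∨
      (J((pell n : ℤ) | 3) = -1 ∧ (n % 8 = 3 ∨ n % 8 = 5)) := by
  have h1 : (n % 8 = 1 ∨ n % 8 = 7) ∨ (n % 8 = 3 ∨ n % 8 = 5) := by omega
  rcases h1 with h1 | h1
  · left
    refine ⟨?_, h1⟩
    have h2 := pell24_one h1
    have h3 : J((pell n : ℤ) | 3) = J(1 | 3) := by
      apply jacobiSym.mod_left'
      omega
    rw [h3]
    exact jacobiSym.one_left 3
  · right
    refine ⟨?_, h1⟩
    have h2 := pell24_five h1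
    have h3 : J((pell n : ℤ) | 3) = J(2 | 3) := by
      apply jacobiSym.mod_left'
      omega
    rw [h3]
    norm_num

/-- the symbol of `-3` modulo a Pell number of odd index -/
theorem J_neg_three {n : ℕ} (hn : n % 2 = 1) : J(-3 | pell n) = J((pell n : ℤ) | 3) := by
  have h24 := pell24_odd hn
  have h4 : pell n % 4 = 1 := by omega
  have hodd : Odd (pell n) := Nat.odd_iff.2 (by omega)
  have h1 : J(-3 | pell n) = ZMod.χ₄ (pell n) * J(3 | pell n) := jacobiSym.neg 3 hodd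
  rw [h1, ZMod.χ₄_nat_one_mod_four h4, one_mul]
  exact jacobiSym.quadratic_reciprocity_one_mod_four' (a := 3) (by decide) h4

/-- Products of two values that cannot be squares. -/
theorem not_square_three {T q : ℕ} (hT : T % 2 = 1) (hq8 : q % 8 = 3 ∨ q % 8 = 5)
    (hq3 : q % 3 ≠ 0) {e : ℤ}
    (he : (8 * (pell T : ℤ) ^ 2 - 3) * (8 * (pell (T * q) : ℤ) ^ 2 - 3) = e ^ 2) : False := by
  have hTo : Odd T := Nat.odd_iff.2 hT
  have hqo : q % 2 = 1 := by omega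
  have hTq : (T * q) % 2 = 1 := by rw [Nat.mul_mod, hT, hqo]
  have hTqo : Odd (T * q) := Nat.odd_iff.2 hTq
  have hpT := pell24_odd hT
  have hpTq := pell24_odd hTq
  have hT4 : pell T % 4 = 1 := by omega
  have hTq4 : pell (T * q) % 4 = 1 := by omega
  have hpT0 := pell_pos_odd hTo
  -- the number `D = 8 (pell T) ^ 2 - 3` as a natural number
  obtain ⟨D, hD⟩ : ∃ D : ℕ, (D : ℤ) = 8 * (pell T : ℤ) ^ 2 - 3 := by
    refine ⟨8 * pell T ^ 2 - 3, ?_⟩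
    have : 3 ≤ 8 * pell T ^ 2 := by nlinarith
    push_cast [Nat.cast_sub this]
    ring
  have hDn : D + 3 = 8 * pell T ^ 2 := by
    have : ((D + 3 : ℕ) : ℤ) = ((8 * pell T ^ 2 : ℕ) : ℤ) := by
      push_cast
      linarith
    exact_mod_cast this
  have hD8 : D % 8 = 5 := by omega
  have hDo : Odd D := Nat.odd_iff.2 (by omega)
  -- `J(D | pell (T q)) = J(pell T | 3)`
  have hA : J((D : ℤ) | pell (T * q)) = J((pell T : ℤ) | 3) := by
    rw [← J_neg_three hT]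
    rw [jacobiSym.quadratic_reciprocity_one_mod_four' hDo hTq4]
    obtain ⟨l, hl⟩ : ∃ l, q = 2 * l + 1 := ⟨q / 2, by omega⟩
    obtain ⟨W, W', h1, -, h2⟩ := cofactor3 hTo l
    rw [← hl] at h1
    rw [h1, jacobiSym.mul_left]
    have hW : J(W | D) = 1 := by
      have hW1 : (D : ℤ) ∣ W - 1 ∨ (D : ℤ) ∣ W + 1 := by
        rw [hD]
        rcases h2 with ⟨h6, h, _⟩ | ⟨h6, h, _⟩ | ⟨h6, h, _⟩ | ⟨h6, h, _⟩ | ⟨h6, h, _⟩ | ⟨h6, h, _⟩
        · exact Or.inl h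
        · exfalso; omega
        · exact Or.inr h
        · exact Or.inr h
        · exfalso; omega
        · exact Or.inl h
      rcases hW1 with h | h
      · have : J(W | D) = J(1 | D) := by
          apply jacobiSym.mod_left'
          exact (Int.modEq_iff_dvd.2 h).symm
        rw [this, jacobiSym.one_left]
      · have : J(W | D) = J(-1 | D) := by
          apply jacobiSym.mod_left'
          have h' : (D : ℤ) ∣ W - (-1) := by rw [sub_neg_eq_add]; exact h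
          exact (Int.modEq_iff_dvd.2 h').symm
        rw [this, jacobiSym.at_neg_one hDo, ZMod.χ₄_nat_one_mod_four (by omega)]
    rw [hW, mul_one, jacobiSym.quadratic_reciprocity_one_mod_four hT4 hDo]
    apply jacobiSym.mod_left'
    have h' : (pell T : ℤ) ∣ (D : ℤ) - (-3) := ⟨8 * pell T, by rw [hD]; ring⟩
    exact (Int.modEq_iff_dvd.2 h').symm
  have hB : J(8 * (pell (T * q) : ℤ) ^ 2 - 3 | pell (T * q)) = J((pell (T * q) : ℤ) | 3) := by
    rw [← J_neg_three hTq]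
    apply jacobiSym.mod_left'
    have h' : (pell (T * q) : ℤ) ∣ (8 * (pell (T * q) : ℤ) ^ 2 - 3) - (-3) :=
      ⟨8 * pell (T * q), by ring⟩
    exact (Int.modEq_iff_dvd.2 h').symm
  have hC : J(e ^ 2 | pell (T * q)) = J((pell T : ℤ) | 3) * J((pell (T * q) : ℤ) | 3) := by
    rw [← he, jacobiSym.mul_left, ← hD, hA, hB]
  rw [jacobiSym.pow_left] at hC
  have hsq := sq_nonneg (J(e | pell (T * q)))
  rw [hC] at hsq
  have hmul : (T * q) % 8 = (T % 8) * (q % 8) % 8 := Nat.mul_mod _ _ _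
  rcases J_three hT with ⟨h1, h1'⟩ | ⟨h1, h1'⟩ <;> rcases J_three hTq with ⟨h2, h2'⟩ | ⟨h2, h2'⟩
  · rcases hq8 with h | h <;> rcases h1' with h' | h' <;> rw [h, h'] at hmul <;> omega
  · rw [h1, h2] at hsq; norm_num at hsq
  · rw [h1, h2] at hsq; norm_num at hsq
  · rcases hq8 with h | h <;> rcases h1' with h' | h' <;> rw [h, h'] at hmul <;> omega

end Pool.Agent.Helper310_Dom
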