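import Mathlib
import Pool.Agent.Helper310_Dom.ThreeQ

/-!
# No repeated roots for `k + 1 = 3 ^ a * q ^ b`
-/

namespace Pool.Agent.Helper310_Dom

theorem sum_two_prime' (p : ℕ) {r q : ℕ} (hr : r.Prime) (hq : q.Prime) (hrq : r ≠ q) (c j : ℕ) :
    ∑ x ∈ Finset.range (c + 1), ∑ y ∈ Finset.range (j + 1), primVal p (r ^ x * q ^ y) =
      (padicValNat p (pell (r ^ c * q ^ j)) : ℤ) := by
  have hc : Nat.Coprime (r ^ c) (q ^ j) :=
    (((Nat.coprime_primes hr hq).2 hrq).pow_right j).pow_left c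
  rw [← sum_primVal p (n := r ^ c * q ^ j) (mul_pos (pow_pos hr.pos _) (pow_pos hq.pos _)),
    sum_divisors_coprime hc, Nat.sum_divisors_prime_pow hr]
  apply Finset.sum_congr rfl
  intro x _
  rw [Nat.sum_divisors_prime_pow hq]

theorem primVal_r_q (p : ℕ) {r q : ℕ} (hr : r.Prime) (hq : q.Prime) (hrq : r ≠ q) (c j : ℕ) :
    primVal p (r ^ (c + 1) * q ^ (j + 1)) =
      (padicValNat p (pell (r ^ (c + 1) * q ^ (j + 1))) : ℤ)
        - padicValNat p (pell (r ^ c * q ^ (j + 1)))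
        - padicValNat p (pell (r ^ (c + 1) * q ^ j)) + padicValNat p (pell (r ^ c * q ^ j)) := by
  have h1 := sum_two_prime' p hr hq hrq (c + 1) (j + 1)
  have h2 := sum_two_prime' p hr hq hrq c (j + 1)
  have h3 := sum_two_prime' p hr hq hrq (c + 1) j
  have h4 := sum_two_prime' p hr hq hrq c j
  rw [Finset.sum_range_succ] at h1 h3
  rw [Finset.sum_range_succ _ (j + 1)] at h1
  linarith

/-- modulo `q`, multiplying the index by a power of `q` changes divisibility by `q` in nothing -/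
theorem dvd_pell_mul_pow {q : ℕ} (hq : q.Prime) (hq2 : q ≠ 2) (t b : ℕ)
    (hd : q ∣ pell (t * q ^ b)) : q ∣ pell t := by
  have : Fact q.Prime := ⟨hq⟩
  have h2K : (2 : KK q) ≠ 0 := by
    intro h0
    have h1 : q ∣ 2 := (CharP.cast_eq_zero_iff (KK q) q 2).1 (by exact_mod_cast h0)
    exact hq2 ((Nat.prime_dvd_prime_iff_eq hq Nat.prime_two).1 h1)
  obtain ⟨s, hs⟩ := IsAlgClosed.exists_pow_nat_eq (2 : KK q) (n := 2) (by norm_num)
  have hs0 : s ≠ 0 := by
    rintro rfl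
    apply h2K
    rw [← hs]; simp
  have h1 := binet hs (t * q ^ b)
  rw [(CharP.cast_eq_zero_iff (KK q) q _).2 hd, mul_zero, pow_mul, pow_mul, ← sub_pow_char_pow,
    ← binet hs t] at h1
  have h2 : 2 * s * (pell t : KK q) = 0 := by
    by_contra hne
    exact pow_ne_zero _ hne h1.symm
  rcases mul_eq_zero.1 h2 with h | h
  · exact absurd h (mul_ne_zero h2K hs0)
  · exact (CharP.cast_eq_zero_iff (KK q) q _).1 h

theorem three_not_dvd {n : ℕ} (hn : n % 2 = 1) : ¬ 3 ∣ pell n := by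
  have := pell24_odd hn
  omega

/-- the primitive part of the `q ^ (b + 1)`-st Pell number, general form -/
theorem odd_pow_not_gen {q N : ℕ} (hq : q.Prime) (hq8 : q % 8 = 3 ∨ q % 8 = 5) (b : ℕ)
    (hN : ∀ p : ℕ, p.Prime → p ∣ N → ¬ p ∣ pell (q ^ (b + 1)) ∧ ¬ p ∣ pell (q ^ b)) :
    ¬ PrimSquareAway N (q ^ (b + 1)) := by
  intro h
  have hpos : ∀ b, 0 < pell (q ^ b) := fun b => pell_pos (pow_pos hq.pos b)
  have hsq : IsSquare (pell (q ^ (b + 1)) * pell (q ^ b)) := by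
    apply isSquare_of_even (mul_ne_zero (hpos _).ne' (hpos _).ne')
    intro p hp
    have : Fact p.Prime := ⟨hp⟩
    rw [padicValNat.mul (hpos _).ne' (hpos _).ne']
    by_cases hpN : p ∣ N
    · rw [padicValNat.eq_zero_of_not_dvd (hN p hp hpN).1,
        padicValNat.eq_zero_of_not_dvd (hN p hp hpN).2]
      exact ⟨0, rfl⟩
    · have h3 := h p hp hpN
      rw [primVal_prime_pow p hq] at h3
      have h4 : Even (((padicValNat p (pell (q ^ (b + 1))) : ℤ) +
          (padicValNat p (pell (q ^ b)) : ℤ))) := by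
        obtain ⟨c, hc⟩ := h3
        exact ⟨c + padicValNat p (pell (q ^ b)), by linarith⟩
      exact_mod_cast h4
  have h8 := sq_mod_eight hsq
  rw [Nat.mul_mod] at h8
  have e1 : pell 1 % 8 = 1 := by decide
  have e3 : pell 3 % 8 = 5 := by decide
  have e5 : pell 5 % 8 = 5 := by decide
  rcases pow_mod_eight hq8 b with ⟨h1, h2⟩ | ⟨h1, h2⟩
  · rw [pell_of_mod h1, e1] at h8
    rcases hq8 with hq3 | hq5
    · rw [hq3] at h2
      rw [pell_of_mod h2, e3] at h8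
      omega
    · rw [hq5] at h2
      rw [pell_of_mod h2, e5] at h8
      omega
  · rw [pell_of_mod h2, e1] at h8
    rcases hq8 with hq3 | hq5
    · rw [hq3] at h1
      rw [pell_of_mod h1, e3] at h8
      omega
    · rw [hq5] at h1
      rw [pell_of_mod h1, e5] at h8
      omega

/-- the primitive part of the `3 ^ (x + 1) * q ^ (y + 1)`-st Pell number -/
theorem three_q_not {q N : ℕ} (hq : q.Prime) (hq8 : q % 8 = 3 ∨ q % 8 = 5) (hq3 : q ≠ 3)
    (x y : ℕ) (hN : ∀ p : ℕ, p.Prime → p ∣ N →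
      ¬ p ∣ pell (3 ^ (x + 1) * q ^ (y + 1)) ∧ ¬ p ∣ pell (3 ^ (x + 1) * q ^ y)) :
    ¬ PrimSquareAway N (3 ^ (x + 1) * q ^ (y + 1)) := by
  intro h
  have hqodd : q % 2 = 1 := by omega
  have hq3' : q % 3 ≠ 0 := fun h0 => hq3
    (((Nat.prime_dvd_prime_iff_eq Nat.prime_three hq).1 (Nat.dvd_of_mod_eq_zero h0)).symm)
  have hodd : ∀ u v, (3 ^ u * q ^ v) % 2 = 1 := by
    intro u v
    rw [Nat.mul_mod, Nat.pow_mod, Nat.pow_mod q, hqodd]
    norm_num
  set T := 3 ^ x * q ^ y with hT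
  have hT2 : T % 2 = 1 := hodd x y
  have hTo : Odd T := Nat.odd_iff.2 hT2
  have hTq2 : (T * q) % 2 = 1 := by rw [Nat.mul_mod, hT2, hqodd]
  have hTqo : Odd (T * q) := Nat.odd_iff.2 hTq2
  have e1 : 3 ^ (x + 1) * q ^ (y + 1) = (T * q) * 3 := by rw [hT]; ring
  have e2 : 3 ^ x * q ^ (y + 1) = T * q := by rw [hT]; ring
  have e3 : 3 ^ (x + 1) * q ^ y = T * 3 := by rw [hT]; ring
  have hD : ∀ {S : ℕ}, Odd S → ∃ D : ℕ, (D : ℤ) = 8 * (pell S : ℤ) ^ 2 - 3 ∧
      pell (S * 3) = pell S * D ∧ D ≠ 0 := by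
    intro S hS
    have h0 := pell_pos hS.pos
    have h3 : 3 ≤ 8 * pell S ^ 2 := by nlinarith
    have h4 : ((8 * pell S ^ 2 - 3 : ℕ) : ℤ) = 8 * (pell S : ℤ) ^ 2 - 3 := by
      push_cast [Nat.cast_sub h3]
      ring
    refine ⟨8 * pell S ^ 2 - 3, h4, ?_, ?_⟩
    · have := pell_three hS
      rw [← h4] at this
      exact_mod_cast this
    · have : 8 ≤ 8 * pell S ^ 2 := by nlinarith
      omega
  obtain ⟨D, hD1, hD2, hD0⟩ := hD hTo
  obtain ⟨D', hD1', hD2', hD0'⟩ := hD hTqo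
  have hpT := (pell_pos hTo.pos).ne'
  have hpTq := (pell_pos hTqo.pos).ne'
  have hsq : IsSquare (D * D') := by
    apply isSquare_of_even (mul_ne_zero hD0 hD0')
    intro p hp
    have : Fact p.Prime := ⟨hp⟩
    rw [padicValNat.mul hD0 hD0']
    by_cases hpN : p ∣ N
    · have h5 := hN p hp hpN
      rw [e1, e3, hD2, hD2'] at h5
      rw [padicValNat.eq_zero_of_not_dvd (fun hd => h5.2 (hd.mul_left _)),
        padicValNat.eq_zero_of_not_dvd (fun hd => h5.1 (hd.mul_left _))]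
      exact ⟨0, rfl⟩
    · have h3 := h p hp hpN
      rw [primVal_r_q p Nat.prime_three hq hq3.symm, e1, e2, e3, ← hT, hD2, hD2',
        padicValNat.mul hpT hD0, padicValNat.mul hpTq hD0', Nat.cast_add, Nat.cast_add] at h3
      have h4 : Even ((padicValNat p D : ℤ) + (padicValNat p D' : ℤ)) := by
        obtain ⟨c, hc⟩ := h3
        exact ⟨c + padicValNat p D, by linarith⟩
      exact_mod_cast h4
  obtain ⟨e, he⟩ := hsq
  apply not_square_three hT2 hq8 hq3' (e := e)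
  rw [← hD1, ← hD1', pow_two]
  exact_mod_cast he

theorem no_repeated_three_q {k a b q : ℕ} (hq : q.Prime) (hq8 : q % 8 = 3 ∨ q % 8 = 5)
    (hq3 : q ≠ 3) (hd : ∀ x ≤ a, ¬ q ∣ pell (3 ^ x)) (hk : k + 1 = 3 ^ a * q ^ b) :
    ¬ HasRepeatedRoot k := by
  have hq2 : q ≠ 2 := by rintro rfl; omega
  have hqodd : q % 2 = 1 := by omega
  have hodd : ∀ u v, (3 ^ u * q ^ v) % 2 = 1 := by
    intro u v
    rw [Nat.mul_mod, Nat.pow_mod, Nat.pow_mod q, hqodd]
    norm_num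
  have hN : ∀ p : ℕ, p.Prime → p ∣ 2 * (k + 1) → p = 2 ∨ p = 3 ∨ p = q := by
    intro p hp hdv
    rw [hk] at hdv
    rcases (hp.dvd_mul).1 hdv with h | h
    · exact Or.inl ((Nat.prime_dvd_prime_iff_eq hp Nat.prime_two).1 h)
    · rcases (hp.dvd_mul).1 h with h | h
      · exact Or.inr (Or.inl ((Nat.prime_dvd_prime_iff_eq hp Nat.prime_three).1
          (hp.dvd_of_dvd_pow h)))
      · exact Or.inr (Or.inr ((Nat.prime_dvd_prime_iff_eq hp hq).1 (hp.dvd_of_dvd_pow h)))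
  -- no prime dividing `2 (k + 1)` divides these Pell numbers
  have key : ∀ u ≤ a, ∀ w, ∀ p : ℕ, p.Prime → p ∣ 2 * (k + 1) → ¬ p ∣ pell (3 ^ u * q ^ w) := by
    intro u hu w p hp hpN hpd
    rcases hN p hp hpN with rfl | rfl | rfl
    · have := pell_odd (hodd u w)
      omega
    · exact three_not_dvd (hodd u w) hpd
    · exact hd u hu (dvd_pell_mul_pow hq hq2 _ _ hpd)
  apply no_repeated_of
  intro m hm hm3
  rw [hk] at hm
  obtain ⟨m1, m2, h1, h2, rfl⟩ := (Nat.dvd_mul).1 hm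
  obtain ⟨c, hc, rfl⟩ := (Nat.dvd_prime_pow Nat.prime_three).1 h1
  obtain ⟨j, _, rfl⟩ := (Nat.dvd_prime_pow hq).1 h2
  match c, j, hc with
  | 0, 0, _ => norm_num at hm3
  | 0, (j + 1), _ =>
    rw [pow_zero, one_mul]
    apply odd_pow_not_gen hq hq8 j
    intro p hp hpN
    have h3 := key 0 (Nat.zero_le a) (j + 1) p hp hpN
    have h4 := key 0 (Nat.zero_le a) j p hp hpN
    rw [pow_zero, one_mul] at h3 h4
    exact ⟨h3, h4⟩
  | (c + 1), 0, hc =>
    rw [pow_zero, mul_one]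
    apply odd_pow_not_gen Nat.prime_three (by norm_num) c
    intro p hp hpN
    have h3 := key (c + 1) hc 0 p hp hpN
    have h4 := key c (by omega) 0 p hp hpN
    rw [pow_zero, mul_one] at h3 h4
    exact ⟨h3, h4⟩
  | (c + 1), (j + 1), hc =>
    exact three_q_not hq hq8 hq3 c j
      (fun p hp hpN => ⟨key (c + 1) hc (j + 1) p hp hpN, key (c + 1) hc j p hp hpN⟩)

end Pool.Agent.Helper310_Dom
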