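import Mathlib
import Pool.Agent.Helper310_Dom.ThreeFinal

/-!
# Primes `1 (mod 3)` do not divide Pell numbers with index a power of three
-/

namespace Pool.Agent.Helper310_Dom

theorem not_dvd_pell_three_pow {q : ℕ} (hq : q.Prime) (hq8 : q % 8 = 3 ∨ q % 8 = 5)
    (h3 : q % 3 = 1) (x : ℕ) : ¬ q ∣ pell (3 ^ x) := by
  have : Fact q.Prime := ⟨hq⟩
  have hq2 : q ≠ 2 := by rintro rfl; omega
  have h2K : (2 : KK q) ≠ 0 := by
    intro h0
    have h1 : q ∣ 2 := (CharP.cast_eq_zero_iff (KK q) q 2).1 (by exact_mod_cast h0)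
    exact hq2 ((Nat.prime_dvd_prime_iff_eq hq Nat.prime_two).1 h1)
  obtain ⟨s, hs⟩ := IsAlgClosed.exists_pow_nat_eq (2 : KK q) (n := 2) (by norm_num)
  have hs0 : s ≠ 0 := by
    rintro rfl
    apply h2K
    rw [← hs]; simp
  -- Frobenius maps `s` to `-s`
  have hleg : ((2 : ZMod q)) ^ (q / 2) = -1 := by
    have h1 := legendreSym.eq_pow q 2
    have h4 : legendreSym q 2 = -1 := by
      rw [legendreSym.at_two hq2, ZMod.χ₈_nat_eq_if_mod_eight]
      have h5 : q % 2 ≠ 0 := by omega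
      have h6 : ¬ (q % 8 = 1 ∨ q % 8 = 7) := by omega
      simp [h5, h6]
    rw [h4] at h1
    push_cast at h1
    exact h1.symm
  have hleg2 : ((2 : KK q)) ^ (q / 2) = -1 := by
    have h1 := congrArg (algebraMap (ZMod q) (KK q)) hleg
    rw [map_pow, map_neg, map_one, map_ofNat] at h1
    exact h1
  have hsq : s ^ q = -s := by
    have h5 : q = 2 * (q / 2) + 1 := by omega
    have h6 : s ^ q = s ^ (2 * (q / 2) + 1) := congrArg (fun n => s ^ n) h5
    rw [h6, pow_succ, pow_mul, hs, hleg2]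
    ring
  have he : (1 + s) ^ (q + 1) = -1 := by
    rw [pow_succ, add_pow_char, one_pow, hsq]
    linear_combination -hs
  have he' : (1 - s) ^ (q + 1) = -1 := by
    rw [pow_succ, sub_pow_char, one_pow, hsq]
    linear_combination -hs
  intro hd
  have h1 := binet hs (3 ^ x)
  rw [(CharP.cast_eq_zero_iff (KK q) q _).2 hd, mul_zero] at h1
  have he0 : (1 - s) ≠ 0 := by
    intro h0
    rw [h0, zero_pow (by omega)] at he'
    exact one_ne_zero (neg_eq_zero.1 he'.symm)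
  have hr1 : ((1 + s) / (1 - s)) ^ (3 ^ x) = 1 := by
    rw [div_pow, (sub_eq_zero.1 h1.symm), div_self (pow_ne_zero _ he0)]
  have hr2 : ((1 + s) / (1 - s)) ^ (q + 1) = 1 := by
    rw [div_pow, he, he', div_self (neg_ne_zero.2 one_ne_zero)]
  have hcop : Nat.Coprime (3 ^ x) (q + 1) := by
    apply Nat.Coprime.pow_left
    rw [Nat.Prime.coprime_iff_not_dvd Nat.prime_three]
    omega
  have hr : (1 + s) / (1 - s) = 1 := by
    have h6 := pow_gcd_eq_one.2 ⟨hr1, hr2⟩
    rw [hcop.gcd_eq_one, pow_one] at h6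
    exact h6
  rw [div_eq_one_iff_eq he0] at hr
  have h7 : 2 * s = 0 := by linear_combination hr
  exact mul_ne_zero h2K hs0 h7

/-- the family `3 ^ a * q ^ b` -/
theorem no_repeated_three_q' {k a b q : ℕ} (hq : q.Prime) (hq8 : q % 8 = 3 ∨ q % 8 = 5)
    (hq3 : q ≠ 3) (hd : q % 3 = 1 ∨ ∀ x ≤ a, ¬ q ∣ pell (3 ^ x)) (hk : k + 1 = 3 ^ a * q ^ b) :
    ¬ HasRepeatedRoot k := by
  rcases hd with h | h
  · exact no_repeated_three_q hq hq8 hq3 (fun x _ => not_dvd_pell_three_pow hq hq8 h x) hk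
  · exact no_repeated_three_q hq hq8 hq3 h hk

end Pool.Agent.Helper310_Dom
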