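import Mathlib
import Pool.Agent.Helper310_Dom.ThreeQ

/-!
# The powers of seven
-/

namespace Pool.Agent.Helper310_Dom

open Polynomial

/-- The square-class criterion at a given index of the symmetric difference. -/
theorem criterion_at {k : ℕ} {S T : Finset ℕ} (hS : S ⊆ Finset.Icc 1 (k / 2))
    (hT : T ⊆ Finset.Icc 1 (k / 2)) (heq : aS k S ^ 2 = aS k T ^ 2) {i0 : ℕ}
    (hi0 : i0 ∈ Finset.Icc 1 (k / 2)) (hST : ¬ (i0 ∈ S ↔ i0 ∈ T)) :
    ∃ j ∈ Finset.Icc 1 (k / 2), j ≠ i0 ∧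
      ∃ g ∈ IntermediateField.adjoin ℚ {Real.cos (Real.pi / (k + 1))},
        g ^ 2 = (1 + Real.cos (i0 * Real.pi / (k + 1)) ^ 2) *
          (1 + Real.cos (j * Real.pi / (k + 1)) ^ 2) := by
  classical
  set F := IntermediateField.adjoin ℚ {Real.cos (Real.pi / (k + 1))} with hF
  let ι := {j : ℕ // j ∈ Finset.Icc 1 (k / 2)}
  letI : Fintype ι := inferInstanceAs (Fintype {j : ℕ // j ∈ Finset.Icc 1 (k / 2)})
  have hle : ∀ j : ι, (j : ℕ) ≤ k / 2 := fun j => (Finset.mem_Icc.1 j.2).2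
  let d : ι → ℝ := fun j => cc k j ^ 2
  have hd : ∀ j, 1 < d j := fun j => by
    have := one_lt_cc (hle j)
    simp only [d]
    nlinarith
  let t : ι → F := fun j => ⟨2 + 4 * Real.cos (th k j) ^ 2,
    add_mem (ofNat_mem _ 2) (mul_mem (ofNat_mem _ 4) (pow_mem (cos_mem k j) 2))⟩
  have ht : ∀ j, d j + (d j)⁻¹ = algebraMap F ℝ (t j) := by
    intro j
    have h1 := cc_sub_inv (hle j)
    have h0 : cc k j ≠ 0 := ne_of_gt (by linarith [one_lt_cc (hle j)])
    have h2 : algebraMap F ℝ (t j) = 2 + 4 * Real.cos (th k j) ^ 2 := rfl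
    rw [h2]
    have h3 : cc k j * (cc k j)⁻¹ = 1 := mul_inv_cancel₀ h0
    simp only [d]
    linear_combination (cc k j - (cc k j)⁻¹ + 2 * Real.cos (th k j)) * h1 + 2 * h3
  let e : ι → ℤ := fun j =>
    (if (j : ℕ) ∈ S then (1 : ℤ) else -1) - (if (j : ℕ) ∈ T then (1 : ℤ) else -1)
  have he : ∏ j, d j ^ e j = 1 := by
    have h1 : ∀ j, d j ^ e j = d j ^ (if (j : ℕ) ∈ S then (1 : ℤ) else -1) /
        d j ^ (if (j : ℕ) ∈ T then (1 : ℤ) else -1) := fun j =>
      zpow_sub₀ (ne_of_gt (by linarith [hd j])) _ _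
    rw [Finset.prod_congr rfl (fun j _ => h1 j), Finset.prod_div_distrib]
    have h2 : ∀ U : Finset ℕ, U ⊆ Finset.Icc 1 (k / 2) →
        ∏ j : ι, d j ^ (if (j : ℕ) ∈ U then (1 : ℤ) else -1) = aS k U ^ 2 := by
      intro U hU
      rw [aS_sq hU]
      exact Finset.prod_coe_sort (Finset.Icc 1 (k / 2))
        (fun j => (cc k j ^ 2) ^ (if j ∈ U then (1 : ℤ) else -1))
    rw [h2 S hS, h2 T hT, heq, div_self]
    exact pow_ne_zero _ (aS_ne_zero hT)
  let i : ι := ⟨i0, hi0⟩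
  have hi : e i ≠ 0 := by
    simp only [e, i]
    by_cases h1 : i0 ∈ S <;> by_cases h2 : i0 ∈ T
    · exact absurd (iff_of_true h1 h2) hST
    · simp [h1, h2]
    · simp [h1, h2]
    · exact absurd (iff_of_false h1 h2) hST
  have hkey : ∃ j, j ≠ i ∧ (d i - (d i)⁻¹) * (d j - (d j)⁻¹) ∈ Set.range (algebraMap F ℝ) := by
    by_contra hc
    push Not at hc
    exact hi (exponent_eq_zero d hd t ht e he i hc)
  obtain ⟨j, hji, g, hg⟩ := hkey
  have hδ : ∀ j : ι, d j - (d j)⁻¹ =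
      4 * Real.cos (th k j) * √(1 + Real.cos (th k j) ^ 2) := by
    intro j
    have h1 := cc_sub_inv (hle j)
    have h2 := cc_add_inv (hle j)
    simp only [d]
    linear_combination (cc k j + (cc k j)⁻¹) * h1 + 2 * Real.cos (th k j) * h2
  have hci := cos_pos_of (hle i)
  have hcj := cos_pos_of (hle j)
  refine ⟨j, j.2, fun h => hji (Subtype.ext h),
    (g : ℝ) / (16 * Real.cos (th k i) * Real.cos (th k j)), ?_, ?_⟩
  · exact div_mem g.2 (mul_mem (mul_mem (ofNat_mem _ 16) (cos_mem k i)) (cos_mem k j))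
  · have h1 : (g : ℝ) = (4 * Real.cos (th k i) * √(1 + Real.cos (th k i) ^ 2)) *
        (4 * Real.cos (th k j) * √(1 + Real.cos (th k j) ^ 2)) := by
      rw [← hδ, ← hδ]
      exact hg
    have h2 : (g : ℝ) / (16 * Real.cos (th k i) * Real.cos (th k j)) =
        √(1 + Real.cos (th k i) ^ 2) * √(1 + Real.cos (th k j) ^ 2) := by
      rw [h1]
      field_simp
      ring
    have h3 : (√(1 + Real.cos (th k i) ^ 2) * √(1 + Real.cos (th k j) ^ 2)) ^ 2 =
        (1 + Real.cos (th k i) ^ 2) * (1 + Real.cos (th k j) ^ 2) := by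
      rw [mul_pow, Real.sq_sqrt (by positivity), Real.sq_sqrt (by positivity)]
    rw [h2, h3]
    rfl

/-- All indices of the symmetric difference are bad. -/
theorem bad_of_mem {k : ℕ} {S T : Finset ℕ} (hS : S ⊆ Finset.Icc 1 (k / 2))
    (hT : T ⊆ Finset.Icc 1 (k / 2)) (heq : aS k S ^ 2 = aS k T ^ 2) {i : ℕ}
    (hi : i ∈ Finset.Icc 1 (k / 2)) (hST : ¬ (i ∈ S ↔ i ∈ T)) :
    PrimSquareAway (2 * (k + 1)) ((k + 1) / Nat.gcd i (k + 1)) := by
  obtain ⟨j, hj, hji, g, hg, hgg⟩ := criterion_at hS hT heq hi hST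
  rw [Finset.mem_Icc] at hi hj
  exact primSquareAway_of_square hi.1 hj.1 hji.symm hi.2 hj.2 hg hgg

/-- the cofactor `pell (7 T) / pell T` modulo `pell T` -/
theorem pell_seven {T : ℕ} (hT : Odd T) :
    ∃ W a : ℤ, (pell (T * 7) : ℤ) = pell T * W ∧ W = pell T * a - 7 := by
  have h3 := pell_three hT
  have h5 := pell_rec hT 0
  have h7 := pell_rec hT 1
  norm_num at h5 h7
  set u := (pell T : ℤ) with hu
  rw [h3] at h5 h7
  rw [h5] at h7
  refine ⟨(8 * u ^ 2 - 2) * ((8 * u ^ 2 - 2) * (8 * u ^ 2 - 3) - 1) - (8 * u ^ 2 - 3),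
    512 * u ^ 5 - 448 * u ^ 3 + 112 * u, ?_, ?_⟩
  · rw [h7]; ring
  · ring

theorem thirteen_dvd (j : ℕ) : 13 ∣ pell (7 ^ (j + 1)) := by
  induction j with
  | zero => decide
  | succ j ih =>
    have hT : Odd (7 ^ (j + 1)) := by
      apply Odd.pow
      decide
    obtain ⟨W, a, h1, _⟩ := pell_seven hT
    rw [← pow_succ] at h1
    have h2 : (13 : ℤ) ∣ pell (7 ^ (j + 1)) := by exact_mod_cast ih
    have h3 : (13 : ℤ) ∣ pell (7 ^ (j + 1 + 1)) := by
      rw [h1]
      exact h2.mul_right W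
    exact_mod_cast h3

theorem seven_not {N : ℕ} (j : ℕ) (hN : ∀ p : ℕ, p.Prime → p ∣ N → p = 2 ∨ p = 7) :
    ¬ PrimSquareAway N (7 ^ (j + 2)) := by
  intro h
  have hpos : ∀ b, 0 < pell (7 ^ b) := fun b => pell_pos (by positivity)
  have h7 : Nat.Prime 7 := by norm_num
  have hpo : ∀ b, (7 ^ b) % 2 = 1 := fun b => by
    rw [Nat.pow_mod]
    norm_num
  have hsq : IsSquare (pell (7 ^ (j + 1 + 1)) * pell (7 ^ (j + 1))) := by
    apply isSquare_of_even (mul_ne_zero (hpos _).ne' (hpos _).ne')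
    intro p hp
    have : Fact p.Prime := ⟨hp⟩
    rw [padicValNat.mul (hpos _).ne' (hpos _).ne']
    by_cases hpN : p ∣ N
    · rcases hN p hp hpN with rfl | rfl
      · rw [padicValNat.eq_zero_of_not_dvd, padicValNat.eq_zero_of_not_dvd]
        · exact ⟨0, rfl⟩
        · intro hd
          have := pell_odd (hpo (j + 1))
          omega
        · intro hd
          have := pell_odd (hpo (j + 1 + 1))
          omega
      · rw [padicValNat.eq_zero_of_not_dvd (not_dvd_pell h7 (by norm_num) (j + 1)).1,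
          padicValNat.eq_zero_of_not_dvd (not_dvd_pell h7 (by norm_num) (j + 1 + 1)).1]
        exact ⟨0, rfl⟩
    · have h3 := h p hp hpN
      rw [show j + 2 = (j + 1) + 1 by ring, primVal_prime_pow p h7] at h3
      have h4 : Even (((padicValNat p (pell (7 ^ (j + 1 + 1))) : ℤ) +
          (padicValNat p (pell (7 ^ (j + 1))) : ℤ))) := by
        obtain ⟨c, hc⟩ := h3
        exact ⟨c + padicValNat p (pell (7 ^ (j + 1))), by linarith⟩
      exact_mod_cast h4
  have hT : Odd (7 ^ (j + 1)) := Nat.odd_iff.2 (hpo _)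
  obtain ⟨W, a, h1, h2⟩ := pell_seven hT
  rw [← pow_succ] at h1
  obtain ⟨e, he⟩ := hsq
  have hu0 : (pell (7 ^ (j + 1)) : ℤ) ≠ 0 := by exact_mod_cast (hpos _).ne'
  have h6 : (e : ℤ) ^ 2 = (pell (7 ^ (j + 1)) : ℤ) ^ 2 * W := by
    have : ((pell (7 ^ (j + 1 + 1)) * pell (7 ^ (j + 1)) : ℕ) : ℤ) = ((e * e : ℕ) : ℤ) := by
      rw [he]
    push_cast at this
    rw [h1] at this
    linarith
  have h8 : (pell (7 ^ (j + 1)) : ℤ) ∣ e := by
    rw [← Int.pow_dvd_pow_iff two_ne_zero, h6]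
    exact dvd_mul_right _ _
  obtain ⟨w, hw⟩ := h8
  have h9 : W = w ^ 2 := by
    rw [hw, mul_pow] at h6
    exact (mul_left_cancel₀ (pow_ne_zero 2 hu0) h6).symm
  obtain ⟨b, hb⟩ := thirteen_dvd j
  have hb' : (pell (7 ^ (j + 1)) : ℤ) = 13 * b := by exact_mod_cast hb
  rw [h9, hb'] at h2
  -- `w ^ 2 ≡ -7 (mod 13)`
  have h10 : w ^ 2 % 13 = 6 := by
    rw [h2]
    have : (13 * (b : ℤ) * a - 7) = -7 + 13 * ((b : ℤ) * a) := by ring
    rw [this, Int.add_mul_emod_self_left]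
    norm_num
  have h11 : w % 13 = 0 ∨ w % 13 = 1 ∨ w % 13 = 2 ∨ w % 13 = 3 ∨ w % 13 = 4 ∨ w % 13 = 5 ∨
      w % 13 = 6 ∨ w % 13 = 7 ∨ w % 13 = 8 ∨ w % 13 = 9 ∨ w % 13 = 10 ∨ w % 13 = 11 ∨
      w % 13 = 12 := by omega
  rw [pow_two, Int.mul_emod] at h10
  rcases h11 with h | h | h | h | h | h | h | h | h | h | h | h | h <;> rw [h] at h10 <;>
    norm_num at h10

/-! ### Even `k` -/

theorem exists_eq_of_even {k : ℕ} (hk : Even k) (h : HasRepeatedRoot k) :
    ∃ S ⊆ Finset.Icc 1 (k / 2), ∃ T ⊆ Finset.Icc 1 (k / 2), S ≠ T ∧ aS k S = aS k T := by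
  by_contra hc
  push Not at hc
  obtain ⟨z, hz⟩ := h
  have hsep : (Q k).Separable := by
    unfold Q
    rw [if_pos hk]
    apply Polynomial.separable_prod'
    · intro S hS T hT hST
      apply coprime_aux
      intro he
      apply hc S (Finset.mem_powerset.1 hS) T (Finset.mem_powerset.1 hT) hST
      exact_mod_cast he
    · intro S hS
      have h0 : ((aS k S : ℝ) : ℂ) ≠ 0 := by
        exact_mod_cast aS_ne_zero (Finset.mem_powerset.1 hS)
      refine ⟨1, C (-(((aS k S : ℝ) : ℂ)⁻¹)) * (C ((aS k S : ℝ) : ℂ) * X), ?_⟩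
      simp only [derivative_sub, derivative_one, derivative_C_mul, derivative_X]
      have h1 : (C (-(((aS k S : ℝ) : ℂ)⁻¹)) : ℂ[X]) * C ((aS k S : ℝ) : ℂ) = -1 := by
        rw [← C_mul, neg_mul, inv_mul_cancel₀ h0, C_neg, C_1]
      linear_combination (-(C ((aS k S : ℝ) : ℂ)) * X) * h1
  have := Polynomial.rootMultiplicity_le_one_of_separable hsep z
  omega

theorem aS_sign {k : ℕ} (S : Finset ℕ) :
    aS k S = (-1) ^ (Finset.Icc 1 (k / 2) \ S).card *
      ((∏ j ∈ S, cc k j) * ∏ j ∈ Finset.Icc 1 (k / 2) \ S, (cc k j)⁻¹) := by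
  unfold aS
  have h : ∏ j ∈ Finset.Icc 1 (k / 2) \ S, cb k j =
      (-1) ^ (Finset.Icc 1 (k / 2) \ S).card * ∏ j ∈ Finset.Icc 1 (k / 2) \ S, (cc k j)⁻¹ := by
    rw [← Finset.prod_const, ← Finset.prod_mul_distrib]
    apply Finset.prod_congr rfl
    intro j hj
    rw [Finset.mem_sdiff, Finset.mem_Icc] at hj
    rw [cb_eq hj.1.2]
    ring
  rw [h]
  ring

theorem pos_part {k : ℕ} {S : Finset ℕ} (hS : S ⊆ Finset.Icc 1 (k / 2)) :
    0 < (∏ j ∈ S, cc k j) * ∏ j ∈ Finset.Icc 1 (k / 2) \ S, (cc k j)⁻¹ := by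
  apply mul_pos
  · apply Finset.prod_pos
    intro j hj
    have := one_lt_cc (Finset.mem_Icc.1 (hS hj)).2
    linarith
  · apply Finset.prod_pos
    intro j hj
    have := one_lt_cc (Finset.mem_Icc.1 (Finset.mem_sdiff.1 hj).1).2
    exact inv_pos.2 (by linarith)

/-- Equality of `a_S` and `a_T` forces equal parities and equal products. -/
theorem parity_and_prod {k : ℕ} {S T : Finset ℕ} (hS : S ⊆ Finset.Icc 1 (k / 2))
    (hT : T ⊆ Finset.Icc 1 (k / 2)) (h : aS k S = aS k T) :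
    S.card % 2 = T.card % 2 ∧ ∏ j ∈ S \ T, cc k j = ∏ j ∈ T \ S, cc k j := by
  have hcS := Finset.card_sdiff_add_card_eq_card hS
  have hcT := Finset.card_sdiff_add_card_eq_card hT
  have h1 := pos_part hS
  have h2 := pos_part hT
  have h3 := h
  rw [aS_sign, aS_sign] at h3
  have hpar : (Finset.Icc 1 (k / 2) \ S).card % 2 = (Finset.Icc 1 (k / 2) \ T).card % 2 := by
    rcases Nat.even_or_odd (Finset.Icc 1 (k / 2) \ S).card with e1 | e1 <;>
      rcases Nat.even_or_odd (Finset.Icc 1 (k / 2) \ T).card with e2 | e2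
    · rw [Nat.even_iff.1 e1, Nat.even_iff.1 e2]
    · rw [e1.neg_one_pow, e2.neg_one_pow] at h3
      linarith
    · rw [e1.neg_one_pow, e2.neg_one_pow] at h3
      linarith
    · rw [Nat.odd_iff.1 e1, Nat.odd_iff.1 e2]
  have hP : ∀ U ⊆ Finset.Icc 1 (k / 2), aS k U ^ 2 * (∏ j ∈ Finset.Icc 1 (k / 2), cc k j) ^ 2 =
      ((∏ j ∈ U, cc k j) ^ 2) ^ 2 := by
    intro U hU
    rw [aS_sign, ← Finset.prod_sdiff hU, Finset.prod_inv_distrib]
    have h0 : ∏ j ∈ Finset.Icc 1 (k / 2) \ U, cc k j ≠ 0 := by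
      rw [Finset.prod_ne_zero_iff]
      intro j hj
      exact ne_of_gt (by linarith [one_lt_cc (Finset.mem_Icc.1 (Finset.mem_sdiff.1 hj).1).2])
    have hs : (((-1 : ℝ)) ^ (Finset.Icc 1 (k / 2) \ U).card) ^ 2 = 1 := by
      rw [← pow_mul, mul_comm, pow_mul]; norm_num
    rw [mul_pow, hs]
    field_simp
  have hposU : ∀ U ⊆ Finset.Icc 1 (k / 2), 0 < ∏ j ∈ U, cc k j := by
    intro U hU
    apply Finset.prod_pos
    intro j hj
    have := one_lt_cc (Finset.mem_Icc.1 (hU hj)).2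
    linarith
  have hprod : ∏ j ∈ S, cc k j = ∏ j ∈ T, cc k j := by
    have e1 := hP S hS
    have e2 := hP T hT
    rw [h, e2] at e1
    have p1 := hposU S hS
    have p2 := hposU T hT
    have e3 : (∏ j ∈ T, cc k j) ^ 2 = (∏ j ∈ S, cc k j) ^ 2 :=
      (pow_left_inj₀ (by positivity) (by positivity) two_ne_zero).1 e1
    exact ((pow_left_inj₀ p2.le p1.le two_ne_zero).1 e3).symm
  constructor
  · omega
  · have e1 : ∏ j ∈ S, cc k j = (∏ j ∈ S \ T, cc k j) * ∏ j ∈ S ∩ T, cc k j := by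
      rw [← Finset.prod_union (Finset.disjoint_sdiff_inter S T), Finset.sdiff_union_inter]
    have e2 : ∏ j ∈ T, cc k j = (∏ j ∈ T \ S, cc k j) * ∏ j ∈ S ∩ T, cc k j := by
      rw [Finset.inter_comm, ← Finset.prod_union (Finset.disjoint_sdiff_inter T S),
        Finset.sdiff_union_inter]
    rw [e1, e2] at hprod
    exact mul_right_cancel₀ (hposU _ (Finset.inter_subset_left.trans hS)).ne' hprod

theorem cc_inj {k i j : ℕ} (hi : i ≤ k / 2) (hj : j ≤ k / 2) (h : cc k i = cc k j) : i = j := by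
  have h1 := cc_sub_inv hi
  have h2 := cc_sub_inv hj
  rw [h, h2] at h1
  have h3 : Real.cos (th k j) = Real.cos (th k i) := by linarith
  have hk : (0 : ℝ) < k + 1 := by positivity
  have hmem : ∀ l : ℕ, l ≤ k / 2 → th k l ∈ Set.Icc 0 Real.pi := by
    intro l hl
    have h4 : (l : ℝ) ≤ k + 1 := by
      have : l ≤ k + 1 := by omega
      exact_mod_cast this
    constructor
    · unfold th; positivity
    · unfold th
      rw [div_le_iff₀ hk, mul_comm]
      exact mul_le_mul_of_nonneg_left h4 Real.pi_pos.le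
  have h5 := Real.injOn_cos (hmem j hj) (hmem i hi) h3
  unfold th at h5
  rw [div_left_inj' hk.ne', mul_left_inj' Real.pi_pos.ne'] at h5
  exact_mod_cast h5.symm

theorem no_repeated_seven {k b : ℕ} (hk : k + 1 = 7 ^ b) : ¬ HasRepeatedRoot k := by
  intro h
  have hodd : (7 ^ b) % 2 = 1 := by
    rw [Nat.pow_mod]
    norm_num
  have hke : Even k := Nat.even_iff.2 (by omega)
  obtain ⟨S, hS, T, hT, hST, heq⟩ := exists_eq_of_even hke h
  obtain ⟨hpar, hprod⟩ := parity_and_prod hS hT heq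
  have hN : ∀ p : ℕ, p.Prime → p ∣ 2 * (k + 1) → p = 2 ∨ p = 7 := by
    intro p hp hd
    rw [hk] at hd
    rcases (hp.dvd_mul).1 hd with h | h
    · exact Or.inl ((Nat.prime_dvd_prime_iff_eq hp Nat.prime_two).1 h)
    · exact Or.inr ((Nat.prime_dvd_prime_iff_eq hp (by norm_num)).1 (hp.dvd_of_dvd_pow h))
  have hbad : ∀ i, ¬ (i ∈ S ↔ i ∈ T) → i ∈ Finset.Icc 1 (k / 2) ∧
      i ∈ ({7 ^ (b - 1), 2 * 7 ^ (b - 1), 3 * 7 ^ (b - 1)} : Finset ℕ) := by
    intro i hi
    have hiI : i ∈ Finset.Icc 1 (k / 2) := by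
      by_cases h1 : i ∈ S
      · exact hS h1
      · by_cases h2 : i ∈ T
        · exact hT h2
        · exact absurd (iff_of_false h1 h2) hi
    refine ⟨hiI, ?_⟩
    have h1 := bad_of_mem hS hT (by rw [heq]) hiI hi
    rw [Finset.mem_Icc] at hiI
    have h3 := three_le_of hiI.1 hiI.2
    have hg0 : 0 < Nat.gcd i (k + 1) := Nat.gcd_pos_of_pos_right i (Nat.succ_pos k)
    have hdvd : (k + 1) / Nat.gcd i (k + 1) ∣ 7 ^ b := by
      rw [← hk]
      exact Nat.div_dvd_of_dvd (Nat.gcd_dvd_right i _)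
    obtain ⟨c, hc, hcm⟩ := (Nat.dvd_prime_pow (by norm_num : Nat.Prime 7)).1 hdvd
    rw [hcm] at h1 h3
    have hc1 : c = 1 := by
      match c, h1, h3 with
      | 0, _, h3 => norm_num at h3
      | 1, _, _ => rfl
      | (c + 2), h1, _ => exact absurd h1 (seven_not c hN)
    subst hc1
    rw [pow_one] at hcm
    have hg : k + 1 = Nat.gcd i (k + 1) * 7 := by
      rw [← hcm]
      exact (Nat.mul_div_cancel' (Nat.gcd_dvd_right i (k + 1))).symm
    obtain ⟨b', rfl⟩ : ∃ b', b = b' + 1 := ⟨b - 1, by omega⟩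
    have hg2 : Nat.gcd i (k + 1) = 7 ^ b' := by
      rw [hk, pow_succ] at hg
      rw [hk]
      exact (Nat.eq_of_mul_eq_mul_right (by norm_num) hg).symm
    obtain ⟨t, ht⟩ := Nat.gcd_dvd_left i (k + 1)
    rw [hg2] at ht
    have hpw : 0 < 7 ^ b' := by positivity
    have hk2 : k + 1 = 7 ^ b' * 7 := by rw [hk, pow_succ]
    have ht4 : t < 4 := by
      by_contra hc4
      have : 7 ^ b' * 4 ≤ 7 ^ b' * t := Nat.mul_le_mul_left _ (by omega)
      omega
    have ht0 : t ≠ 0 := by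
      rintro rfl
      omega
    simp only [Nat.add_sub_cancel, Finset.mem_insert, Finset.mem_singleton]
    interval_cases t
    · exact absurd rfl ht0
    · left; omega
    · right; left; omega
    · right; right; omega
  -- the two differences
  set A := S \ T with hA
  set B := T \ S with hB
  have hAB : Disjoint A B := by
    rw [Finset.disjoint_left]
    intro x hx hx'
    exact (Finset.mem_sdiff.1 hx).2 (Finset.mem_sdiff.1 hx').1
  have hAbad : ∀ i ∈ A, i ∈ Finset.Icc 1 (k / 2) ∧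
      i ∈ ({7 ^ (b - 1), 2 * 7 ^ (b - 1), 3 * 7 ^ (b - 1)} : Finset ℕ) := by
    intro i hi
    rw [hA, Finset.mem_sdiff] at hi
    exact hbad i (fun h => hi.2 (h.1 hi.1))
  have hBbad : ∀ i ∈ B, i ∈ Finset.Icc 1 (k / 2) ∧
      i ∈ ({7 ^ (b - 1), 2 * 7 ^ (b - 1), 3 * 7 ^ (b - 1)} : Finset ℕ) := by
    intro i hi
    rw [hB, Finset.mem_sdiff] at hi
    exact hbad i (fun h => hi.2 (h.2 hi.1))
  have hcard : A.card + B.card ≤ 3 := by
    rw [← Finset.card_union_of_disjoint hAB]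
    refine (Finset.card_le_card ?_).trans (Finset.card_le_three
      (a := 7 ^ (b - 1)) (b := 2 * 7 ^ (b - 1)) (c := 3 * 7 ^ (b - 1)))
    intro i hi
    rcases Finset.mem_union.1 hi with h | h
    · exact (hAbad i h).2
    · exact (hBbad i h).2
  have hcS : A.card + (S ∩ T).card = S.card := Finset.card_sdiff_add_card_inter S T
  have hcT : B.card + (S ∩ T).card = T.card := by
    rw [Finset.inter_comm]
    exact Finset.card_sdiff_add_card_inter T S
  have hne : ¬ (A.card = 0 ∧ B.card = 0) := by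
    rintro ⟨h1, h2⟩
    apply hST
    rw [Finset.card_eq_zero, hA, Finset.sdiff_eq_empty_iff_subset] at h1
    rw [Finset.card_eq_zero, hB, Finset.sdiff_eq_empty_iff_subset] at h2
    exact Finset.Subset.antisymm h1 h2
  have hgt : ∀ U : Finset ℕ, U ⊆ Finset.Icc 1 (k / 2) → U.Nonempty → 1 < ∏ j ∈ U, cc k j := by
    intro U hU hUn
    obtain ⟨x, hx⟩ := hUn
    rw [← Finset.mul_prod_erase U _ hx]
    have h1 : ∏ j ∈ U.erase x, (1 : ℝ) ≤ ∏ j ∈ U.erase x, cc k j :=
      Finset.prod_le_prod (fun _ _ => zero_le_one)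
        (fun j hj => (one_lt_cc (Finset.mem_Icc.1 (hU (Finset.mem_of_mem_erase hj))).2).le)
    rw [Finset.prod_const_one] at h1
    have h2 := one_lt_cc (Finset.mem_Icc.1 (hU hx)).2
    nlinarith
  have hcases : (A.card = 2 ∧ B.card = 0) ∨ (A.card = 1 ∧ B.card = 1) ∨
      (A.card = 0 ∧ B.card = 2) := by omega
  rcases hcases with ⟨h1, h2⟩ | ⟨h1, h2⟩ | ⟨h1, h2⟩
  · have h3 := hgt A (fun i hi => (hAbad i hi).1) (Finset.card_pos.1 (by omega))
    rw [Finset.card_eq_zero] at h2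
    rw [hprod, h2, Finset.prod_empty] at h3
    exact lt_irrefl _ h3
  · obtain ⟨x, hx⟩ := Finset.card_eq_one.1 h1
    obtain ⟨y, hy⟩ := Finset.card_eq_one.1 h2
    rw [hx, hy, Finset.prod_singleton, Finset.prod_singleton] at hprod
    have hxA : x ∈ A := by rw [hx]; simp
    have hyB : y ∈ B := by rw [hy]; simp
    have hxy := cc_inj (Finset.mem_Icc.1 (hAbad x hxA).1).2
      (Finset.mem_Icc.1 (hBbad y hyB).1).2 hprod
    exact (Finset.disjoint_left.1 hAB) hxA (hxy ▸ hyB)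
  · have h3 := hgt B (fun i hi => (hBbad i hi).1) (Finset.card_pos.1 (by omega))
    rw [Finset.card_eq_zero] at h1
    rw [← hprod, h1, Finset.prod_empty] at h3
    exact lt_irrefl _ h3

end Pool.Agent.Helper310_Dom
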