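import Mathlib
import Pool.Agent.Helper310_Dom.Rank

/-!
# The numbers `2 * 3 ^ a * q ^ b`
-/

namespace Pool.Agent.Helper310_Dom

open scoped NumberTheorySymbols

theorem hp_three {T : ℕ} (hT : Odd T) :
    (halfPell (T * 3) : ℤ) = halfPell T * (4 * (halfPell T : ℤ) ^ 2 + 3) := by
  have hs : (√2 : ℝ) ^ 2 = 2 := Real.sq_sqrt (by norm_num)
  have h0 := hp_binet hs T
  have h1 := hp_binet hs (T * 3)
  set x := (1 + √2 : ℝ) ^ T with hx
  set y := (1 - √2 : ℝ) ^ T with hy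
  have hxy : x * y = -1 := by
    rw [hx, hy, ← mul_pow]
    have : (1 + √2 : ℝ) * (1 - √2) = -1 := by linear_combination -hs
    rw [this, hT.neg_one_pow]
  rw [pow_mul, pow_mul, ← hx, ← hy] at h1
  have hu : 4 * (halfPell T : ℝ) ^ 2 = (x + y) ^ 2 := by rw [← h0]; ring
  have h5 : (2 : ℝ) * (halfPell (T * 3) : ℝ) = 2 * (halfPell T * (4 * (halfPell T : ℝ) ^ 2 + 3)) := by
    rw [h1, hu, ← mul_assoc, h0]
    linear_combination (-3 * (x + y)) * hxy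
  have h7 := mul_left_cancel₀ (two_ne_zero) h5
  exact_mod_cast h7

theorem hp_rec {T : ℕ} (hT : Odd T) (l : ℕ) : (halfPell (T * (2 * (l + 2) + 1)) : ℤ) =
    (4 * (halfPell T : ℤ) ^ 2 + 2) * halfPell (T * (2 * (l + 1) + 1))
      - halfPell (T * (2 * l + 1)) := by
  have hs : (√2 : ℝ) ^ 2 = 2 := Real.sq_sqrt (by norm_num)
  have h0 := hp_binet hs T
  have h1 := hp_binet hs (T * (2 * (l + 2) + 1))
  have h2 := hp_binet hs (T * (2 * (l + 1) + 1))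
  have h3 := hp_binet hs (T * (2 * l + 1))
  set x := (1 + √2 : ℝ) ^ T with hx
  set y := (1 - √2 : ℝ) ^ T with hy
  have hxy : x * y = -1 := by
    rw [hx, hy, ← mul_pow]
    have : (1 + √2 : ℝ) * (1 - √2) = -1 := by linear_combination -hs
    rw [this, hT.neg_one_pow]
  rw [pow_mul, pow_mul, ← hx, ← hy] at h1 h2 h3
  have e1 : x ^ (2 * (l + 2) + 1) = x ^ 4 * x ^ (2 * l + 1) := by rw [← pow_add]; congr 1; ring
  have e2 : y ^ (2 * (l + 2) + 1) = y ^ 4 * y ^ (2 * l + 1) := by rw [← pow_add]; congr 1; ring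
  have e3 : x ^ (2 * (l + 1) + 1) = x ^ 2 * x ^ (2 * l + 1) := by rw [← pow_add]; congr 1; ring
  have e4 : y ^ (2 * (l + 1) + 1) = y ^ 2 * y ^ (2 * l + 1) := by rw [← pow_add]; congr 1; ring
  rw [e1, e2] at h1
  rw [e3, e4] at h2
  have hu : 4 * (halfPell T : ℝ) ^ 2 = (x + y) ^ 2 := by rw [← h0]; ring
  have h5 : (2 : ℝ) * (halfPell (T * (2 * (l + 2) + 1)) : ℝ) = 2 *
      ((4 * (halfPell T : ℝ) ^ 2 + 2) * halfPell (T * (2 * (l + 1) + 1)) -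
        halfPell (T * (2 * l + 1))) := by
    rw [h1]
    have h6 : (2 : ℝ) * ((4 * (halfPell T : ℝ) ^ 2 + 2) * halfPell (T * (2 * (l + 1) + 1)) -
        halfPell (T * (2 * l + 1))) =
        ((x + y) ^ 2 + 2) * (2 * (halfPell (T * (2 * (l + 1) + 1)) : ℝ)) -
          2 * (halfPell (T * (2 * l + 1)) : ℝ) := by rw [hu]; ring
    rw [h6, h2, h3]
    have hA : x ^ 2 * y ^ 2 = 1 := by rw [← mul_pow, hxy]; norm_num
    linear_combination (-(x ^ (2 * l + 1) + y ^ (2 * l + 1))) * hA -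
      2 * (x ^ 2 * x ^ (2 * l + 1) + y ^ 2 * y ^ (2 * l + 1)) * hxy
  have h7 := mul_left_cancel₀ (two_ne_zero) h5
  exact_mod_cast h7

theorem hp_cofactor3 {T : ℕ} (hT : Odd T) : ∀ l : ℕ,
    ∃ W W' : ℤ, (halfPell (T * (2 * l + 1)) : ℤ) = halfPell T * W ∧
      (halfPell (T * (2 * (l + 1) + 1)) : ℤ) = halfPell T * W' ∧
      ((l % 3 = 0 ∧ (4 * (halfPell T : ℤ) ^ 2 + 3) ∣ W - 1 ∧
          (4 * (halfPell T : ℤ) ^ 2 + 3) ∣ W') ∨
       (l % 3 = 1 ∧ (4 * (halfPell T : ℤ) ^ 2 + 3) ∣ W ∧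
          (4 * (halfPell T : ℤ) ^ 2 + 3) ∣ W' + 1) ∨
       (l % 3 = 2 ∧ (4 * (halfPell T : ℤ) ^ 2 + 3) ∣ W + 1 ∧
          (4 * (halfPell T : ℤ) ^ 2 + 3) ∣ W' - 1)) := by
  intro l
  induction l with
  | zero =>
    refine ⟨1, 4 * (halfPell T : ℤ) ^ 2 + 3, by simp, hp_three hT, Or.inl ⟨rfl, ?_, dvd_refl _⟩⟩
    simp
  | succ l ih =>
    obtain ⟨W, W', h1, h2, h⟩ := ih
    set D := (4 * (halfPell T : ℤ) ^ 2 + 3) with hD
    refine ⟨W', (4 * (halfPell T : ℤ) ^ 2 + 2) * W' - W, h2, ?_, ?_⟩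
    · have := hp_rec hT l
      rw [show l + 1 + 1 = l + 2 by ring, this, h1, h2]
      ring
    · have hV : (4 * (halfPell T : ℤ) ^ 2 + 2) * W' - W = D * W' - W' - W := by rw [hD]; ring
      rw [hV]
      rcases h with ⟨h6, ⟨a, ha⟩, ⟨b, hb⟩⟩ | ⟨h6, ⟨a, ha⟩, ⟨b, hb⟩⟩ | ⟨h6, ⟨a, ha⟩, ⟨b, hb⟩⟩
      · right; left
        exact ⟨by omega, ⟨b, hb⟩, ⟨W' - b - a, by linear_combination -hb - ha⟩⟩
      · right; right
        exact ⟨by omega, ⟨b, hb⟩, ⟨W' - b - a, by linear_combination -hb - ha⟩⟩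
      · left
        exact ⟨by omega, ⟨b, hb⟩, ⟨W' - b - a, by linear_combination -hb - ha⟩⟩

theorem chi4_of {n : ℕ} (hn : n % 2 = 1) : (ZMod.χ₄ (n : ZMod 4) = 1 ∧ n % 4 = 1) ∨
    (ZMod.χ₄ (n : ZMod 4) = -1 ∧ n % 4 = 3) := by
  have : n % 4 = 1 ∨ n % 4 = 3 := by omega
  rcases this with h | h
  · exact Or.inl ⟨ZMod.χ₄_nat_one_mod_four h, h⟩
  · exact Or.inr ⟨ZMod.χ₄_nat_three_mod_four h, h⟩

/-- reciprocity when the first entry is `3 (mod 4)` -/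
theorem recip3 {D n : ℕ} (hD : D % 4 = 3) (hn : n % 2 = 1) :
    J((D : ℤ) | n) = ZMod.χ₄ (n : ZMod 4) * J((n : ℤ) | D) := by
  rcases chi4_of hn with ⟨h1, h2⟩ | ⟨h1, h2⟩
  · rw [h1, one_mul]
    exact jacobiSym.quadratic_reciprocity_one_mod_four' (Nat.odd_iff.2 (by omega)) h2
  · rw [h1, neg_one_mul]
    exact jacobiSym.quadratic_reciprocity_three_mod_four hD h2

/-- the value `J(3 | H_n)` for odd `n` -/
theorem J_three_hp {n : ℕ} (hn : n % 2 = 1) :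
    (J(3 | halfPell n) = 1 ∧ (n % 8 = 1 ∨ n % 8 = 7)) ∨
      (J(3 | halfPell n) = -1 ∧ (n % 8 = 3 ∨ n % 8 = 5)) := by
  have hr : J(3 | halfPell n) = ZMod.χ₄ (halfPell n : ZMod 4) * J((halfPell n : ℤ) | 3) :=
    recip3 (D := 3) (by norm_num) (hp_mod_two n)
  have hval : ∀ r : ℕ, (halfPell n : ℤ) % 3 = (r : ℤ) % 3 → J((halfPell n : ℤ) | 3) = J((r : ℤ) | 3) :=
    fun r h => jacobiSym.mod_left' h
  have h1 : n % 8 = 1 ∨ n % 8 = 3 ∨ n % 8 = 5 ∨ n % 8 = 7 := by omega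
  rcases h1 with h | h | h | h
  · have h2 := hp_of_mod h
    rw [show halfPell 1 % 24 = 1 by decide] at h2
    left
    refine ⟨?_, Or.inl h⟩
    rw [hr, ZMod.χ₄_nat_one_mod_four (by omega), hval 1 (by omega)]
    norm_num
  · have h2 := hp_of_mod h
    rw [show halfPell 3 % 24 = 7 by decide] at h2
    right
    refine ⟨?_, Or.inl h⟩
    rw [hr, ZMod.χ₄_nat_three_mod_four (by omega), hval 1 (by omega)]
    norm_num
  · have h2 := hp_of_mod h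
    rw [show halfPell 5 % 24 = 17 by decide] at h2
    right
    refine ⟨?_, Or.inr h⟩
    rw [hr, ZMod.χ₄_nat_one_mod_four (by omega), hval 2 (by omega)]
    norm_num
  · have h2 := hp_of_mod h
    rw [show halfPell 7 % 24 = 23 by decide] at h2
    left
    refine ⟨?_, Or.inr h⟩
    rw [hr, ZMod.χ₄_nat_three_mod_four (by omega), hval 2 (by omega)]
    norm_num

end Pool.Agent.Helper310_Dom
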