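import Mathlib
import Pool.Agent.Helper310_Dom.SixQ

/-!
# No repeated roots for `k + 1 = 2 * 3 ^ a * q ^ b`
-/

namespace Pool.Agent.Helper310_Dom

open scoped NumberTheorySymbols

/-- `J(3 | H_n) χ₄(H_n)` for odd `n` -/
theorem K_val {n : ℕ} (hn : n % 2 = 1) :
    (J(3 | halfPell n) * ZMod.χ₄ (halfPell n : ZMod 4) = 1 ∧ (n % 8 = 1 ∨ n % 8 = 3)) ∨
      (J(3 | halfPell n) * ZMod.χ₄ (halfPell n : ZMod 4) = -1 ∧ (n % 8 = 5 ∨ n % 8 = 7)) := by
  have h1 : n % 8 = 1 ∨ n % 8 = 3 ∨ n % 8 = 5 ∨ n % 8 = 7 := by omega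
  have h3 := J_three_hp hn
  rcases h1 with h | h | h | h
  · have h2 := hp_of_mod h
    rw [show halfPell 1 % 24 = 1 by decide] at h2
    left
    rcases h3 with ⟨h3, _⟩ | ⟨_, h3⟩
    · exact ⟨by rw [h3, ZMod.χ₄_nat_one_mod_four (by omega)]; norm_num, Or.inl h⟩
    · omega
  · have h2 := hp_of_mod h
    rw [show halfPell 3 % 24 = 7 by decide] at h2
    left
    rcases h3 with ⟨_, h3⟩ | ⟨h3, _⟩
    · omega
    · exact ⟨by rw [h3, ZMod.χ₄_nat_three_mod_four (by omega)]; norm_num, Or.inr h⟩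
  · have h2 := hp_of_mod h
    rw [show halfPell 5 % 24 = 17 by decide] at h2
    right
    rcases h3 with ⟨_, h3⟩ | ⟨h3, _⟩
    · omega
    · exact ⟨by rw [h3, ZMod.χ₄_nat_one_mod_four (by omega)]; norm_num, Or.inl h⟩
  · have h2 := hp_of_mod h
    rw [show halfPell 7 % 24 = 23 by decide] at h2
    right
    rcases h3 with ⟨h3, _⟩ | ⟨_, h3⟩
    · exact ⟨by rw [h3, ZMod.χ₄_nat_three_mod_four (by omega)]; norm_num, Or.inr h⟩
    · omega

theorem hp_D {S : ℕ} (hS : Odd S) : ∃ D : ℕ, (D : ℤ) = 4 * (halfPell S : ℤ) ^ 2 + 3 ∧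
    halfPell (S * 3) = halfPell S * D ∧ D ≠ 0 ∧ D % 4 = 3 := by
  refine ⟨4 * halfPell S ^ 2 + 3, by push_cast; ring, ?_, by omega, by omega⟩
  have := hp_three hS
  exact_mod_cast this

theorem not_square_three_hp {T q : ℕ} (hT : T % 2 = 1) (hq : q % 24 = 11 ∨ q % 24 = 13) {e : ℤ}
    (he : (4 * (halfPell T : ℤ) ^ 2 + 3) * (4 * (halfPell (T * q) : ℤ) ^ 2 + 3) = e ^ 2) :
    False := by
  have hTo : Odd T := Nat.odd_iff.2 hT
  have hqo : q % 2 = 1 := by omega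
  have hTq : (T * q) % 2 = 1 := by rw [Nat.mul_mod, hT, hqo]
  obtain ⟨D, hD, -, -, hD4⟩ := hp_D hTo
  have hDo : Odd D := Nat.odd_iff.2 (by omega)
  have h1 : J((D : ℤ) | halfPell (T * q)) =
      ZMod.χ₄ (halfPell (T * q) : ZMod 4) * J((halfPell (T * q) : ℤ) | D) :=
    recip3 hD4 (hp_mod_two _)
  have h2 : J((D : ℤ) | halfPell T) = ZMod.χ₄ (halfPell T : ZMod 4) * J((halfPell T : ℤ) | D) :=
    recip3 hD4 (hp_mod_two _)
  have h3 : J((D : ℤ) | halfPell T) = J(3 | halfPell T) := by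
    apply jacobiSym.mod_left'
    have h' : (halfPell T : ℤ) ∣ (D : ℤ) - 3 := ⟨4 * halfPell T, by rw [hD]; ring⟩
    exact (Int.modEq_iff_dvd.2 h').symm
  obtain ⟨l, hl⟩ : ∃ l, q = 2 * l + 1 := ⟨q / 2, by omega⟩
  obtain ⟨W, W', h4, -, h5⟩ := hp_cofactor3 hTo l
  rw [← hl] at h4
  have h6 : (q % 24 = 11 ∧ J(W | D) = -1) ∨ (q % 24 = 13 ∧ J(W | D) = 1) := by
    rcases hq with hq | hq
    · left
      refine ⟨hq, ?_⟩
      rcases h5 with ⟨h, _⟩ | ⟨h, _⟩ | ⟨_, h, _⟩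
      · omega
      · omega
      · rw [← hD] at h
        have : J(W | D) = J(-1 | D) := by
          apply jacobiSym.mod_left'
          have h' : (D : ℤ) ∣ W - (-1) := by rw [sub_neg_eq_add]; exact h
          exact (Int.modEq_iff_dvd.2 h').symm
        rw [this, jacobiSym.at_neg_one hDo, ZMod.χ₄_nat_three_mod_four hD4]
    · right
      refine ⟨hq, ?_⟩
      rcases h5 with ⟨_, h, _⟩ | ⟨h, _⟩ | ⟨h, _⟩
      · rw [← hD] at h
        have : J(W | D) = J(1 | D) := by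
          apply jacobiSym.mod_left'
          exact (Int.modEq_iff_dvd.2 h).symm
        rw [this, jacobiSym.one_left]
      · omega
      · omega
  have hB : J(4 * (halfPell (T * q) : ℤ) ^ 2 + 3 | halfPell (T * q)) =
      J(3 | halfPell (T * q)) := by
    apply jacobiSym.mod_left'
    have h' : (halfPell (T * q) : ℤ) ∣ (4 * (halfPell (T * q) : ℤ) ^ 2 + 3) - 3 :=
      ⟨4 * halfPell (T * q), by ring⟩
    exact (Int.modEq_iff_dvd.2 h').symm
  have hC : J(e ^ 2 | halfPell (T * q)) =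
      (ZMod.χ₄ (halfPell (T * q) : ZMod 4) * (J((halfPell T : ℤ) | D) * J(W | D))) *
        J(3 | halfPell (T * q)) := by
    rw [← he, jacobiSym.mul_left, ← hD, h1, hB, h4, jacobiSym.mul_left]
  have hχ : ZMod.χ₄ (halfPell T : ZMod 4) * ZMod.χ₄ (halfPell T : ZMod 4) = 1 := by
    rcases chi4_of (hp_mod_two T) with ⟨h, _⟩ | ⟨h, _⟩ <;> rw [h] <;> norm_num
  have h7 : J((halfPell T : ℤ) | D) = ZMod.χ₄ (halfPell T : ZMod 4) * J(3 | halfPell T) := by
    rw [← h3, h2, ← mul_assoc, hχ, one_mul]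
  have hC2 : J(e ^ 2 | halfPell (T * q)) =
      (J(3 | halfPell T) * ZMod.χ₄ (halfPell T : ZMod 4)) *
        (J(3 | halfPell (T * q)) * ZMod.χ₄ (halfPell (T * q) : ZMod 4)) * J(W | D) := by
    rw [hC, h7]
    ring
  rw [jacobiSym.pow_left] at hC2
  have hsq := sq_nonneg (J(e | halfPell (T * q)))
  rw [hC2] at hsq
  have hmul : (T * q) % 8 = (T % 8) * (q % 8) % 8 := Nat.mul_mod _ _ _
  have hq8 : (q % 24 = 11 ∧ q % 8 = 3) ∨ (q % 24 = 13 ∧ q % 8 = 5) := by omega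
  rcases K_val hT with ⟨k1, k1'⟩ | ⟨k1, k1'⟩ <;> rcases K_val hTq with ⟨k2, k2'⟩ | ⟨k2, k2'⟩ <;>
    rcases h6 with ⟨h6, h6'⟩ | ⟨h6, h6'⟩ <;> rw [k1, k2, h6'] at hsq <;>
    first
    | (norm_num at hsq; done)
    | (exfalso
       rcases hq8 with ⟨_, h8⟩ | ⟨_, h8⟩ <;> rcases k1' with k1' | k1' <;>
         rw [k1', h8] at hmul <;> omega)

theorem not_dvd_pell_six {q : ℕ} (hq : q.Prime) (hq8 : q % 8 = 3 ∨ q % 8 = 5)
    (h3 : q % 3 = 1) (x : ℕ) : ¬ q ∣ pell (2 * 3 ^ x) := by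
  have : Fact q.Prime := ⟨hq⟩
  have hq2 : q ≠ 2 := by rintro rfl; omega
  have h2K : (2 : KK q) ≠ 0 := by
    intro h0
    have h1 : q ∣ 2 := (CharP.cast_eq_zero_iff (KK q) q 2).1 (by exact_mod_cast h0)
    exact hq2 ((Nat.prime_dvd_prime_iff_eq hq Nat.prime_two).1 h1)
  obtain ⟨s, hs⟩ := IsAlgClosed.exists_pow_nat_eq (2 : KK q) (n := 2) (by norm_num)
  have hs0 : s ≠ 0 := by
    rintro rfl
    apply h2K
    rw [← hs]; simp
  have hleg : ((2 : ZMod q)) ^ (q / 2) = -1 := by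
    have h1 := legendreSym.eq_pow q 2
    have h4 : legendreSym q 2 = -1 := by
      rw [legendreSym.at_two hq2, ZMod.χ₈_nat_eq_if_mod_eight]
      have h5 : q % 2 ≠ 0 := by omega
      have h6 : ¬ (q % 8 = 1 ∨ q % 8 = 7) := by omega
      simp [h5, h6]
    rw [h4] at h1
    push_cast at h1
    exact h1.symm
  have hleg2 : ((2 : KK q)) ^ (q / 2) = -1 := by
    have h1 := congrArg (algebraMap (ZMod q) (KK q)) hleg
    rw [map_pow, map_neg, map_one, map_ofNat] at h1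
    exact h1
  have hsq : s ^ q = -s := by
    have h5 : q = 2 * (q / 2) + 1 := by omega
    have h6 : s ^ q = s ^ (2 * (q / 2) + 1) := congrArg (fun n => s ^ n) h5
    rw [h6, pow_succ, pow_mul, hs, hleg2]
    ring
  have he : (1 + s) ^ (q + 1) = -1 := by
    rw [pow_succ, add_pow_char, one_pow, hsq]
    linear_combination -hs
  have he' : (1 - s) ^ (q + 1) = -1 := by
    rw [pow_succ, sub_pow_char, one_pow, hsq]
    linear_combination -hs
  intro hd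
  have h1 := binet hs (2 * 3 ^ x)
  rw [(CharP.cast_eq_zero_iff (KK q) q _).2 hd, mul_zero] at h1
  have he0 : (1 - s) ≠ 0 := by
    intro h0
    rw [h0, zero_pow (by omega)] at he'
    exact one_ne_zero (neg_eq_zero.1 he'.symm)
  have hr1 : ((1 + s) / (1 - s)) ^ (2 * 3 ^ x) = 1 := by
    rw [div_pow, (sub_eq_zero.1 h1.symm), div_self (pow_ne_zero _ he0)]
  have hr2 : ((1 + s) / (1 - s)) ^ (q + 1) = 1 := by
    rw [div_pow, he, he', div_self (neg_ne_zero.2 one_ne_zero)]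
  have hcop : Nat.Coprime (3 ^ x) (q + 1) := by
    apply Nat.Coprime.pow_left
    rw [Nat.Prime.coprime_iff_not_dvd Nat.prime_three]
    omega
  have hr : ((1 + s) / (1 - s)) ^ 2 = 1 := by
    have h6 := pow_gcd_eq_one.2 ⟨hr1, hr2⟩
    obtain ⟨d, hd2⟩ : Nat.gcd (2 * 3 ^ x) (q + 1) ∣ 2 := by
      rw [Nat.Coprime.gcd_mul_right_cancel _ hcop]
      exact Nat.gcd_dvd_left 2 _
    calc ((1 + s) / (1 - s)) ^ 2 = ((1 + s) / (1 - s)) ^ (Nat.gcd (2 * 3 ^ x) (q + 1) * d) := by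
          rw [← hd2]
      _ = 1 := by rw [pow_mul, h6, one_pow]
  rw [div_pow, div_eq_one_iff_eq (pow_ne_zero _ he0)] at hr
  have h7 : 2 * 2 * s = 0 := by linear_combination hr
  exact mul_ne_zero (mul_ne_zero h2K h2K) hs0 h7

end Pool.Agent.Helper310_Dom
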