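import Mathlib
import Pool.Agent.Helper310_Dom.SixFinal

/-!
# No repeated roots for `k + 1 = 2 * 3 ^ a * q ^ b`: conclusion
-/

namespace Pool.Agent.Helper310_Dom

theorem sum_two (p : ℕ) {N : ℕ} (hN : N % 2 = 1) :
    ∑ e ∈ N.divisors, primVal p (2 * e) =
      (padicValNat p (pell (2 * N)) : ℤ) - padicValNat p (pell N) := by
  have hc : Nat.Coprime 2 N := (Nat.coprime_two_left).2 (Nat.odd_iff.2 hN)
  have h1 := sum_primVal p (n := 2 * N) (by omega)
  have h2 := sum_primVal p (n := N) (by omega)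
  rw [sum_divisors_coprime hc, Nat.Prime.divisors Nat.prime_two,
    Finset.sum_pair (by norm_num)] at h1
  simp only [one_mul] at h1
  linarith

theorem sum_two_three {p : ℕ} (hp : p.Prime) (hp2 : p ≠ 2) {q : ℕ} (hq : q.Prime)
    (hqo : q % 2 = 1) (hq3 : q ≠ 3) (x y : ℕ) :
    ∑ u ∈ Finset.range (x + 1), ∑ w ∈ Finset.range (y + 1), primVal p (2 * (3 ^ u * q ^ w)) =
      (padicValNat p (halfPell (3 ^ x * q ^ y)) : ℤ) := by
  have : Fact p.Prime := ⟨hp⟩
  have hc : Nat.Coprime (3 ^ x) (q ^ y) :=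
    (((Nat.coprime_primes Nat.prime_three hq).2 hq3.symm).pow_right y).pow_left x
  have hodd : (3 ^ x * q ^ y) % 2 = 1 := by
    rw [Nat.mul_mod, Nat.pow_mod, Nat.pow_mod q, hqo]
    norm_num
  have h1 := sum_two p hodd
  have h2 := val_pell_two_mul hp2 (t := 3 ^ x * q ^ y)
    (mul_pos (by positivity) (pow_pos hq.pos _))
  rw [h2, sum_divisors_coprime hc (fun e => primVal p (2 * e)),
    Nat.sum_divisors_prime_pow Nat.prime_three] at h1
  push_cast at h1
  have h3 : ∑ u ∈ Finset.range (x + 1), ∑ w ∈ Finset.range (y + 1),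
      primVal p (2 * (3 ^ u * q ^ w)) =
      ∑ u ∈ Finset.range (x + 1), ∑ e ∈ (q ^ y).divisors, primVal p (2 * (3 ^ u * e)) := by
    apply Finset.sum_congr rfl
    intro u _
    rw [Nat.sum_divisors_prime_pow hq]
  rw [h3, h1]
  simp

theorem primVal_six {p : ℕ} (hp : p.Prime) (hp2 : p ≠ 2) {q : ℕ} (hq : q.Prime)
    (hqo : q % 2 = 1) (hq3 : q ≠ 3) (x y : ℕ) :
    primVal p (2 * (3 ^ (x + 1) * q ^ (y + 1))) =
      (padicValNat p (halfPell (3 ^ (x + 1) * q ^ (y + 1))) : ℤ)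
        - padicValNat p (halfPell (3 ^ x * q ^ (y + 1)))
        - padicValNat p (halfPell (3 ^ (x + 1) * q ^ y))
        + padicValNat p (halfPell (3 ^ x * q ^ y)) := by
  have h1 := sum_two_three hp hp2 hq hqo hq3 (x + 1) (y + 1)
  have h2 := sum_two_three hp hp2 hq hqo hq3 x (y + 1)
  have h3 := sum_two_three hp hp2 hq hqo hq3 (x + 1) y
  have h4 := sum_two_three hp hp2 hq hqo hq3 x y
  rw [Finset.sum_range_succ] at h1 h3
  rw [Finset.sum_range_succ _ (y + 1)] at h1
  linarith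

theorem two_mul_pow_not_gen {q N : ℕ} (hq : q.Prime) (hq8 : q % 8 = 3 ∨ q % 8 = 5) (j : ℕ)
    (hN : ∀ p : ℕ, p.Prime → p ∣ N → ¬ p ∣ halfPell (q ^ (j + 1)) ∧ ¬ p ∣ halfPell (q ^ j)) :
    ¬ PrimSquareAway N (2 * q ^ (j + 1)) := by
  intro h
  have hq2 : q ≠ 2 := by rintro rfl; omega
  have hsq : IsSquare (halfPell (q ^ (j + 1)) * halfPell (q ^ j)) := by
    apply isSquare_of_even (mul_ne_zero (hp_pos _).ne' (hp_pos _).ne')
    intro p hp
    have : Fact p.Prime := ⟨hp⟩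
    rw [padicValNat.mul (hp_pos _).ne' (hp_pos _).ne']
    by_cases hp2 : p = 2
    · subst hp2
      rw [padicValNat.eq_zero_of_not_dvd, padicValNat.eq_zero_of_not_dvd]
      · exact ⟨0, rfl⟩
      · intro hd
        have := hp_mod_two (q ^ j)
        omega
      · intro hd
        have := hp_mod_two (q ^ (j + 1))
        omega
    · by_cases hpN : p ∣ N
      · rw [padicValNat.eq_zero_of_not_dvd (hN p hp hpN).1,
          padicValNat.eq_zero_of_not_dvd (hN p hp hpN).2]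
        exact ⟨0, rfl⟩
      · have h3 := h p hp hpN
        have h4 := primVal_two_q' hp hp2 hq hq2 0 j
        simp only [zero_add, pow_one, pow_zero, one_mul] at h4
        rw [h4] at h3
        have h5 : Even (((padicValNat p (halfPell (q ^ (j + 1))) : ℤ) +
            (padicValNat p (halfPell (q ^ j)) : ℤ))) := by
          obtain ⟨c, hc⟩ := h3
          exact ⟨c + padicValNat p (halfPell (q ^ j)), by linarith⟩
        exact_mod_cast h5
  have e1 : halfPell 1 % 24 = 1 := by decide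
  have e3 : halfPell 3 % 24 = 7 := by decide
  have e5 : halfPell 5 % 24 = 17 := by decide
  have h8 := sq_mod_eight hsq
  have h9 := sq_mod_three hsq
  have hm : halfPell (q ^ (j + 1)) * halfPell (q ^ j) % 24 =
      (halfPell (q ^ (j + 1)) % 24) * (halfPell (q ^ j) % 24) % 24 := Nat.mul_mod _ _ _
  rcases pow_mod_eight hq8 j with ⟨h1, h2⟩ | ⟨h1, h2⟩
  · rcases hq8 with hq3 | hq5
    · rw [hq3] at h2
      rw [hp_of_mod h1, hp_of_mod h2, e1, e3] at hm
      omega
    · rw [hq5] at h2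
      rw [hp_of_mod h1, hp_of_mod h2, e1, e5] at hm
      omega
  · rcases hq8 with hq3 | hq5
    · rw [hq3] at h1
      rw [hp_of_mod h1, hp_of_mod h2, e1, e3] at hm
      omega
    · rw [hq5] at h1
      rw [hp_of_mod h1, hp_of_mod h2, e1, e5] at hm
      omega

theorem six_q_not {q N : ℕ} (hq : q.Prime) (hq24 : q % 24 = 11 ∨ q % 24 = 13) (x y : ℕ)
    (hN : ∀ p : ℕ, p.Prime → p ∣ N →
      ¬ p ∣ halfPell (3 ^ (x + 1) * q ^ (y + 1)) ∧ ¬ p ∣ halfPell (3 ^ (x + 1) * q ^ y)) :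
    ¬ PrimSquareAway N (2 * (3 ^ (x + 1) * q ^ (y + 1))) := by
  intro h
  have hqodd : q % 2 = 1 := by omega
  have hq3 : q ≠ 3 := by rintro rfl; omega
  have hodd : ∀ u v, (3 ^ u * q ^ v) % 2 = 1 := by
    intro u v
    rw [Nat.mul_mod, Nat.pow_mod, Nat.pow_mod q, hqodd]
    norm_num
  set T := 3 ^ x * q ^ y with hT
  have hT2 : T % 2 = 1 := hodd x y
  have hTo : Odd T := Nat.odd_iff.2 hT2
  have hTq2 : (T * q) % 2 = 1 := by rw [Nat.mul_mod, hT2, hqodd]
  have hTqo : Odd (T * q) := Nat.odd_iff.2 hTq2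
  have e1 : 3 ^ (x + 1) * q ^ (y + 1) = (T * q) * 3 := by rw [hT]; ring
  have e2 : 3 ^ x * q ^ (y + 1) = T * q := by rw [hT]; ring
  have e3 : 3 ^ (x + 1) * q ^ y = T * 3 := by rw [hT]; ring
  obtain ⟨D, hD1, hD2, hD0, hD4⟩ := hp_D hTo
  obtain ⟨D', hD1', hD2', hD0', hD4'⟩ := hp_D hTqo
  have hpT := (hp_pos T).ne'
  have hpTq := (hp_pos (T * q)).ne'
  have hsq : IsSquare (D * D') := by
    apply isSquare_of_even (mul_ne_zero hD0 hD0')
    intro p hp
    have : Fact p.Prime := ⟨hp⟩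
    rw [padicValNat.mul hD0 hD0']
    by_cases hp2 : p = 2
    · subst hp2
      rw [padicValNat.eq_zero_of_not_dvd (by omega), padicValNat.eq_zero_of_not_dvd (by omega)]
      exact ⟨0, rfl⟩
    · by_cases hpN : p ∣ N
      · have h5 := hN p hp hpN
        rw [e1, e3, hD2, hD2'] at h5
        rw [padicValNat.eq_zero_of_not_dvd (fun hd => h5.2 (hd.mul_left _)),
          padicValNat.eq_zero_of_not_dvd (fun hd => h5.1 (hd.mul_left _))]
        exact ⟨0, rfl⟩
      · have h3 := h p hp hpN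
        rw [primVal_six hp hp2 hq hqodd hq3, e1, e2, e3, ← hT, hD2, hD2',
          padicValNat.mul hpT hD0, padicValNat.mul hpTq hD0', Nat.cast_add, Nat.cast_add] at h3
        have h4 : Even ((padicValNat p D : ℤ) + (padicValNat p D' : ℤ)) := by
          obtain ⟨c, hc⟩ := h3
          exact ⟨c + padicValNat p D, by linarith⟩
        exact_mod_cast h4
  obtain ⟨e, he⟩ := hsq
  apply not_square_three_hp hT2 hq24 (e := e)
  rw [← hD1, ← hD1', pow_two]
  exact_mod_cast he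

theorem three_not_dvd_hp {n : ℕ} (hn : n % 2 = 1) : ¬ 3 ∣ halfPell n := by
  have h1 : n % 8 = 1 ∨ n % 8 = 3 ∨ n % 8 = 5 ∨ n % 8 = 7 := by omega
  rcases h1 with h | h | h | h
  · have h2 := hp_of_mod h
    rw [show halfPell 1 % 24 = 1 by decide] at h2
    omega
  · have h2 := hp_of_mod h
    rw [show halfPell 3 % 24 = 7 by decide] at h2
    omega
  · have h2 := hp_of_mod h
    rw [show halfPell 5 % 24 = 17 by decide] at h2
    omega
  · have h2 := hp_of_mod h
    rw [show halfPell 7 % 24 = 23 by decide] at h2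
    omega

theorem no_repeated_six_q {k a b q : ℕ} (hq : q.Prime)
    (hd : q % 24 = 13 ∨ (q % 24 = 11 ∧ ∀ x ≤ a, ¬ q ∣ pell (2 * 3 ^ x)))
    (hk : k + 1 = 2 * 3 ^ a * q ^ b) : ¬ HasRepeatedRoot k := by
  have hq24 : q % 24 = 11 ∨ q % 24 = 13 := by
    rcases hd with h | ⟨h, _⟩
    · exact Or.inr h
    · exact Or.inl h
  have hq8 : q % 8 = 3 ∨ q % 8 = 5 := by omega
  have hq2 : q ≠ 2 := by rintro rfl; omega
  have hq3 : q ≠ 3 := by rintro rfl; omega
  have hqodd : q % 2 = 1 := by omega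
  have hd6 : ∀ x ≤ a, ¬ q ∣ pell (2 * 3 ^ x) := by
    rcases hd with h | ⟨_, h⟩
    · intro x _
      exact not_dvd_pell_six hq hq8 (by omega) x
    · exact h
  have hodd : ∀ u v, (3 ^ u * q ^ v) % 2 = 1 := by
    intro u v
    rw [Nat.mul_mod, Nat.pow_mod, Nat.pow_mod q, hqodd]
    norm_num
  have hN : ∀ p : ℕ, p.Prime → p ∣ 2 * (k + 1) → p = 2 ∨ p = 3 ∨ p = q := by
    intro p hp hdv
    rw [hk] at hdv
    rcases (hp.dvd_mul).1 hdv with h | h
    · exact Or.inl ((Nat.prime_dvd_prime_iff_eq hp Nat.prime_two).1 h)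
    · rcases (hp.dvd_mul).1 h with h | h
      · rcases (hp.dvd_mul).1 h with h | h
        · exact Or.inl ((Nat.prime_dvd_prime_iff_eq hp Nat.prime_two).1 h)
        · exact Or.inr (Or.inl ((Nat.prime_dvd_prime_iff_eq hp Nat.prime_three).1
            (hp.dvd_of_dvd_pow h)))
      · exact Or.inr (Or.inr ((Nat.prime_dvd_prime_iff_eq hp hq).1 (hp.dvd_of_dvd_pow h)))
  have key : ∀ u ≤ a, ∀ w, ∀ p : ℕ, p.Prime → p ∣ 2 * (k + 1) → ¬ p ∣ pell (3 ^ u * q ^ w) := by
    intro u hu w p hp hpN hpd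
    rcases hN p hp hpN with h | h | h
    · rw [h] at hpd
      have := pell_odd (hodd u w)
      omega
    · rw [h] at hpd
      exact three_not_dvd (hodd u w) hpd
    · rw [h] at hpd
      have h1 := dvd_pell_mul_pow hq hq2 _ _ hpd
      apply hd6 u hu
      rw [pell_two_mul]
      exact (h1.mul_left 2).mul_right _
  have key2 : ∀ u ≤ a, ∀ w, ∀ p : ℕ, p.Prime → p ∣ 2 * (k + 1) →
      ¬ p ∣ halfPell (3 ^ u * q ^ w) := by
    intro u hu w p hp hpN hpd
    rcases hN p hp hpN with h | h | h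
    · rw [h] at hpd
      have := hp_mod_two (3 ^ u * q ^ w)
      omega
    · rw [h] at hpd
      exact three_not_dvd_hp (hodd u w) hpd
    · rw [h] at hpd
      have h1 := hp_mul_pow_mod hq hq2 (3 ^ u) w
      have h2 : q ∣ halfPell (3 ^ u) := (h1.dvd_iff (dvd_refl q)).1 hpd
      apply hd6 u hu
      rw [pell_two_mul]
      exact h2.mul_left _
  apply no_repeated_of
  intro m hm hm3
  rw [hk] at hm
  obtain ⟨m1, m2, h1, h2, rfl⟩ := (Nat.dvd_mul).1 hm
  obtain ⟨m3, m4, h3, h4, rfl⟩ := (Nat.dvd_mul).1 h1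
  obtain ⟨c, hc, rfl⟩ := (Nat.dvd_prime_pow Nat.prime_three).1 h4
  obtain ⟨j, _, rfl⟩ := (Nat.dvd_prime_pow hq).1 h2
  rcases (Nat.dvd_prime Nat.prime_two).1 h3 with rfl | rfl
  · rw [one_mul] at hm3 ⊢
    match c, j, hc with
    | 0, 0, _ => norm_num at hm3
    | 0, (j + 1), _ =>
      rw [pow_zero, one_mul]
      apply odd_pow_not_gen hq hq8 j
      intro p hp hpN
      have h3 := key 0 (Nat.zero_le a) (j + 1) p hp hpN
      have h4 := key 0 (Nat.zero_le a) j p hp hpN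
      rw [pow_zero, one_mul] at h3 h4
      exact ⟨h3, h4⟩
    | (c + 1), 0, hc =>
      rw [pow_zero, mul_one]
      apply odd_pow_not_gen Nat.prime_three (by norm_num) c
      intro p hp hpN
      have h3 := key (c + 1) hc 0 p hp hpN
      have h4 := key c (by omega) 0 p hp hpN
      rw [pow_zero, mul_one] at h3 h4
      exact ⟨h3, h4⟩
    | (c + 1), (j + 1), hc =>
      exact three_q_not hq hq8 hq3 c j
        (fun p hp hpN => ⟨key (c + 1) hc (j + 1) p hp hpN, key (c + 1) hc j p hp hpN⟩)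
  · rw [mul_assoc] at hm3 ⊢
    match c, j, hc with
    | 0, 0, _ => norm_num at hm3
    | 0, (j + 1), _ =>
      rw [pow_zero, one_mul]
      apply two_mul_pow_not_gen hq hq8 j
      intro p hp hpN
      have h3 := key2 0 (Nat.zero_le a) (j + 1) p hp hpN
      have h4 := key2 0 (Nat.zero_le a) j p hp hpN
      rw [pow_zero, one_mul] at h3 h4
      exact ⟨h3, h4⟩
    | (c + 1), 0, hc =>
      rw [pow_zero, mul_one]
      apply two_mul_pow_not_gen Nat.prime_three (by norm_num) c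
      intro p hp hpN
      have h3 := key2 (c + 1) hc 0 p hp hpN
      have h4 := key2 c (by omega) 0 p hp hpN
      rw [pow_zero, mul_one] at h3 h4
      exact ⟨h3, h4⟩
    | (c + 1), (j + 1), hc =>
      exact six_q_not hq hq24 c j
        (fun p hp hpN => ⟨key2 (c + 1) hc (j + 1) p hp hpN, key2 (c + 1) hc j p hp hpN⟩)

end Pool.Agent.Helper310_Dom
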