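import Mathlib
import Pool.Agent.Helper310_Dom.Final

/-!
# The numbers `2 ^ a * 3 ^ b`
-/

namespace Pool.Agent.Helper310_Dom

theorem one_lt_halfPell {n : ℕ} (hn : 2 ≤ n) : 1 < halfPell n := by
  obtain ⟨m, rfl⟩ : ∃ m, n = m + 2 := ⟨n - 2, by omega⟩
  rw [halfPell]
  have h1 := hp_pos (m + 1)
  have h2 := hp_pos m
  omega

theorem hp_three_even {T : ℕ} (hT : Even T) :
    (halfPell (T * 3) : ℤ) = halfPell T * (4 * (halfPell T : ℤ) ^ 2 - 3) := by
  have hs : (√2 : ℝ) ^ 2 = 2 := Real.sq_sqrt (by norm_num)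
  have h0 := hp_binet hs T
  have h1 := hp_binet hs (T * 3)
  set x := (1 + √2 : ℝ) ^ T with hx
  set y := (1 - √2 : ℝ) ^ T with hy
  have hxy : x * y = 1 := by
    rw [hx, hy, ← mul_pow]
    have : (1 + √2 : ℝ) * (1 - √2) = -1 := by linear_combination -hs
    rw [this, hT.neg_one_pow]
  rw [pow_mul, pow_mul, ← hx, ← hy] at h1
  have hu : 4 * (halfPell T : ℝ) ^ 2 = (x + y) ^ 2 := by rw [← h0]; ring
  have h5 : (2 : ℝ) * (halfPell (T * 3) : ℝ) = 2 * (halfPell T * (4 * (halfPell T : ℝ) ^ 2 - 3)) := by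
    rw [h1, hu, ← mul_assoc, h0]
    linear_combination (-3 * (x + y)) * hxy + 3 * (x + y) * hxy - 3 * (x + y) * hxy
  have h7 := mul_left_cancel₀ (two_ne_zero) h5
  exact_mod_cast h7

theorem two_three_not {N : ℕ} (c j : ℕ) (hN : ∀ p : ℕ, p.Prime → p ∣ N → p = 2 ∨ p = 3) :
    ¬ PrimSquareAway N (2 ^ (c + 2) * 3 ^ (j + 1)) := by
  intro h
  have h3p : Nat.Prime 3 := Nat.prime_three
  set T := 2 ^ (c + 1) * 3 ^ j with hT
  have hTe : Even T := ⟨2 ^ c * 3 ^ j, by rw [hT, pow_succ]; ring⟩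
  have hT2 : 2 ≤ T := by
    have h1 : 0 < 2 ^ c * 3 ^ j := by positivity
    have h2 : T = 2 * (2 ^ c * 3 ^ j) := by rw [hT, pow_succ]; ring
    omega
  have hH := one_lt_halfPell hT2
  obtain ⟨D, hD⟩ : ∃ D : ℕ, D + 3 = 4 * halfPell T ^ 2 := by
    refine ⟨4 * halfPell T ^ 2 - 3, ?_⟩
    have : 3 ≤ 4 * halfPell T ^ 2 := by nlinarith
    omega
  have hDZ : (D : ℤ) = 4 * (halfPell T : ℤ) ^ 2 - 3 := by
    have : ((D + 3 : ℕ) : ℤ) = ((4 * halfPell T ^ 2 : ℕ) : ℤ) := by rw [hD]
    push_cast at this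
    linarith
  have hD0 : D ≠ 0 := by
    rintro rfl
    nlinarith
  -- `H_{3T} = H_T D`
  have hprod : halfPell (T * 3) = halfPell T * D := by
    have h4 := hp_three_even hTe
    rw [← hDZ] at h4
    exact_mod_cast h4
  have hval : ∀ p : ℕ, p.Prime → p ≠ 2 → p ≠ 3 → Even (padicValNat p D) := by
    intro p hp hp2 hp3
    have : Fact p.Prime := ⟨hp⟩
    have hpN : ¬ p ∣ N := fun hd => by
      rcases hN p hp hd with h1 | h1
      · exact hp2 h1
      · exact hp3 h1
    have h1 := h p hp hpN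
    have e1 : 2 ^ (c + 1) * 3 ^ (j + 1) = T * 3 := by rw [hT]; ring
    rw [show c + 2 = (c + 1) + 1 by ring, primVal_two_q' hp hp2 h3p (by norm_num), e1, ← hT,
      hprod, padicValNat.mul (hp_pos T).ne' hD0, Nat.cast_add] at h1
    have h2 : Even (padicValNat p D : ℤ) := by
      obtain ⟨d, hd⟩ := h1
      exact ⟨d, by linarith⟩
    exact_mod_cast h2
  have hDo : D % 2 = 1 := by omega
  have h2val : padicValNat 2 D = 0 := padicValNat.eq_zero_of_not_dvd (by omega)
  have f3 : Fact (Nat.Prime 3) := ⟨h3p⟩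
  rcases Nat.even_or_odd (padicValNat 3 D) with he | ho
  · have hsq : IsSquare D := by
      apply isSquare_of_even hD0
      intro p hp
      by_cases hp2 : p = 2
      · rw [hp2, h2val]; exact ⟨0, rfl⟩
      · by_cases hp3 : p = 3
        · rw [hp3]; exact he
        · exact hval p hp hp2 hp3
    obtain ⟨e, he⟩ := hsq
    have h1 : e * e + 3 = 4 * halfPell T ^ 2 := by rw [← he]; exact hD
    have h2 : e < 2 * halfPell T := by nlinarith
    have h4 : 2 * halfPell T - 1 < e := by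
      by_contra hc
      have h5 : e + 1 ≤ 2 * halfPell T := by omega
      nlinarith
    omega
  · have hsq : IsSquare (3 * D) := by
      apply isSquare_of_even (mul_ne_zero (by norm_num) hD0)
      intro p hp
      have : Fact p.Prime := ⟨hp⟩
      rw [padicValNat.mul (by norm_num) hD0]
      by_cases hp2 : p = 2
      · subst hp2
        rw [h2val, padicValNat.eq_zero_of_not_dvd (by norm_num)]
        exact ⟨0, rfl⟩
      · by_cases hp3 : p = 3
        · subst hp3
          rw [padicValNat.self (by norm_num)]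
          exact Odd.add_odd odd_one ho
        · rw [padicValNat.eq_zero_of_not_dvd (fun hd =>
            hp3 ((Nat.prime_dvd_prime_iff_eq hp h3p).1 hd)), zero_add]
          exact hval p hp hp2 hp3
    obtain ⟨e, he⟩ := hsq
    have h1 : 3 ∣ e := by
      have : 3 ∣ e * e := ⟨D, he.symm⟩
      rcases (h3p.dvd_mul).1 this with h | h <;> exact h
    obtain ⟨f, rfl⟩ := h1
    have h2 : D = 3 * (f * f) := by nlinarith
    have h4 : 3 ∣ halfPell T ^ 2 := by
      have h5 : 3 * (f * f) + 3 = 4 * halfPell T ^ 2 := by rw [← h2]; exact hD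
      omega
    obtain ⟨g, hg⟩ := h3p.dvd_of_dvd_pow h4
    have h6 : f * f + 1 = 12 * (g * g) := by
      have h5 : 3 * (f * f) + 3 = 4 * halfPell T ^ 2 := by rw [← h2]; exact hD
      rw [hg] at h5
      nlinarith
    have h7 : f % 3 = 0 ∨ f % 3 = 1 ∨ f % 3 = 2 := by omega
    have h8 : (f * f) % 3 = (f % 3) * (f % 3) % 3 := Nat.mul_mod _ _ _
    rcases h7 with h | h | h <;> rw [h] at h8 <;> omega

theorem three_not_dvd_halfPell (c : ℕ) : halfPell (2 ^ (c + 2)) % 3 ≠ 0 := by
  induction c with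
  | zero => decide
  | succ c ih =>
    have h1 := halfPell_two_pow_succ (c + 1)
    rw [show c + 1 + 2 = (c + 2) + 1 by ring, show c + 1 + 1 = c + 2 by ring] at h1
    rw [show c + 1 + 2 = (c + 2) + 1 by ring]
    have h2 : (halfPell (2 ^ (c + 2)) ^ 2) % 3 = 1 := by
      rw [Nat.pow_mod]
      have : halfPell (2 ^ (c + 2)) % 3 = 1 ∨ halfPell (2 ^ (c + 2)) % 3 = 2 := by omega
      rcases this with h | h <;> rw [h]
    omega

theorem no_repeated_two_three {k a b : ℕ} (hk : k + 1 = 2 ^ a * 3 ^ b) : ¬ HasRepeatedRoot k := by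
  intro hr
  have hN : ∀ p : ℕ, p.Prime → p ∣ 2 * (k + 1) → p = 2 ∨ p = 3 := by
    intro p hp hd
    rw [hk] at hd
    rcases (hp.dvd_mul).1 hd with h | h
    · exact Or.inl ((Nat.prime_dvd_prime_iff_eq hp Nat.prime_two).1 h)
    · rcases (hp.dvd_mul).1 h with h | h
      · exact Or.inl ((Nat.prime_dvd_prime_iff_eq hp Nat.prime_two).1 (hp.dvd_of_dvd_pow h))
      · exact Or.inr ((Nat.prime_dvd_prime_iff_eq hp Nat.prime_three).1 (hp.dvd_of_dvd_pow h))
  have claim : ∀ m, m ∣ k + 1 → 3 ≤ m → PrimSquareAway (2 * (k + 1)) m → m = 4 := by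
    intro m hm hm3 hb
    rw [hk] at hm
    obtain ⟨m1, m2, h1, h2, rfl⟩ := (Nat.dvd_mul).1 hm
    obtain ⟨c, hc, rfl⟩ := (Nat.dvd_prime_pow Nat.prime_two).1 h1
    obtain ⟨j, _, rfl⟩ := (Nat.dvd_prime_pow Nat.prime_three).1 h2
    match c, j, hb with
    | 0, 0, _ => norm_num at hm3
    | 1, 0, _ => norm_num at hm3
    | 2, 0, _ => norm_num
    | (c + 3), 0, hb =>
      exfalso
      rw [pow_zero, mul_one] at hb
      refine two_pow_not' (q := 3) hN (by norm_num) (c + 1) ?_ hb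
      intro hd
      have h3 := three_not_dvd_halfPell c
      exact h3 (Nat.mod_eq_zero_of_dvd hd)
    | 0, (j + 1), hb =>
      exfalso
      rw [pow_zero, one_mul] at hb
      exact odd_pow_not Nat.prime_three (by norm_num) j hN hb
    | 1, (j + 1), hb =>
      exfalso
      rw [pow_one] at hb
      exact two_mul_pow_not Nat.prime_three (by norm_num) j hN hb
    | (c + 2), (j + 1), hb =>
      exfalso
      exact two_three_not c j hN hb
  obtain ⟨i, j, hi, hij, hj, h1, h2⟩ := pell_criterion hr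
  have h3 := claim _ (Nat.div_dvd_of_dvd (Nat.gcd_dvd_right i _))
    (three_le_of hi (by omega)) h1
  have h4 := claim _ (Nat.div_dvd_of_dvd (Nat.gcd_dvd_right j _))
    (three_le_of (by omega) hj) h2
  have aux : ∀ l, 1 ≤ l → l ≤ k / 2 → (k + 1) / Nat.gcd l (k + 1) = 4 → 4 * l = k + 1 := by
    intro l hl hlk h
    have hg : k + 1 = Nat.gcd l (k + 1) * 4 := by
      rw [← h]
      exact (Nat.mul_div_cancel' (Nat.gcd_dvd_right l (k + 1))).symm
    obtain ⟨t, ht⟩ := Nat.gcd_dvd_left l (k + 1)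
    set G := Nat.gcd l (k + 1) with hG
    have ht2 : t < 2 := by
      by_contra hc
      have : G * 2 ≤ G * t := Nat.mul_le_mul_left _ (by omega)
      omega
    have ht0 : t ≠ 0 := by
      rintro rfl
      omega
    have ht1 : t = 1 := by omega
    rw [ht1, mul_one] at ht
    omega
  have e1 := aux i hi (by omega) h3
  have e2 := aux j (by omega) hj h4
  omega

end Pool.Agent.Helper310_Dom
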